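import Pool.Agent.Lib.MP_75f8eb_an.ConeMass

/-!
# The bootstrap
-/

namespace Pool.Agent.KPP

open Set Filter Topology MeasureTheory

variable {N : ℕ} {f : ℝ → ℝ} {v : ℝ → Sp N → ℝ}

/-- quadratic form inequality -/
theorem quad_ineq {c ϑ Γ B p r w ζ η : ℝ} (hc0 : 0 ≤ c) (hc1 : c ≤ 1 / 4)
    (hϑ1 : ϑ ≤ 1) (hcϑ : 3 * c + Γ ≤ ϑ) (hΓ1 : Γ ≤ 1) (hB : 0 ≤ B)
    (hw : w ^ 2 ≤ Γ * r ^ 2 + B) (hη : η ^ 2 ≤ (p + w) ^ 2) (hζ : ζ ^ 2 ≤ 2 * (p ^ 2 + r ^ 2)) :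
    -2 * p ^ 2 + c * (ϑ * ζ ^ 2) + η ^ 2 ≤ 2 * ϑ * r ^ 2 + 3 * B := by
  have h1 : 2 * p * w ≤ (1 - 2 * c) * p ^ 2 + (1 + 4 * c) * w ^ 2 := by
    have h2 : 0 < 1 - 2 * c := by linarith
    have h3 : 0 ≤ (1 - 2 * c) * ((1 - 2 * c) * p ^ 2 + (1 + 4 * c) * w ^ 2 - 2 * p * w) := by
      have h4 : (1 - 2 * c) * ((1 - 2 * c) * p ^ 2 + (1 + 4 * c) * w ^ 2 - 2 * p * w) =
          ((1 - 2 * c) * p - w) ^ 2 + (2 * c * (1 - 4 * c)) * w ^ 2 := by ring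
      rw [h4]
      have h5 : 0 ≤ 2 * c * (1 - 4 * c) := mul_nonneg (by linarith) (by linarith)
      positivity
    have := nonneg_of_mul_nonneg_right h3 h2
    linarith
  have h2 : c * (ϑ * ζ ^ 2) ≤ 2 * c * (p ^ 2 + r ^ 2) := by
    have h3 : ϑ * ζ ^ 2 ≤ 1 * (2 * (p ^ 2 + r ^ 2)) :=
      mul_le_mul hϑ1 hζ (sq_nonneg _) (by norm_num)
    have := mul_le_mul_of_nonneg_left h3 hc0
    linarith
  have h3 : (2 + 4 * c) * w ^ 2 ≤ (2 + 4 * c) * (Γ * r ^ 2 + B) :=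
    mul_le_mul_of_nonneg_left hw (by linarith)
  have h4 : (2 + 4 * c) * B ≤ 3 * B := mul_le_mul_of_nonneg_right (by linarith) hB
  have h5 : (2 * c + (2 + 4 * c) * Γ) * r ^ 2 ≤ 2 * ϑ * r ^ 2 := by
    apply mul_le_mul_of_nonneg_right _ (sq_nonneg _)
    have : c * Γ ≤ c * 1 := mul_le_mul_of_nonneg_left hΓ1 hc0
    nlinarith
  nlinarith

/-- kernel inequality in the inner region -/
theorem inner_kernel {c ϑ Γ B σ τ T : ℝ} (hc0 : 0 ≤ c) (hc1 : c ≤ 1 / 4)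
    (hϑ1 : ϑ ≤ 1) (hcϑ : 3 * c + Γ ≤ ϑ) (hΓ1 : Γ ≤ 1) (hB : 0 ≤ B)
    (hT : 0 < T) (hTτ : T ≤ τ) (h1τ : 1 ≤ τ) {x y z : Sp N}
    (hxy : ‖x - y‖ ^ 2 ≤ Γ * ‖x‖ ^ 2 + B) (hzy : ‖z - y‖ ≤ σ * τ) :
    G N τ (z - x) * Real.exp (c * (ϑ * ‖z‖ ^ 2 / (4 * (2 * τ)))) ≤
      (2 ^ ((N : ℝ) / 2) * Real.exp (3 * B / 8 + T * σ ^ 2 / 8)) *
        Real.exp (ϑ * ‖x‖ ^ 2 / (4 * τ)) * G N (2 * τ - T) (z - y) := by
  have hτ0 : 0 < τ := by linarith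
  have h2τ : 0 < 2 * τ - T := by linarith
  unfold G
  have hpow : (4 * Real.pi * τ) ^ (-((N : ℝ) / 2)) ≤
      2 ^ ((N : ℝ) / 2) * (4 * Real.pi * (2 * τ - T)) ^ (-((N : ℝ) / 2)) := by
    rw [Real.rpow_neg (by positivity), Real.rpow_neg (by positivity), ← div_eq_mul_inv,
      ← Real.div_rpow (by norm_num) (by positivity), ← Real.inv_rpow (by positivity)]
    apply Real.rpow_le_rpow (by positivity) _ (by positivity)
    rw [inv_eq_one_div, div_le_div_iff₀ (by positivity) (by positivity)]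
    nlinarith [Real.pi_pos]
  have hexp : Real.exp (-(1 / (4 * τ)) * ‖z - x‖ ^ 2) *
      Real.exp (c * (ϑ * ‖z‖ ^ 2 / (4 * (2 * τ)))) ≤
      Real.exp (3 * B / 8 + T * σ ^ 2 / 8) * Real.exp (ϑ * ‖x‖ ^ 2 / (4 * τ)) *
        Real.exp (-(1 / (4 * (2 * τ - T))) * ‖z - y‖ ^ 2) := by
    rw [← Real.exp_add, ← Real.exp_add, ← Real.exp_add]
    apply Real.exp_le_exp.2
    have hη : ‖z - y‖ ^ 2 ≤ (‖z - x‖ + ‖x - y‖) ^ 2 := by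
      apply pow_le_pow_left₀ (norm_nonneg _)
      have : z - y = (z - x) + (x - y) := by abel
      rw [this]; exact norm_add_le _ _
    have hζ : ‖z‖ ^ 2 ≤ 2 * (‖z - x‖ ^ 2 + ‖x‖ ^ 2) := by
      have h1 : ‖z‖ ≤ ‖z - x‖ + ‖x‖ := by
        have : z = (z - x) + x := by abel
        nth_rewrite 1 [this]; exact norm_add_le _ _
      have h2 : ‖z‖ ^ 2 ≤ (‖z - x‖ + ‖x‖) ^ 2 := pow_le_pow_left₀ (norm_nonneg _) h1 2
      nlinarith [sq_nonneg (‖z - x‖ - ‖x‖)]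
    have hq := quad_ineq hc0 hc1 hϑ1 hcϑ hΓ1 hB hxy hη hζ
    have h3 : ‖z - y‖ ^ 2 / (4 * (2 * τ - T)) ≤ ‖z - y‖ ^ 2 / (8 * τ) + T * σ ^ 2 / 8 := by
      have h4 : ‖z - y‖ ^ 2 ≤ (σ * τ) ^ 2 := pow_le_pow_left₀ (norm_nonneg _) hzy 2
      rw [div_le_iff₀ (by positivity)]
      have h5 : (‖z - y‖ ^ 2 / (8 * τ) + T * σ ^ 2 / 8) * (4 * (2 * τ - T)) =
          ‖z - y‖ ^ 2 + (T * σ ^ 2 / 2 * (2 * τ - T) - ‖z - y‖ ^ 2 * T / (2 * τ)) := by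
        field_simp; ring
      rw [h5]
      have h6 : ‖z - y‖ ^ 2 * T / (2 * τ) ≤ T * σ ^ 2 / 2 * τ := by
        rw [div_le_iff₀ (by positivity)]
        have h7 := mul_le_mul_of_nonneg_right h4 hT.le
        have h8 : T * σ ^ 2 / 2 * τ * (2 * τ) = (σ * τ) ^ 2 * T := by ring
        linarith
      have h9 : T * σ ^ 2 / 2 * τ ≤ T * σ ^ 2 / 2 * (2 * τ - T) :=
        mul_le_mul_of_nonneg_left (by linarith) (by positivity)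
      linarith
    have h10 : 3 * B / (8 * τ) ≤ 3 * B / 8 := by
      apply div_le_div_of_nonneg_left (by positivity) (by norm_num)
      linarith
    have h11 : (-2 * ‖z - x‖ ^ 2 + c * (ϑ * ‖z‖ ^ 2) + ‖z - y‖ ^ 2) / (8 * τ) ≤
        (2 * ϑ * ‖x‖ ^ 2 + 3 * B) / (8 * τ) := div_le_div_of_nonneg_right hq (by positivity)
    have e1 : (-2 * ‖z - x‖ ^ 2 + c * (ϑ * ‖z‖ ^ 2) + ‖z - y‖ ^ 2) / (8 * τ) =
        -(1 / (4 * τ)) * ‖z - x‖ ^ 2 + c * (ϑ * ‖z‖ ^ 2 / (4 * (2 * τ))) +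
          ‖z - y‖ ^ 2 / (8 * τ) := by
      field_simp; ring
    have e2 : (2 * ϑ * ‖x‖ ^ 2 + 3 * B) / (8 * τ) = ϑ * ‖x‖ ^ 2 / (4 * τ) + 3 * B / (8 * τ) := by
      field_simp; ring
    have e3 : -(1 / (4 * (2 * τ - T))) * ‖z - y‖ ^ 2 = -(‖z - y‖ ^ 2 / (4 * (2 * τ - T))) := by
      ring
    rw [e3]
    linarith
  calc _ = (4 * Real.pi * τ) ^ (-((N : ℝ) / 2)) * (Real.exp (-(1 / (4 * τ)) * ‖z - x‖ ^ 2) *
        Real.exp (c * (ϑ * ‖z‖ ^ 2 / (4 * (2 * τ))))) := by ring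
    _ ≤ (2 ^ ((N : ℝ) / 2) * (4 * Real.pi * (2 * τ - T)) ^ (-((N : ℝ) / 2))) *
        (Real.exp (3 * B / 8 + T * σ ^ 2 / 8) * Real.exp (ϑ * ‖x‖ ^ 2 / (4 * τ)) *
        Real.exp (-(1 / (4 * (2 * τ - T))) * ‖z - y‖ ^ 2)) :=
        mul_le_mul hpow hexp (by positivity) (by positivity)
    _ = _ := by ring

/-- outer integral -/
theorem outer_integral {ϑ τ : ℝ} (hϑ0 : 0 ≤ ϑ) (hϑ1 : ϑ ≤ 1) (hτ : 0 < τ) (x : Sp N) :
    Integrable (fun z : Sp N => G N τ (z - x) * Real.exp (ϑ * ‖z‖ ^ 2 / (4 * (2 * τ)))) ∧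
    ∫ z : Sp N, G N τ (z - x) * Real.exp (ϑ * ‖z‖ ^ 2 / (4 * (2 * τ))) ≤
      2 ^ ((N : ℝ) / 2) * Real.exp (ϑ * ‖x‖ ^ 2 / (4 * τ)) := by
  obtain ⟨h1, h2⟩ := integral_G_weight (N := N) (β := ϑ / 2) hτ (by linarith) x
  have e : ∀ z : Sp N, ϑ / 2 * ‖z‖ ^ 2 / (4 * τ) = ϑ * ‖z‖ ^ 2 / (4 * (2 * τ)) := by
    intro z; field_simp
  simp only [e] at h1 h2
  refine ⟨h1, ?_⟩
  rw [h2]
  apply mul_le_mul _ _ (Real.exp_pos _).le (by positivity)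
  · rw [Real.rpow_neg (by linarith), ← Real.inv_rpow (by linarith)]
    apply Real.rpow_le_rpow (by rw [inv_nonneg]; linarith) _ (by positivity)
    rw [inv_le_comm₀ (by linarith) (by norm_num)]
    linarith
  · apply Real.exp_le_exp.2
    apply div_le_div_of_nonneg_right _ (by positivity)
    apply mul_le_mul_of_nonneg_right _ (by positivity)
    rw [div_le_iff₀ (by linarith)]
    nlinarith

/-- the convex transform of the solution -/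
noncomputable def Za (f : ℝ → ℝ) (a δ : ℝ) (v : ℝ → Sp N → ℝ) (t : ℝ) (x : Sp N) : ℝ :=
  Real.exp (-a * t) * Pa f a δ (v t x)

theorem Za_pos (hf : IsKPP f) {a δ : ℝ} (ha : 0 ≤ a) (hδ : δ ∈ Ioo (0 : ℝ) 1) (v : ℝ → Sp N → ℝ)
    (t : ℝ) (x : Sp N) : 0 < Za f a δ v t x :=
  mul_pos (Real.exp_pos _) (Pa_pos hf ha hδ _)

theorem Za_continuous (hf : IsKPP f) (hv : IsEntire N f v) (hpos : ∀ t x, 0 < v t x) (a : ℝ)
    {δ : ℝ} (hδ : δ ∈ Ioo (0 : ℝ) 1) (t : ℝ) : Continuous fun x => Za f a δ v t x :=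
  continuous_const.mul ((Pa_continuousOn hf hδ).comp_continuous (hv.cont_space t) fun x => hpos t x)

theorem Za_le_lin (hf : IsKPP f) (hv : IsEntire N f v) (hpos : ∀ t x, 0 < v t x) {a δ : ℝ}
    (ha : kap f ≤ a) (hδ : δ ∈ Ioo (0 : ℝ) 1) (t : ℝ) (x : Sp N) :
    Za f a δ v t x ≤ (1 + a / f δ) / δ * (Real.exp (-a * t) * v t x) := by
  have h := Pa_le hf ha hδ ⟨hpos t x, hv.le_one t x⟩
  have := mul_le_mul_of_nonneg_left h (Real.exp_pos (-a * t)).le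
  unfold Za
  linarith

theorem Za_le (hf : IsKPP f) (hv : IsEntire N f v) (hpos : ∀ t x, 0 < v t x) {a δ : ℝ}
    (ha : kap f ≤ a) (hδ : δ ∈ Ioo (0 : ℝ) 1) (t : ℝ) (x : Sp N) :
    Za f a δ v t x ≤ (1 + a / f δ) / δ * Real.exp (-a * t) := by
  refine (Za_le_lin hf hv hpos ha hδ t x).trans ?_
  have ha0 : 0 < a := lt_of_lt_of_le hf.kap_pos ha
  have hfδ := hf.pos δ hδ.1 hδ.2
  have h1 := hv.le_one t x
  have h2 : Real.exp (-a * t) * v t x ≤ Real.exp (-a * t) * 1 :=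
    mul_le_mul_of_nonneg_left h1 (Real.exp_pos _).le
  have h3 : 0 ≤ (1 + a / f δ) / δ := by have := hδ.1; positivity
  have := mul_le_mul_of_nonneg_left h2 h3
  linarith

theorem Za_abs_le (hf : IsKPP f) (hv : IsEntire N f v) (hpos : ∀ t x, 0 < v t x) {a δ : ℝ}
    (ha : kap f ≤ a) (hδ : δ ∈ Ioo (0 : ℝ) 1) (t : ℝ) (x : Sp N) :
    |Za f a δ v t x| ≤ (1 + a / f δ) / δ * Real.exp (-a * t) := by
  rw [abs_of_pos (Za_pos hf (hf.kap_pos.le.trans ha) hδ v t x)]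
  exact Za_le hf hv hpos ha hδ t x

/-- `Za` is subcaloric -/
theorem Za_heat (hf : IsKPP f) (hv : IsEntire N f v) (hpos : ∀ t x, 0 < v t x) {a δ δ₀ : ℝ}
    (ha : kap f ≤ a) (hδ : 0 < δ) (hδδ₀ : δ ≤ δ₀) (hδ₀ : δ₀ < 1)
    (hfa : ∀ r, 0 ≤ r → r ≤ δ₀ → derivWithin f (Icc 0 1) r ≤ a)
    (hlin : ∀ r, δ ≤ r → r ≤ 1 → f r ≤ f δ + a * (r - δ)) {s t : ℝ} (hst : s ≤ t) (x : Sp N) :
    Za f a δ v t x ≤ heat (t - s) (fun z => Za f a δ v s z) x := by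
  have ha0 : 0 < a := lt_of_lt_of_le hf.kap_pos ha
  have hδI : δ ∈ Ioo (0 : ℝ) 1 := ⟨hδ, lt_of_le_of_lt hδδ₀ hδ₀⟩
  have hfδ := hf.pos δ hδI.1 hδI.2
  have h := sub_compare hv (s := s) (T := t) (a := a) (C := (1 + a / f δ) / δ) (Ioc 0 1)
    (fun t _ x => ⟨hpos t x, hv.le_one t x⟩) (Pa f a δ)
    ((Pa_continuousOn hf hδI).mono Ioc_subset_Ioi_self)
    (fun r hr => by
      rw [abs_of_pos (Pa_pos hf ha0.le hδI r)]
      refine (Pa_le hf ha hδI hr).trans ?_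
      have h3 : 0 ≤ (1 + a / f δ) / δ := by positivity
      nlinarith [hr.2])
    (Pa_sub hf ha0 hδ hδδ₀ hδ₀ hfa hlin) t ⟨hst, le_rfl⟩ x
  have h1 := mul_le_mul_of_nonneg_left h (Real.exp_pos (-a * s)).le
  rw [← heat_const_mul, ← mul_assoc, ← Real.exp_add] at h1
  have e : -a * s + -a * (t - s) = -a * t := by ring
  rw [e] at h1
  exact h1

/-- the relation of the two transforms -/
theorem Za_eq {a b c δ : ℝ} (hb : b = (1 - c) * a) {t : ℝ} {x : Sp N}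
    (hδ : v t x ≤ δ) : Za f a δ v t x = (Za f a δ v t x) ^ c * Zb f b δ v t x := by
  unfold Za Zb
  rw [Pa_of_le hδ, min_eq_left hδ, ← Real.exp_add, ← Real.exp_add, ← Real.exp_mul, ← Real.exp_add]
  congr 1
  rw [hb]; ring

end Pool.Agent.KPP
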