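import Pool.Agent.Lib.MP_75f8eb_an.Boot

/-!
# The bootstrap: one step
-/

namespace Pool.Agent.KPP

open Set Filter Topology MeasureTheory

variable {N : ℕ} {f : ℝ → ℝ} {v : ℝ → Sp N → ℝ}

/-- continuous cutoff -/
noncomputable def cut (ρ : ℝ) (y z : Sp N) : ℝ := max 0 (min 1 (2 - ‖z - y‖ / ρ))

theorem cut_continuous (ρ : ℝ) (y : Sp N) : Continuous (cut ρ y) := by
  unfold cut; fun_prop

theorem cut_nonneg (ρ : ℝ) (y z : Sp N) : 0 ≤ cut ρ y z := le_max_left _ _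

theorem cut_le_one (ρ : ℝ) (y z : Sp N) : cut ρ y z ≤ 1 := max_le zero_le_one (min_le_left _ _)

theorem cut_eq_one {ρ : ℝ} (hρ : 0 < ρ) {y z : Sp N} (h : ‖z - y‖ ≤ ρ) : cut ρ y z = 1 := by
  unfold cut
  have h1 : ‖z - y‖ / ρ ≤ 1 := by rw [div_le_one hρ]; exact h
  rw [min_eq_left (by linarith), max_eq_right zero_le_one]

theorem cut_eq_zero {ρ : ℝ} (hρ : 0 < ρ) {y z : Sp N} (h : 2 * ρ < ‖z - y‖) : cut ρ y z = 0 := by
  unfold cut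
  have h1 : 2 < ‖z - y‖ / ρ := by rw [lt_div_iff₀ hρ]; exact h
  rw [min_eq_right (by linarith), max_eq_left (by linarith)]

/-- real-number form of the inner pointwise estimate -/
theorem inner_pt {g₁ g₂ za zb S X c C E : ℝ} (hg₁ : 0 ≤ g₁) (hza : 0 < za)
    (hzb : 0 < zb) (hS : 0 ≤ S) (hc : 0 ≤ c) (heq : za = za ^ c * zb) (hle : za ≤ S * Real.exp X)
    (hker : g₁ * Real.exp (c * X) ≤ C * E * g₂) :
    g₁ * za ≤ (S ^ c * C * E) * (g₂ * zb) := by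
  have h1 : za ^ c ≤ S ^ c * Real.exp (c * X) := by
    have h1 := Real.rpow_le_rpow hza.le hle hc
    rw [Real.mul_rpow hS (Real.exp_pos _).le, ← Real.exp_mul] at h1
    rwa [mul_comm X c] at h1
  have hSc : 0 ≤ S ^ c := Real.rpow_nonneg hS c
  have h2 : za ≤ (S ^ c * Real.exp (c * X)) * zb := by
    calc za = za ^ c * zb := heq
      _ ≤ _ := mul_le_mul_of_nonneg_right h1 hzb.le
  have h3 : g₁ * za ≤ g₁ * ((S ^ c * Real.exp (c * X)) * zb) := mul_le_mul_of_nonneg_left h2 hg₁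
  have h4 : (g₁ * Real.exp (c * X)) * (S ^ c * zb) ≤ (C * E * g₂) * (S ^ c * zb) :=
    mul_le_mul_of_nonneg_right hker (by positivity)
  calc g₁ * za ≤ _ := h3
    _ = (g₁ * Real.exp (c * X)) * (S ^ c * zb) := by ring
    _ ≤ _ := h4
    _ = _ := by ring

theorem near_y {q' τ Γ B : ℝ} (hq' : 0 < q') (hτ : 0 < τ) (hΓ1 : Γ ≤ 1)
    (hBτ : B ≤ 16 * q' ^ 2 * τ ^ 2) {x y z : Sp N} (hxy : ‖x - y‖ ^ 2 ≤ Γ * ‖x‖ ^ 2 + B)
    (hx : ‖x‖ < q' * τ) (hz : ‖z‖ < q' * (2 * τ)) : ‖z - y‖ ≤ 8 * q' * τ := by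
  have hxy2 : ‖x - y‖ ≤ 5 * q' * τ := by
    have h1 : ‖x - y‖ ^ 2 ≤ (5 * q' * τ) ^ 2 := by
      have h2 : Γ * ‖x‖ ^ 2 ≤ 1 * (q' * τ) ^ 2 :=
        mul_le_mul hΓ1 (pow_le_pow_left₀ (norm_nonneg _) hx.le 2) (by positivity) zero_le_one
      have h3 : (5 * q' * τ) ^ 2 = 25 * (q' * τ) ^ 2 := by ring
      have h4 : 16 * q' ^ 2 * τ ^ 2 = 16 * (q' * τ) ^ 2 := by ring
      have h5 := sq_nonneg (q' * τ)
      linarith
    exact le_of_sq_le_sq h1 (by positivity)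
  have h1 : z - y = z + (-x) + (x - y) := by abel
  have h2 : ‖z - y‖ ≤ ‖z‖ + ‖x‖ + ‖x - y‖ := by
    rw [h1]
    refine (norm_add_le _ _).trans ?_
    have := norm_add_le z (-x)
    rw [norm_neg] at this
    linarith
  linarith

theorem v_small {κ ε T τ δ q' w : ℝ} (hN : 0 < N) (hκ : 0 < κ) (hεκ : ε ≤ κ / (16 * N))
    (hT : 1 ≤ T) (hTτ : T ≤ τ) (hTδ : Real.exp (-(κ / 2) * T) < δ) (hq' : q' = √κ / (32 * N))
    {y z : Sp N} (hfar : w ≤ Real.exp (-κ * (2 * τ) + ‖z - y‖ ^ 2 / (4 * (2 * τ)) + ε * (2 * τ)))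
    (hzy : ‖z - y‖ ≤ 8 * q' * τ) : w ≤ δ := by
  have hN' : (0 : ℝ) < N := by exact_mod_cast hN
  have hN1 : (1 : ℝ) ≤ N := by exact_mod_cast hN
  have hτ0 : 0 < τ := by linarith
  refine (hfar.trans (Real.exp_le_exp.2 ?_)).trans hTδ.le
  have hσ2 : (8 * q') ^ 2 ≤ κ / 16 := by
    have h2 : (8 * q') ^ 2 = κ / (16 * N ^ 2) := by
      rw [hq', mul_pow, div_pow, mul_pow, Real.sq_sqrt hκ.le]
      field_simp; norm_num
    rw [h2]
    apply div_le_div_of_nonneg_left hκ.le (by norm_num)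
    nlinarith
  have h2 : ‖z - y‖ ^ 2 / (4 * (2 * τ)) ≤ κ / 16 * τ := by
    have h3 : ‖z - y‖ ^ 2 ≤ (8 * q') ^ 2 * τ ^ 2 := by
      rw [← mul_pow]; exact pow_le_pow_left₀ (norm_nonneg _) hzy 2
    rw [div_le_iff₀ (by positivity)]
    have h4 : (8 * q') ^ 2 * τ ^ 2 ≤ κ / 16 * τ ^ 2 :=
      mul_le_mul_of_nonneg_right hσ2 (by positivity)
    have h5 : 0 ≤ κ / 16 * τ ^ 2 := by positivity
    have h6 : κ / 16 * τ * (4 * (2 * τ)) = 8 * (κ / 16 * τ ^ 2) := by ring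
    linarith
  have h6 : ε * (2 * τ) ≤ κ / 16 * (2 * τ) := by
    apply mul_le_mul_of_nonneg_right _ (by linarith)
    refine hεκ.trans ?_
    apply div_le_div_of_nonneg_left hκ.le (by norm_num)
    linarith
  have h7 : κ * T ≤ κ * τ := mul_le_mul_of_nonneg_left hTτ hκ.le
  have h8 : 0 < κ * τ := by positivity
  linarith

/-- **One step of the bootstrap.** -/
theorem one_step (hf : IsKPP f) (hv : IsEntire N f v) (hpos : ∀ t x, 0 < v t x) (hN : 0 < N)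
    {a b c δ δ₀ ϑ Γ B ε T l C₆ q' τ S : ℝ} (hc0 : 0 < c) (hc1 : c ≤ 1 / 4) (hb : b = (1 - c) * a)
    (hb0 : 0 < b) (hbκ : b ≤ kap f) (haκ : kap f ≤ a) (hδ : 0 < δ) (hδδ₀ : δ ≤ δ₀) (hδ₀ : δ₀ < 1)
    (hfb : ∀ r, 0 ≤ r → r ≤ δ₀ → b ≤ derivWithin f (Icc 0 1) r)
    (hfa : ∀ r, 0 ≤ r → r ≤ δ₀ → derivWithin f (Icc 0 1) r ≤ a)
    (hlin : ∀ r, δ ≤ r → r ≤ 1 → f r ≤ f δ + a * (r - δ))
    (hε : 0 < ε) (hεκ : ε ≤ kap f / (16 * N)) (hΓ0 : 0 ≤ Γ) (hΓ1 : Γ ≤ 1) (hB : 0 ≤ B)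
    (hϑ1 : ϑ ≤ 1) (hcϑ : 3 * c + Γ ≤ ϑ)
    (hW : ∀ x, ∃ y, v 0 y ≤ l ∧ ‖x - y‖ ^ 2 ≤ Γ * ‖x‖ ^ 2 + B)
    (hfar : ∀ y, v 0 y ≤ l → ∀ τ, T ≤ τ → ∀ x,
      v (-τ) x ≤ Real.exp (-kap f * τ + ‖x - y‖ ^ 2 / (4 * τ) + ε * τ))
    (hT : 1 ≤ T) (hTδ : Real.exp (-(kap f / 2) * T) < δ)
    (hTN : 2 * N * 2 ^ ((N : ℝ) / 2) * Real.exp (-(kap f / (4 * N)) * T) ≤ 1 / 4)
    (hq' : q' = √(kap f) / (32 * N))
    (hout : ∀ τ, T ≤ τ → ∀ x, q' * τ ≤ ‖x‖ → Za f a δ v (-τ) x ≤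
      C₆ * Real.exp (ϑ * ‖x‖ ^ 2 / (4 * τ))) (hC₆ : 0 ≤ C₆)
    (hTτ : T ≤ τ) (hBτ : B ≤ 16 * q' ^ 2 * τ ^ 2) (hS : 1 ≤ S)
    (hyp : ∀ z, Za f a δ v (-(2 * τ)) z ≤ S * Real.exp (ϑ * ‖z‖ ^ 2 / (4 * (2 * τ)))) (x : Sp N) :
    Za f a δ v (-τ) x ≤ ((2 ^ ((N : ℝ) / 2) * Real.exp (3 * B / 8 + T * (8 * q') ^ 2 / 8)) *
      (4 * δ⁻¹ * Real.exp (ε * T)) + C₆ * 2 ^ ((N : ℝ) / 2)) * S ^ c *
      Real.exp (ϑ * ‖x‖ ^ 2 / (4 * τ)) := by
  set κ := kap f with hκdef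
  have hκ : 0 < κ := hf.kap_pos
  have ha0 : 0 < a := lt_of_lt_of_le hκ haκ
  have hN' : (0 : ℝ) < N := by exact_mod_cast hN
  have hN1 : (1 : ℝ) ≤ N := by exact_mod_cast hN
  have hδI : δ ∈ Ioo (0 : ℝ) 1 := ⟨hδ, lt_of_le_of_lt hδδ₀ hδ₀⟩
  have hq'0 : 0 < q' := by
    rw [hq']; have := Real.sqrt_pos.2 hκ; positivity
  have hτ0 : 0 < τ := by linarith
  have hϑ0 : 0 ≤ ϑ := by linarith
  set σ : ℝ := 8 * q' with hσ
  have hσeq : √κ / (4 * N) = σ := by rw [hσ, hq']; field_simp; norm_num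
  set C₇ : ℝ := 2 ^ ((N : ℝ) / 2) * Real.exp (3 * B / 8 + T * σ ^ 2 / 8) with hC₇
  set C₂ : ℝ := 4 * δ⁻¹ * Real.exp (ε * T) with hC₂
  have hC₇0 : 0 < C₇ := by positivity
  have hC₂0 : 0 < C₂ := by have := inv_pos.2 hδ; positivity
  have h2pow : (1 : ℝ) ≤ 2 ^ ((N : ℝ) / 2) := Real.one_le_rpow one_le_two (by positivity)
  have hSc : 1 ≤ S ^ c := Real.one_le_rpow hS hc0.le
  have hE0 : 0 < Real.exp (ϑ * ‖x‖ ^ 2 / (4 * τ)) := Real.exp_pos _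
  rcases le_or_gt (q' * τ) ‖x‖ with hx | hx
  · -- outside
    refine (hout τ hTτ x hx).trans ?_
    have h1 : C₆ ≤ (C₇ * C₂ + C₆ * 2 ^ ((N : ℝ) / 2)) * S ^ c := by
      have h2 : C₆ ≤ C₇ * C₂ + C₆ * 2 ^ ((N : ℝ) / 2) := by
        have h2a : 0 < C₇ * C₂ := by positivity
        have h2b : C₆ * 1 ≤ C₆ * 2 ^ ((N : ℝ) / 2) := mul_le_mul_of_nonneg_left h2pow hC₆
        linarith
      have h3 : 0 ≤ C₇ * C₂ + C₆ * 2 ^ ((N : ℝ) / 2) := by positivity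
      calc C₆ ≤ (C₇ * C₂ + C₆ * 2 ^ ((N : ℝ) / 2)) * 1 := by linarith
        _ ≤ _ := mul_le_mul_of_nonneg_left hSc h3
    exact mul_le_mul_of_nonneg_right h1 hE0.le
  · obtain ⟨y, hy, hxy⟩ := hW x
    -- the three pieces
    have hmass := cone_mass hf hv hpos hN (b := b) (δ := δ) (ε := ε) (T := T) (τ₀ := 2 * τ)
      hb0 hbκ hδI (fun r h1 h2 => hfb r h1 (h2.trans hδδ₀)) hε hεκ (y := y) (hfar y hy)
      (by linarith) hTδ hTN (by linarith) (cut_continuous (σ * τ) y) (cut_nonneg _ _)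
      (cut_le_one _ _) (fun z hz => by
        rw [← hκdef, hσeq] at hz
        exact cut_eq_zero (by positivity) (by linarith))
    have hheat := Za_heat hf hv hpos haκ hδ hδδ₀ hδ₀ hfa hlin (by linarith : -(2 * τ) ≤ -τ) x
    have e1 : -τ - -(2 * τ) = τ := by ring
    rw [e1] at hheat
    refine hheat.trans ?_
    have h2τT : 0 < 2 * τ - T := by linarith
    set g : Sp N → ℝ := fun z => cut (σ * τ) y z * Zb f b δ v (-(2 * τ)) z with hg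
    have hgc : Continuous g := (cut_continuous _ y).mul
      ((Zb_continuous hf hv hpos b hδI).comp
        (by fun_prop : Continuous fun z : Sp N => ((-(2 * τ) : ℝ), z)))
    have hg0 : ∀ z, 0 ≤ g z := fun z => mul_nonneg (cut_nonneg _ _ _) (Zb_pos _ _ _ _ _).le
    have hgC : ∀ z, |g z| ≤ Real.exp (-b * -(2 * τ)) := fun z => by
      rw [abs_of_nonneg (hg0 z)]
      have h1 := Zb_le_exp hf hpos hb0.le hδI (-(2 * τ)) z
      have h2 := cut_le_one (σ * τ) y z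
      have h3 := Zb_pos (f := f) b δ v (-(2 * τ)) z
      have h4 := mul_le_mul_of_nonneg_right h2 h3.le
      simp only [hg]
      linarith
    rw [heat_eq h2τT] at hmass
    obtain ⟨hoi, hoint⟩ := outer_integral (N := N) hϑ0 hϑ1 hτ0 x
    rw [heat_eq hτ0]
    set E : ℝ := Real.exp (ϑ * ‖x‖ ^ 2 / (4 * τ)) with hE
    have hpt : ∀ z, G N τ (z - x) * Za f a δ v (-(2 * τ)) z ≤
        (S ^ c * C₇ * E) * (G N (2 * τ - T) (z - y) * g z) +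
        C₆ * (G N τ (z - x) * Real.exp (ϑ * ‖z‖ ^ 2 / (4 * (2 * τ)))) := by
      intro z
      have hG1 := G_nonneg hτ0 (z - x)
      have hG2 := G_nonneg h2τT (z - y)
      have hgz := hg0 z
      rcases le_or_gt (q' * (2 * τ)) ‖z‖ with hz | hz
      · have h1 := hout (2 * τ) (by linarith) z hz
        have h2 := mul_le_mul_of_nonneg_left h1 hG1
        have h3 : 0 ≤ (S ^ c * C₇ * E) * (G N (2 * τ - T) (z - y) * g z) := by positivity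
        linarith
      · -- inner region
        have hzy : ‖z - y‖ ≤ σ * τ := near_y hq'0 hτ0 hΓ1 hBτ hxy hx hz
        have hcut : cut (σ * τ) y z = 1 := cut_eq_one (by positivity) hzy
        have hvδ : v (-(2 * τ)) z ≤ δ :=
          v_small hN hκ hεκ hT hTτ hTδ hq' (hfar y hy (2 * τ) (by linarith) z) hzy
        have hker := inner_kernel (N := N) (σ := σ) hc0.le hc1 hϑ1 hcϑ hΓ1 hB (by linarith) hTτ
          (by linarith) hxy hzy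
        have hgz' : g z = Zb f b δ v (-(2 * τ)) z := by simp only [hg]; rw [hcut, one_mul]
        have h3 : 0 ≤ C₆ * (G N τ (z - x) * Real.exp (ϑ * ‖z‖ ^ 2 / (4 * (2 * τ)))) := by
          positivity
        have h4 := inner_pt (c := c) hG1 (Za_pos hf ha0.le hδI v (-(2 * τ)) z)
          (Zb_pos (f := f) b δ v (-(2 * τ)) z) (by linarith) hc0.le (Za_eq hb hvδ) (hyp z) hker
        rw [hgz']
        linarith
    have hi1 := integrable_G_mul (Za_continuous hf hv hpos a hδI (-(2 * τ)))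
      (Za_abs_le hf hv hpos haκ hδI (-(2 * τ))) hτ0 x
    have hi2 : Integrable fun z => (S ^ c * C₇ * E) * (G N (2 * τ - T) (z - y) * g z) :=
      (integrable_G_mul hgc hgC h2τT y).const_mul _
    have hi3 : Integrable fun z => C₆ * (G N τ (z - x) *
        Real.exp (ϑ * ‖z‖ ^ 2 / (4 * (2 * τ)))) := hoi.const_mul _
    have hint := integral_mono hi1 (hi2.add hi3) hpt
    have hadd : ∫ z, ((S ^ c * C₇ * E) * (G N (2 * τ - T) (z - y) * g z) +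
        C₆ * (G N τ (z - x) * Real.exp (ϑ * ‖z‖ ^ 2 / (4 * (2 * τ))))) =
        (S ^ c * C₇ * E) * (∫ z, G N (2 * τ - T) (z - y) * g z) +
        C₆ * ∫ z : Sp N, G N τ (z - x) * Real.exp (ϑ * ‖z‖ ^ 2 / (4 * (2 * τ))) := by
      rw [integral_add hi2 hi3, integral_const_mul, integral_const_mul]
    have h4 : (S ^ c * C₇ * E) * (∫ z, G N (2 * τ - T) (z - y) * g z) ≤
        (S ^ c * C₇ * E) * C₂ := mul_le_mul_of_nonneg_left hmass (by positivity)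
    have h5 : C₆ * ∫ z : Sp N, G N τ (z - x) * Real.exp (ϑ * ‖z‖ ^ 2 / (4 * (2 * τ))) ≤
        C₆ * (2 ^ ((N : ℝ) / 2) * E) := mul_le_mul_of_nonneg_left hoint hC₆
    have h6 : C₆ * (2 ^ ((N : ℝ) / 2) * E) ≤ C₆ * 2 ^ ((N : ℝ) / 2) * S ^ c * E := by
      have h7 : 0 ≤ C₆ * 2 ^ ((N : ℝ) / 2) * E := by positivity
      calc C₆ * (2 ^ ((N : ℝ) / 2) * E) = C₆ * 2 ^ ((N : ℝ) / 2) * E * 1 := by ring
        _ ≤ C₆ * 2 ^ ((N : ℝ) / 2) * E * S ^ c := mul_le_mul_of_nonneg_left hSc h7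
        _ = _ := by ring
    calc ∫ z, G N τ (z - x) * Za f a δ v (-(2 * τ)) z ≤ _ := hint
      _ = _ := hadd
      _ ≤ (S ^ c * C₇ * E) * C₂ + C₆ * 2 ^ ((N : ℝ) / 2) * S ^ c * E := by linarith
      _ = _ := by ring

end Pool.Agent.KPP
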