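import Pool.Agent.Lib.MP_75f8eb_an.Boot2

/-!
# The bootstrap: iteration and conclusion
-/

namespace Pool.Agent.KPP

open Set Filter Topology MeasureTheory

variable {N : ℕ} {f : ℝ → ℝ} {v : ℝ → Sp N → ℝ}

/-- abstract iteration -/
theorem iterate_bound {F : ℝ → Sp N → ℝ} {a c ϑ T₄ C₃ Ca : ℝ} (hc0 : 0 < c) (hc1 : c ≤ 1 / 4)
    (hC₃ : 1 ≤ C₃) (hCa : 1 ≤ Ca) (hT₄ : 0 < T₄) (ha : 0 < a) (hϑ : 0 ≤ ϑ)
    (h0 : ∀ τ, T₄ ≤ τ → ∀ x, F τ x ≤ Ca * Real.exp (a * τ))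
    (hstep : ∀ τ, T₄ ≤ τ → ∀ S, 1 ≤ S →
      (∀ z, F (2 * τ) z ≤ S * Real.exp (ϑ * ‖z‖ ^ 2 / (4 * (2 * τ)))) →
      ∀ x, F τ x ≤ C₃ * S ^ c * Real.exp (ϑ * ‖x‖ ^ 2 / (4 * τ))) :
    ∀ τ, T₄ ≤ τ → ∀ x, F τ x ≤ C₃ ^ 2 * Real.exp (ϑ * ‖x‖ ^ 2 / (4 * τ)) := by
  have hind : ∀ k : ℕ, ∀ τ, T₄ ≤ τ → ∀ x, F τ x ≤
      (C₃ ^ 2 * (Ca * Real.exp (a * 2 ^ k * τ)) ^ (c ^ k : ℝ)) *
        Real.exp (ϑ * ‖x‖ ^ 2 / (4 * τ)) := by
    intro k
    induction k with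
    | zero =>
      intro τ hτ x
      have hτ0 : 0 < τ := by linarith
      have h1 := h0 τ hτ x
      simp only [pow_zero, Real.rpow_one, mul_one]
      have h2 : 1 ≤ Real.exp (ϑ * ‖x‖ ^ 2 / (4 * τ)) := Real.one_le_exp (by positivity)
      have h3 : 0 < Ca * Real.exp (a * τ) := by positivity
      have h4 : 1 ≤ C₃ ^ 2 := one_le_pow₀ hC₃
      calc F τ x ≤ Ca * Real.exp (a * τ) := h1
        _ = 1 * (Ca * Real.exp (a * τ)) * 1 := by ring
        _ ≤ C₃ ^ 2 * (Ca * Real.exp (a * τ)) * Real.exp (ϑ * ‖x‖ ^ 2 / (4 * τ)) := by gcongr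
    | succ k ih =>
      intro τ hτ x
      have hτ0 : 0 < τ := by linarith
      set W : ℝ := Ca * Real.exp (a * 2 ^ k * (2 * τ)) with hW
      have hW1 : 1 ≤ W := by
        have : 1 ≤ Real.exp (a * 2 ^ k * (2 * τ)) := Real.one_le_exp (by positivity)
        rw [hW]; nlinarith
      have hWc : 1 ≤ W ^ (c ^ k : ℝ) := Real.one_le_rpow hW1 (by positivity)
      have hC1 : 1 ≤ C₃ ^ 2 := one_le_pow₀ hC₃
      have h1 := hstep τ hτ (C₃ ^ 2 * W ^ (c ^ k : ℝ)) (by nlinarith)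
        (ih (2 * τ) (by linarith)) x
      have h2 : (C₃ ^ 2 * W ^ (c ^ k : ℝ)) ^ c = (C₃ ^ 2) ^ c * W ^ (c ^ (k + 1) : ℝ) := by
        rw [Real.mul_rpow (by positivity) (by positivity), ← Real.rpow_mul (by linarith), pow_succ c k]
      have h3 : ((C₃ ^ 2 : ℝ)) ^ c ≤ C₃ := by
        have h4 : ((C₃ ^ 2 : ℝ)) ^ c ≤ (C₃ ^ 2) ^ (1 / 2 : ℝ) :=
          Real.rpow_le_rpow_of_exponent_le hC1 (by linarith)
        have h5 : (C₃ ^ 2) ^ (1 / 2 : ℝ) = C₃ := by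
          rw [← Real.sqrt_eq_rpow, Real.sqrt_sq (by linarith)]
        rwa [h5] at h4
      have h6 : W = Ca * Real.exp (a * 2 ^ (k + 1) * τ) := by
        rw [hW]; congr 2; ring
      have h7 : 0 < W ^ (c ^ (k + 1) : ℝ) := by positivity
      refine h1.trans ?_
      apply mul_le_mul_of_nonneg_right _ (Real.exp_pos _).le
      rw [h2, ← h6]
      calc C₃ * ((C₃ ^ 2) ^ c * W ^ (c ^ (k + 1) : ℝ)) ≤ C₃ * (C₃ * W ^ (c ^ (k + 1) : ℝ)) := by
            gcongr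
        _ = C₃ ^ 2 * W ^ (c ^ (k + 1) : ℝ) := by ring
  intro τ hτ x
  have hτ0 : 0 < τ := by linarith
  have hlim : Tendsto (fun k : ℕ => (C₃ ^ 2 * (Ca * Real.exp (a * 2 ^ k * τ)) ^ (c ^ k : ℝ)) *
      Real.exp (ϑ * ‖x‖ ^ 2 / (4 * τ))) atTop
      (𝓝 ((C₃ ^ 2 * Real.exp (0 * Real.log Ca + 0 * (a * τ))) *
        Real.exp (ϑ * ‖x‖ ^ 2 / (4 * τ)))) := by
    have h1 : ∀ k : ℕ, (Ca * Real.exp (a * 2 ^ k * τ)) ^ (c ^ k : ℝ) =
        Real.exp (c ^ k * Real.log Ca + (2 * c) ^ k * (a * τ)) := by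
      intro k
      rw [Real.rpow_def_of_pos (by positivity), Real.log_mul (by positivity) (Real.exp_pos _).ne',
        Real.log_exp]
      congr 1
      rw [mul_pow]; ring
    simp only [h1]
    have h2 : Tendsto (fun k : ℕ => c ^ k) atTop (𝓝 0) :=
      tendsto_pow_atTop_nhds_zero_of_lt_one hc0.le (by linarith)
    have h3 : Tendsto (fun k : ℕ => (2 * c) ^ k) atTop (𝓝 0) :=
      tendsto_pow_atTop_nhds_zero_of_lt_one (by linarith) (by linarith)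
    have h4 : Tendsto (fun k : ℕ => c ^ k * Real.log Ca + (2 * c) ^ k * (a * τ)) atTop
        (𝓝 (0 * Real.log Ca + 0 * (a * τ))) := (h2.mul_const _).add (h3.mul_const _)
    exact (((Real.continuous_exp.tendsto _).comp h4).const_mul _).mul_const _
  have h5 := ge_of_tendsto' hlim fun k => hind k τ hτ x
  simpa using h5

/-- **Outcome of the bootstrap.** -/
theorem boot_bound (hf : IsKPP f) (hv : IsEntire N f v) (hpos : ∀ t x, 0 < v t x) (hN : 0 < N)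
    {l Γ B : ℝ} (hl : l < 1) (hΓ0 : 0 ≤ Γ) (hΓ1 : Γ < 1) (hB : 0 ≤ B)
    (hW : ∀ x, ∃ y, v 0 y ≤ l ∧ ‖x - y‖ ^ 2 ≤ Γ * ‖x‖ ^ 2 + B) :
    ∃ δ ∈ Ioo (0 : ℝ) 1, ∃ M T : ℝ, 0 < T ∧ ∀ τ, T ≤ τ → ∀ x,
      v (-τ) x < δ ∧ Hf f δ (v (-τ) x) + τ ≤ M := by
  set κ := kap f with hκdef
  have hκ : 0 < κ := hf.kap_pos
  have hN' : (0 : ℝ) < N := by exact_mod_cast hN
  have hN1 : (1 : ℝ) ≤ N := by exact_mod_cast hN
  have hN2 : (1 : ℝ) ≤ N ^ 2 := one_le_pow₀ hN1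
  set q' : ℝ := √κ / (32 * N) with hq'
  have hq'0 : 0 < q' := by have := Real.sqrt_pos.2 hκ; positivity
  have hq'2 : q' ^ 2 = κ / (1024 * N ^ 2) := by
    rw [hq', div_pow, mul_pow, Real.sq_sqrt hκ.le]; norm_num
  have h1Γ : 0 < 1 - Γ := by linarith
  set ε : ℝ := (1 - Γ) * q' ^ 2 / 16 with hε
  have hε0 : 0 < ε := by positivity
  have hεκ : ε ≤ κ / (16 * N) := by
    have h1 : ε ≤ q' ^ 2 / 16 := by
      rw [hε]
      apply div_le_div_of_nonneg_right _ (by norm_num)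
      have : 0 < q' ^ 2 := by positivity
      nlinarith
    refine h1.trans ?_
    rw [hq'2, div_div]
    apply div_le_div_of_nonneg_left hκ.le (by positivity)
    nlinarith
  set c : ℝ := (1 - Γ) / (8192 * N ^ 2) with hc
  have hc0 : 0 < c := by positivity
  have hcΓ : c ≤ (1 - Γ) / 8192 := by
    rw [hc]
    apply div_le_div_of_nonneg_left h1Γ.le (by norm_num)
    linarith
  have hc1 : c ≤ 1 / 4 := by linarith
  set a : ℝ := κ * (1 + c / 2) with ha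
  set b : ℝ := (1 - c) * a with hb
  have haκ : κ < a := by
    have : 0 < κ * (c / 2) := by positivity
    rw [ha]; linarith
  have ha0 : 0 < a := hκ.trans haκ
  have hb0 : 0 < b := mul_pos (by linarith) ha0
  have hbκ : b < κ := by
    have h1 : b = κ - κ * (c / 2 + c ^ 2 / 2) := by rw [hb, ha]; ring
    have : 0 < κ * (c / 2 + c ^ 2 / 2) := by positivity
    linarith
  obtain ⟨δ₀, hδ₀0, hδ₀1, hder, hlip⟩ := hf.near_zero hbκ haκ
  set δ : ℝ := δ₀ / 3 with hδ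
  have hδ0 : 0 < δ := by positivity
  have hδδ₀ : δ ≤ δ₀ := by rw [hδ]; linarith
  have hδI : δ ∈ Ioo (0 : ℝ) 1 := ⟨hδ0, by linarith⟩
  have hlin : ∀ r, δ ≤ r → r ≤ 1 → f r ≤ f δ + a * (r - δ) := by
    intro r h1 h2
    rcases le_or_gt r δ₀ with h3 | h3
    · have := (hlip r δ hδ0.le h1 h3).2
      linarith
    · have h4 : f r ≤ κ * r := hf.le_kap ⟨by linarith, h2⟩
      have h5 := (hlip δ 0 le_rfl hδ0.le hδδ₀).1
      rw [hf.zero] at h5
      have h6 : κ * (c / 2) * (3 * δ) ≤ κ * (c / 2) * r := by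
        apply mul_le_mul_of_nonneg_left _ (by positivity)
        rw [hδ]; linarith
      have h7 : c * a * δ ≤ κ * (c / 2) * (3 * δ) := by
        have h8 : c * a * δ = κ * (c / 2) * δ * (2 + c) := by rw [ha]; ring
        have h9 : κ * (c / 2) * (3 * δ) = κ * (c / 2) * δ * 3 := by ring
        rw [h8, h9]
        apply mul_le_mul_of_nonneg_left _ (by positivity)
        linarith
      have h10 : a * r = κ * r + κ * (c / 2) * r := by rw [ha]; ring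
      have h11 : b * δ = a * δ - c * a * δ := by rw [hb]; ring
      linarith
  set ϑ : ℝ := (1 + Γ) / 2 with hϑ
  have hϑ0 : 0 ≤ ϑ := by positivity
  have hϑ1 : ϑ < 1 := by rw [hϑ]; linarith
  have hcϑ : 3 * c + Γ ≤ ϑ := by rw [hϑ]; linarith
  obtain ⟨S, hS0, hfar0⟩ := far_bound (N := N) hf hl hε0
  -- choice of T
  have hT1 : ∀ᶠ T : ℝ in atTop, Real.exp (-(κ / 2) * T) < δ := by
    have h1 : Tendsto (fun T : ℝ => Real.exp (-(κ / 2) * T)) atTop (𝓝 0) := by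
      refine Real.tendsto_exp_atBot.comp ?_
      exact tendsto_id.const_mul_atTop_of_neg (by linarith)
    exact h1.eventually (gt_mem_nhds hδ0)
  have hT2 : ∀ᶠ T : ℝ in atTop,
      2 * N * 2 ^ ((N : ℝ) / 2) * Real.exp (-(κ / (4 * N)) * T) < 1 / 4 := by
    have h1 : Tendsto (fun T : ℝ => 2 * N * 2 ^ ((N : ℝ) / 2) * Real.exp (-(κ / (4 * N)) * T))
        atTop (𝓝 (2 * N * 2 ^ ((N : ℝ) / 2) * 0)) := by
      refine Tendsto.const_mul _ (Real.tendsto_exp_atBot.comp ?_)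
      have : 0 < κ / (4 * N) := by positivity
      exact tendsto_id.const_mul_atTop_of_neg (by linarith)
    rw [mul_zero] at h1
    exact h1.eventually (gt_mem_nhds (by norm_num))
  obtain ⟨T, hTδ, hTN, hTS, hT1'⟩ := (hT1.and (hT2.and ((eventually_ge_atTop S).and
    (eventually_ge_atTop (1 : ℝ))))).exists
  have hfar : ∀ y, v 0 y ≤ l → ∀ τ, T ≤ τ → ∀ x,
      v (-τ) x ≤ Real.exp (-kap f * τ + ‖x - y‖ ^ 2 / (4 * τ) + ε * τ) := fun y hy τ hτ x =>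
    hfar0 v hv y hy τ (hTS.trans hτ) x
  have hfδ := hf.pos δ hδI.1 hδI.2
  set Ca : ℝ := (1 + a / f δ) / δ with hCa
  have hCa1 : 1 ≤ Ca := by
    rw [hCa, one_le_div hδ0]
    have : 0 < a / f δ := by positivity
    linarith [hδI.2]
  set C₆ : ℝ := Ca * Real.exp (B / 4) with hC₆
  have hC₆1 : 1 ≤ C₆ := by
    have : 1 ≤ Real.exp (B / 4) := Real.one_le_exp (by positivity)
    rw [hC₆]; nlinarith
  have hout : ∀ τ, T ≤ τ → ∀ x, q' * τ ≤ ‖x‖ → Za f a δ v (-τ) x ≤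
      C₆ * Real.exp (ϑ * ‖x‖ ^ 2 / (4 * τ)) := by
    intro τ hτ x hx
    have hτ1 : 1 ≤ τ := by linarith
    have hτ0 : 0 < τ := by linarith
    obtain ⟨y, hy, hxy⟩ := hW x
    have h1 := hfar y hy τ hτ x
    have h2 := Za_le_lin hf hv hpos haκ.le hδI (-τ) x
    refine h2.trans ?_
    rw [hC₆, mul_assoc]
    apply mul_le_mul_of_nonneg_left _ (by linarith)
    have h3 : Real.exp (-a * -τ) * v (-τ) x ≤ Real.exp (-a * -τ) *
        Real.exp (-kap f * τ + ‖x - y‖ ^ 2 / (4 * τ) + ε * τ) :=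
      mul_le_mul_of_nonneg_left h1 (Real.exp_pos _).le
    refine h3.trans ?_
    rw [← Real.exp_add, ← Real.exp_add]
    apply Real.exp_le_exp.2
    rw [← hκdef]
    have h4 : ‖x - y‖ ^ 2 / (4 * τ) ≤ Γ * ‖x‖ ^ 2 / (4 * τ) + B / 4 := by
      have h5 : ‖x - y‖ ^ 2 / (4 * τ) ≤ (Γ * ‖x‖ ^ 2 + B) / (4 * τ) := by gcongr
      have h6 : (Γ * ‖x‖ ^ 2 + B) / (4 * τ) = Γ * ‖x‖ ^ 2 / (4 * τ) + B / (4 * τ) := by
        rw [add_div]
      have h7 : B / (4 * τ) ≤ B / 4 := by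
        apply div_le_div_of_nonneg_left hB (by norm_num); linarith
      linarith
    have h8 : (a - κ + ε) * τ ≤ (ϑ - Γ) * ‖x‖ ^ 2 / (4 * τ) := by
      rw [le_div_iff₀ (by positivity)]
      have h9 : a - κ + ε = (ϑ - Γ) * q' ^ 2 / 4 := by
        have h10 : a - κ = (1 - Γ) * q' ^ 2 / 16 := by
          rw [ha, hc, hq'2]; field_simp; ring
        rw [h10, hε, hϑ]; ring
      have h11 : (q' * τ) ^ 2 ≤ ‖x‖ ^ 2 := pow_le_pow_left₀ (by positivity) hx 2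
      have h12 : 0 < ϑ - Γ := by rw [hϑ]; linarith
      rw [h9]
      have h13 := mul_le_mul_of_nonneg_left h11 h12.le
      have h14 : (ϑ - Γ) * q' ^ 2 / 4 * τ * (4 * τ) = (ϑ - Γ) * (q' * τ) ^ 2 := by ring
      linarith
    have h15 : (ϑ - Γ) * ‖x‖ ^ 2 / (4 * τ) + Γ * ‖x‖ ^ 2 / (4 * τ) = ϑ * ‖x‖ ^ 2 / (4 * τ) := by
      rw [← add_div]; congr 1; ring
    linarith
  set C₃ : ℝ := (2 ^ ((N : ℝ) / 2) * Real.exp (3 * B / 8 + T * (8 * q') ^ 2 / 8)) *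
      (4 * δ⁻¹ * Real.exp (ε * T)) + C₆ * 2 ^ ((N : ℝ) / 2) with hC₃
  have hC₃1 : 1 ≤ C₃ := by
    have h2pow : (1 : ℝ) ≤ 2 ^ ((N : ℝ) / 2) := Real.one_le_rpow one_le_two (by positivity)
    have h3 : 0 < (2 ^ ((N : ℝ) / 2) * Real.exp (3 * B / 8 + T * (8 * q') ^ 2 / 8)) *
      (4 * δ⁻¹ * Real.exp (ε * T)) := by have := inv_pos.2 hδ0; positivity
    have h4 : 1 * 1 ≤ C₆ * 2 ^ ((N : ℝ) / 2) := mul_le_mul hC₆1 h2pow zero_le_one (by linarith)
    linarith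
  set T₄ : ℝ := T + (B / (16 * q' ^ 2) + 1) with hT₄
  have hT₄0 : 0 < T₄ := by positivity
  have hT₄T : T ≤ T₄ := by
    have : 0 ≤ B / (16 * q' ^ 2) := by positivity
    linarith
  have hiter := iterate_bound (N := N) (F := fun τ x => Za f a δ v (-τ) x) (a := a) (c := c)
    (ϑ := ϑ) (T₄ := T₄) (C₃ := C₃) (Ca := Ca) hc0 hc1 hC₃1 hCa1 hT₄0 ha0 hϑ0
    (fun τ _ x => by
      have h1 := Za_le hf hv hpos haκ.le hδI (-τ) x
      have e : -a * -τ = a * τ := by ring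
      rw [e] at h1
      exact h1)
    (fun τ hτ S hS hyp x => one_step hf hv hpos hN hc0 hc1 hb hb0 hbκ.le haκ.le hδ0 hδδ₀ hδ₀1
      (fun r h1 h2 => (hder r h1 h2).1) (fun r h1 h2 => (hder r h1 h2).2) hlin hε0 hεκ hΓ0 hΓ1.le
      hB hϑ1.le hcϑ hW hfar hT1' hTδ hTN.le hq' hout (by linarith) (by linarith)
      (by
        have h1 : B / (16 * q' ^ 2) ≤ τ := by linarith
        have h2 : 1 ≤ τ := by linarith
        rw [div_le_iff₀ (by positivity)] at h1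
        have h3 : τ ≤ τ ^ 2 := by nlinarith
        have h4 : τ * (16 * q' ^ 2) ≤ τ ^ 2 * (16 * q' ^ 2) :=
          mul_le_mul_of_nonneg_right h3 (by positivity)
        linarith) hS hyp x)
  -- uniform bound
  set C₅ : ℝ := C₃ ^ 2 * (1 - ϑ) ^ (-((N : ℝ) / 2)) with hC₅
  have h1ϑ : 0 < 1 - ϑ := by linarith
  have hunif : ∀ τ, T₄ ≤ τ → ∀ y, Za f a δ v (-τ) y ≤ C₅ := by
    intro τ hτ y
    have hbd : ∀ᶠ s : ℝ in atTop, Za f a δ v (-τ) y ≤
        C₃ ^ 2 * ((1 - ϑ) ^ (-((N : ℝ) / 2)) * Real.exp (ϑ / (1 - ϑ) * ‖y‖ ^ 2 / (4 * s))) := by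
      filter_upwards [eventually_gt_atTop 0] with s hs
      have h1 := Za_heat hf hv hpos haκ.le hδ0 hδδ₀ hδ₀1 (fun r h1 h2 => (hder r h1 h2).2) hlin
        (by linarith : -(τ + s) ≤ -τ) y
      have e : -τ - -(τ + s) = s := by ring
      rw [e, heat_eq hs] at h1
      refine h1.trans ?_
      obtain ⟨hi, hI⟩ := integral_G_weight (N := N) hs hϑ1 y
      rw [← hI, ← integral_const_mul]
      refine integral_mono (integrable_G_mul (Za_continuous hf hv hpos a hδI _)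
        (Za_abs_le hf hv hpos haκ.le hδI _) hs y) (hi.const_mul _) fun z => ?_
      have h2 := hiter (τ + s) (by linarith) z
      have h3 : Real.exp (ϑ * ‖z‖ ^ 2 / (4 * (τ + s))) ≤ Real.exp (ϑ * ‖z‖ ^ 2 / (4 * s)) := by
        apply Real.exp_le_exp.2
        apply div_le_div_of_nonneg_left (by positivity) (by positivity)
        linarith
      have h4 : Za f a δ v (-(τ + s)) z ≤ C₃ ^ 2 * Real.exp (ϑ * ‖z‖ ^ 2 / (4 * s)) :=
        h2.trans (mul_le_mul_of_nonneg_left h3 (by positivity))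
      have h5 := mul_le_mul_of_nonneg_left h4 (G_nonneg hs (z - y))
      calc _ ≤ _ := h5
        _ = _ := by ring
    have hlim : Tendsto (fun s : ℝ => C₃ ^ 2 * ((1 - ϑ) ^ (-((N : ℝ) / 2)) *
        Real.exp (ϑ / (1 - ϑ) * ‖y‖ ^ 2 / (4 * s)))) atTop
        (𝓝 (C₃ ^ 2 * ((1 - ϑ) ^ (-((N : ℝ) / 2)) * Real.exp 0))) := by
      refine Tendsto.const_mul _ (Tendsto.const_mul _ ((Real.continuous_exp.tendsto _).comp ?_))
      exact tendsto_const_nhds.div_atTop (tendsto_id.const_mul_atTop (by norm_num))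
    rw [Real.exp_zero, mul_one] at hlim
    exact ge_of_tendsto hlim hbd
  have hC₅0 : 0 < C₅ := by positivity
  have hT5 : ∀ᶠ T : ℝ in atTop, C₅ * Real.exp (-a * T) < 1 := by
    have h1 : Tendsto (fun T : ℝ => C₅ * Real.exp (-a * T)) atTop (𝓝 (C₅ * 0)) := by
      refine Tendsto.const_mul _ (Real.tendsto_exp_atBot.comp ?_)
      exact tendsto_id.const_mul_atTop_of_neg (by linarith)
    rw [mul_zero] at h1
    exact h1.eventually (gt_mem_nhds one_pos)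
  obtain ⟨T₅, hT₅a, hT₅b⟩ := (hT5.and (eventually_ge_atTop T₄)).exists
  refine ⟨δ, hδI, Real.log C₅ / a, T₅, by linarith, fun τ hτ x => ?_⟩
  have h1 := hunif τ (by linarith) x
  have h2 : Pa f a δ (v (-τ) x) ≤ C₅ * Real.exp (-a * τ) := by
    have h3 : Za f a δ v (-τ) x = Real.exp (a * τ) * Pa f a δ (v (-τ) x) := by
      unfold Za; congr 2; ring
    rw [h3] at h1
    have h4 : Real.exp (-a * τ) * Real.exp (a * τ) = 1 := by
      rw [← Real.exp_add]; simp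
    calc Pa f a δ (v (-τ) x) = Real.exp (-a * τ) * Real.exp (a * τ) * Pa f a δ (v (-τ) x) := by
          rw [h4, one_mul]
      _ = Real.exp (-a * τ) * (Real.exp (a * τ) * Pa f a δ (v (-τ) x)) := by ring
      _ ≤ Real.exp (-a * τ) * C₅ := mul_le_mul_of_nonneg_left h1 (Real.exp_pos _).le
      _ = _ := by ring
  have h5 : C₅ * Real.exp (-a * τ) ≤ C₅ * Real.exp (-a * T₅) := by
    apply mul_le_mul_of_nonneg_left _ hC₅0.le
    apply Real.exp_le_exp.2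
    have := mul_le_mul_of_nonneg_left hτ ha0.le
    linarith
  have hvδ : v (-τ) x < δ := by
    by_contra hcon
    push Not at hcon
    rw [Pa_of_ge hcon] at h2
    have h6 : 0 ≤ a / f δ * (v (-τ) x - δ) := mul_nonneg (by positivity) (by linarith)
    linarith
  refine ⟨hvδ, ?_⟩
  rw [Pa_of_le hvδ.le] at h2
  have h7 := Real.log_le_log (Real.exp_pos _) h2
  rw [Real.log_exp, Real.log_mul hC₅0.ne' (Real.exp_pos _).ne', Real.log_exp] at h7
  rw [le_div_iff₀ ha0]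
  linarith

end Pool.Agent.KPP
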