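import Pool.Agent.Lib.MP_75f8eb_an.HeatSemi

/-!
# Comparison of transformed solutions with the heat flow
-/

namespace Pool.Agent.KPP

open Set Filter Topology MeasureTheory

variable {N : ℕ} {f : ℝ → ℝ} {v : ℝ → Sp N → ℝ}

/-- the slope at zero -/
noncomputable def kap (f : ℝ → ℝ) : ℝ := derivWithin f (Icc 0 1) 0

theorem IsKPP.kap_pos (hf : IsKPP f) : 0 < kap f := hf.slope_pos

theorem IsKPP.le_kap (hf : IsKPP f) {r : ℝ} (hr : r ∈ Icc (0 : ℝ) 1) : f r ≤ kap f * r := by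
  rcases eq_or_lt_of_le hr.1 with h | h
  · rw [← h, hf.zero]; simp
  rcases eq_or_lt_of_le hr.2 with h' | h'
  · rw [h', hf.one]; have := hf.kap_pos; linarith
  · exact hf.le r h h'

theorem IsKPP.f_nonneg (hf : IsKPP f) {r : ℝ} (hr : r ∈ Icc (0 : ℝ) 1) : 0 ≤ f r := by
  rcases eq_or_lt_of_le hr.1 with h | h
  · rw [← h, hf.zero]
  rcases eq_or_lt_of_le hr.2 with h' | h'
  · rw [h', hf.one]
  · exact (hf.pos r h h').le

theorem IsKPP.lip (hf : IsKPP f) : ∃ L : ℝ, 0 ≤ L ∧ ∀ r ∈ Icc (0 : ℝ) 1, ∀ r' ∈ Icc (0 : ℝ) 1,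
    r' ≤ r → f r - f r' ≤ L * (r - r') := by
  have hc : ContinuousOn (derivWithin f (Icc 0 1)) (Icc 0 1) :=
    hf.smooth.continuousOn_derivWithin (uniqueDiffOn_Icc one_pos) le_rfl
  obtain ⟨L, hL⟩ := isCompact_Icc.exists_bound_of_continuousOn hc
  have hL0 : 0 ≤ L := (norm_nonneg _).trans (hL 0 (by simp))
  refine ⟨L, hL0, fun r hr r' hr' hle => ?_⟩
  have h := (convex_Icc (0 : ℝ) 1).norm_image_sub_le_of_norm_derivWithin_le
    (f := f) (C := L) (hf.smooth.differentiableOn one_ne_zero) hL hr' hr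
  rw [Real.norm_eq_abs, Real.norm_eq_abs, abs_of_nonneg (sub_nonneg.2 hle)] at h
  exact (le_abs_self _).trans h

theorem heat_neg (τ : ℝ) (g : Sp N → ℝ) (x : Sp N) :
    heat τ (fun z => -g z) x = -heat τ g x := by
  have := heat_const_mul (-1) τ g x
  simpa using this

theorem exp_neg_mul_le {a s T t : ℝ} (ht : t ∈ Icc s T) :
    Real.exp (-a * (t - s)) ≤ Real.exp (|a| * (T - s)) := by
  apply Real.exp_le_exp.2
  have h1 : -a * (t - s) ≤ |a| * (t - s) :=
    mul_le_mul_of_nonneg_right (neg_le_abs a) (sub_nonneg.2 ht.1)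
  have h2 : |a| * (t - s) ≤ |a| * (T - s) :=
    mul_le_mul_of_nonneg_left (by linarith [ht.2]) (abs_nonneg a)
  linarith

theorem comp_continuous (hv : IsEntire N f v) {s T : ℝ} (R : Set ℝ)
    (hR : ∀ t ∈ Icc s T, ∀ x, v t x ∈ R) (Φ : ℝ → ℝ) (hΦc : ContinuousOn Φ R) :
    ContinuousOn (fun p : ℝ × Sp N => Φ (v p.1 p.2)) (Icc s T ×ˢ univ) :=
  hΦc.comp hv.cont.continuousOn fun p hp => hR p.1 hp.1 p.2

theorem comp_continuous_space (hv : IsEntire N f v) {s : ℝ} (R : Set ℝ)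
    (hR : ∀ x, v s x ∈ R) (Φ : ℝ → ℝ) (hΦc : ContinuousOn Φ R) :
    Continuous fun z => Φ (v s z) :=
  hΦc.comp_continuous (hv.cont_space s) hR

/-- **Comparison, sub version.** -/
theorem sub_compare (hv : IsEntire N f v) {s T a C : ℝ} (R : Set ℝ)
    (hR : ∀ t ∈ Icc s T, ∀ x, v t x ∈ R) (Φ : ℝ → ℝ) (hΦc : ContinuousOn Φ R)
    (hΦb : ∀ r ∈ R, |Φ r| ≤ C)
    (hΦ : ∀ r₀ ∈ R, ∃ m, (∀ r ∈ R, Φ r₀ + m * (r - r₀) ≤ Φ r) ∧ m * f r₀ ≤ a * Φ r₀) :
    ∀ t ∈ Icc s T, ∀ x,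
      Real.exp (-a * (t - s)) * Φ (v t x) ≤ heat (t - s) (fun z => Φ (v s z)) x := by
  rcases lt_or_ge T s with hTs | hsT
  · intro t ht; exact absurd (ht.1.trans ht.2) (not_le.2 hTs)
  have hsmem : s ∈ Icc s T := ⟨le_rfl, hsT⟩
  set g : Sp N → ℝ := fun z => Φ (v s z) with hg
  have hgc : Continuous g := comp_continuous_space hv R (hR s hsmem) Φ hΦc
  have hgC : ∀ z, |g z| ≤ C := fun z => hΦb _ (hR s hsmem z)
  have hC0 : 0 ≤ C := (abs_nonneg _).trans (hgC 0)
  have hmain := maxPrinciple (N := N) (s := s) (T := T) (Λ := 0)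
    (B := Real.exp (|a| * (T - s)) * C + C)
    (fun t x => Real.exp (-a * (t - s)) * Φ (v t x) - heat (t - s) g x) ?_ ?_ ?_ ?_
  · intro t ht x
    have := hmain t ht x
    linarith
  · apply ContinuousOn.sub
    · exact (Continuous.continuousOn (by fun_prop)).mul (comp_continuous hv R hR Φ hΦc)
    · exact ((heat_continuous hgc hgC).comp
        (by fun_prop : Continuous fun p : ℝ × Sp N => (p.1 - s, p.2))).continuousOn
  · intro t ht x
    have h1 : Real.exp (-a * (t - s)) * Φ (v t x) ≤ Real.exp (|a| * (T - s)) * C := by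
      calc Real.exp (-a * (t - s)) * Φ (v t x) ≤ Real.exp (-a * (t - s)) * C :=
            mul_le_mul_of_nonneg_left ((le_abs_self _).trans (hΦb _ (hR t ht x)))
              (Real.exp_pos _).le
        _ ≤ _ := mul_le_mul_of_nonneg_right (exp_neg_mul_le ht) hC0
    have h2 : -C ≤ heat (t - s) g x := le_heat hgc hgC (fun z => (abs_le.1 (hgC z)).1) _ _
    linarith
  · intro x
    simp [heat_zero, hg]
  · intro t0 ht0 x0 _
    have ht0' : t0 ∈ Icc s T := ⟨ht0.1.le, ht0.2⟩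
    obtain ⟨m, hm1, hm2⟩ := hΦ (v t0 x0) (hR t0 ht0' x0)
    obtain ⟨dv, pv, mv, hdv, hJv, heqv⟩ := hv.jets t0 x0
    obtain ⟨dh, ph, mh, hdh, hJh, heqh⟩ := heat_jets hgc hgC (sub_pos.2 ht0.1) x0
    set k : ℝ := Real.exp (-a * (t0 - s)) with hk
    have hkpos : 0 < k := Real.exp_pos _
    refine ⟨fun t => Real.exp (-a * (t - s)) * (Φ (v t0 x0) + m * (v t x0 - v t0 x0)) -
        heat (t - s) g x0,
      -a * k * Φ (v t0 x0) + k * (m * dv) - dh,
      fun x => k * (Φ (v t0 x0) + m * (v t0 x - v t0 x0)) - heat (t0 - s) g x,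
      fun i => k * (m * pv i) - ph i, fun i => k * (m * mv i) - mh i, ?_, ?_, ?_, ?_, ?_, ?_, ?_⟩
    · simp [hk]
    · have hIoo : ∀ᶠ t in 𝓝[<] t0, t ∈ Ioo s t0 := Ioo_mem_nhdsLT ht0.1
      filter_upwards [hIoo] with t ht
      have h1 := hm1 (v t x0) (hR t ⟨ht.1.le, ht.2.le.trans ht0.2⟩ x0)
      have := mul_le_mul_of_nonneg_left h1 (Real.exp_pos (-a * (t - s))).le
      linarith
    · have h1 : HasDerivAt (fun t : ℝ => -a * (t - s)) (-a) t0 := by
        simpa using ((hasDerivAt_id' t0).sub_const s).const_mul (-a)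
      have h2 : HasDerivAt (fun t => Φ (v t0 x0) + m * (v t x0 - v t0 x0)) (m * dv) t0 :=
        ((hdv.sub_const _).const_mul m).const_add _
      have h3 : HasDerivAt (fun t => heat (t - s) g x0) dh t0 := hdh.comp_sub_const t0 s
      have h4 := (h1.exp.fun_mul h2).fun_sub h3
      refine h4.congr_deriv ?_
      rw [← hk]; ring
    · simp [hk]
    · refine Eventually.of_forall fun x => ?_
      have h1 := hm1 (v t0 x) (hR t0 ht0' x)
      have := mul_le_mul_of_nonneg_left h1 hkpos.le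
      linarith
    · intro i
      have h1 := ((hJv i).const_mul m).const_mul k
      have h2 := (h1.sub (hJh i)).add (J1.const (k * (Φ (v t0 x0) - m * v t0 x0)))
      refine (h2.congr fun h => ?_).congr' (by ring) (by ring)
      ring
    · rw [Finset.sum_sub_distrib, ← heqh, ← Finset.mul_sum, ← Finset.mul_sum]
      have h1 : ∑ i, mv i = dv - f (v t0 x0) := by linarith
      rw [h1]
      have h2 := mul_le_mul_of_nonneg_left hm2 hkpos.le
      linarith

/-- **Comparison, super version.** -/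
theorem super_compare (hv : IsEntire N f v) {s T b C : ℝ} (R : Set ℝ)
    (hR : ∀ t ∈ Icc s T, ∀ x, v t x ∈ R) (Φ : ℝ → ℝ) (hΦc : ContinuousOn Φ R)
    (hΦb : ∀ r ∈ R, |Φ r| ≤ C)
    (hΦ : ∀ r₀ ∈ R, ∃ m, (∀ r ∈ R, Φ r ≤ Φ r₀ + m * (r - r₀)) ∧ b * Φ r₀ ≤ m * f r₀) :
    ∀ t ∈ Icc s T, ∀ x,
      heat (t - s) (fun z => Φ (v s z)) x ≤ Real.exp (-b * (t - s)) * Φ (v t x) := by
  intro t ht x
  have h := sub_compare hv (a := b) (C := C) R hR (fun r => -Φ r) hΦc.neg
    (fun r hr => by rw [abs_neg]; exact hΦb r hr) (fun r₀ hr₀ => ?_) t ht x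
  · rw [heat_neg] at h
    linarith
  · obtain ⟨m, h1, h2⟩ := hΦ r₀ hr₀
    refine ⟨-m, fun r hr => ?_, ?_⟩
    · have := h1 r hr; linarith
    · linarith

/-- `v(t) ≤ e^{κ(t-s)} P_{t-s} v(s)` -/
theorem upper (hf : IsKPP f) (hv : IsEntire N f v) {s t : ℝ} (hst : s ≤ t) (x : Sp N) :
    v t x ≤ Real.exp (kap f * (t - s)) * heat (t - s) (v s) x := by
  have h := sub_compare hv (s := s) (T := t) (a := kap f) (C := 1) (Icc 0 1)
    (fun t _ x => hv.range t x) (fun r => r) continuousOn_id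
    (fun r hr => by rw [abs_of_nonneg hr.1]; exact hr.2)
    (fun r₀ hr₀ => ⟨1, fun r _ => by linarith, by rw [one_mul]; exact hf.le_kap hr₀⟩) t
    ⟨hst, le_rfl⟩ x
  have h1 := mul_le_mul_of_nonneg_left h (Real.exp_pos (kap f * (t - s))).le
  rw [← mul_assoc, ← Real.exp_add] at h1
  have h2 : kap f * (t - s) + -kap f * (t - s) = 0 := by ring
  rw [h2, Real.exp_zero, one_mul] at h1
  exact h1

/-- `P_{t-s} v(s) ≤ v(t)` -/
theorem lower (hf : IsKPP f) (hv : IsEntire N f v) {s t : ℝ} (hst : s ≤ t) (x : Sp N) :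
    heat (t - s) (v s) x ≤ v t x := by
  have h := super_compare hv (s := s) (T := t) (b := 0) (C := 1) (Icc 0 1)
    (fun t _ x => hv.range t x) (fun r => r) continuousOn_id
    (fun r hr => by rw [abs_of_nonneg hr.1]; exact hr.2)
    (fun r₀ hr₀ => ⟨1, fun r _ => by linarith, by simpa using hf.f_nonneg hr₀⟩) t
    ⟨hst, le_rfl⟩ x
  simpa using h

theorem IsEntire.abs_le (hv : IsEntire N f v) (t : ℝ) (z : Sp N) : |v t z| ≤ 1 := by
  rw [abs_of_nonneg (hv.nonneg t z)]; exact hv.le_one t z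

/-- **Harnack inequality** -/
theorem harnack (hf : IsKPP f) (hv : IsEntire N f v) (s : ℝ) (x y : Sp N) :
    v s x ≤ Real.exp (kap f) * 2 ^ ((N : ℝ) / 2) * Real.exp (‖x - y‖ ^ 2 / 4) * v (s + 1) y := by
  have h1 := upper hf hv (by linarith : s - 1 ≤ s) x
  have h2 := lower hf hv (by linarith : s - 1 ≤ s + 1) y
  have e1 : s - (s - 1) = 1 := by ring
  have e2 : s + 1 - (s - 1) = 2 := by ring
  rw [e1] at h1
  rw [e2] at h2
  have hc := hv.cont_space (s - 1)
  have hb : ∀ z, |v (s - 1) z| ≤ 1 := hv.abs_le (s - 1)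
  have h3 : heat 1 (v (s - 1)) x ≤ 2 ^ ((N : ℝ) / 2) * Real.exp (‖x - y‖ ^ 2 / 4) *
      heat 2 (v (s - 1)) y := by
    rw [heat_eq one_pos, heat_eq two_pos, ← integral_const_mul]
    refine integral_mono (integrable_G_mul hc hb one_pos x)
      ((integrable_G_mul hc hb two_pos y).const_mul _) fun z => ?_
    have h4 := G_le_G (N := N) one_pos one_lt_two x y z
    have e3 : (4 : ℝ) * (2 - 1) = 4 := by norm_num
    rw [e3, div_one] at h4
    have := mul_le_mul_of_nonneg_right h4 (hv.nonneg (s - 1) z)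
    calc _ ≤ _ := this
      _ = _ := by ring
  have e4 : kap f * 1 = kap f := mul_one _
  rw [e4] at h1
  calc v s x ≤ Real.exp (kap f) * heat 1 (v (s - 1)) x := h1
    _ ≤ Real.exp (kap f) * (2 ^ ((N : ℝ) / 2) * Real.exp (‖x - y‖ ^ 2 / 4) *
      heat 2 (v (s - 1)) y) := mul_le_mul_of_nonneg_left h3 (Real.exp_pos _).le
    _ ≤ Real.exp (kap f) * (2 ^ ((N : ℝ) / 2) * Real.exp (‖x - y‖ ^ 2 / 4) * v (s + 1) y) := by
        gcongr
    _ = _ := by ring

theorem zero_or_pos (hf : IsKPP f) (hv : IsEntire N f v) :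
    (∀ t x, v t x = 0) ∨ (∀ t x, 0 < v t x) := by
  by_cases h : ∀ t x, 0 < v t x
  · exact Or.inr h
  left
  push Not at h
  obtain ⟨t1, x1, h1⟩ := h
  have h1' : v t1 x1 = 0 := le_antisymm h1 (hv.nonneg _ _)
  have hstep : ∀ n : ℕ, ∀ x, v (t1 - (n + 1)) x = 0 := by
    intro n
    induction n with
    | zero =>
      intro x
      have h2 := harnack hf hv (t1 - 1) x x1
      have e : t1 - 1 + 1 = t1 := by ring
      rw [e, h1', mul_zero] at h2
      have := le_antisymm h2 (hv.nonneg _ _)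
      simpa using this
    | succ n ih =>
      intro x
      have h2 := harnack hf hv (t1 - ((n + 1 : ℕ) + 1)) x x1
      have e : t1 - ((n + 1 : ℕ) + 1) + 1 = t1 - ((n : ℝ) + 1) := by push_cast; ring
      rw [e, ih, mul_zero] at h2
      exact le_antisymm h2 (hv.nonneg _ _)
  intro t x
  obtain ⟨n, hn⟩ := exists_nat_gt (t1 - t)
  have h3 := upper hf hv (s := t1 - (n + 1)) (t := t) (by linarith) x
  have h4 : v (t1 - (n + 1)) = fun _ => (0 : ℝ) := funext (hstep n)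
  rw [h4, heat_const, mul_zero] at h3
  exact le_antisymm h3 (hv.nonneg _ _)

end Pool.Agent.KPP
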