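import Pool.Agent.Lib.MP_75f8eb_an.Transform

/-!
# Lower evolution of the mass in a shrinking cone
-/

namespace Pool.Agent.KPP

open Set Filter Topology MeasureTheory

variable {N : ℕ} {f : ℝ → ℝ} {v : ℝ → Sp N → ℝ}

/-- caloric comparison function -/
noncomputable def pfun (A l : ℝ) (y : Sp N) (t : ℝ) (x : Sp N) : ℝ :=
  A * Real.exp (l ^ 2 * t) * ∑ i, (Real.exp (l * (x - y) i) + Real.exp (-(l * (x - y) i)))

theorem pfun_continuous (A l : ℝ) (y : Sp N) :
    Continuous fun p : ℝ × Sp N => pfun A l y p.1 p.2 := by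
  unfold pfun; fun_prop

theorem pfun_nonneg {A l : ℝ} (hA : 0 ≤ A) (y : Sp N) (t : ℝ) (x : Sp N) : 0 ≤ pfun A l y t x := by
  unfold pfun; positivity

theorem pfun_time (A l : ℝ) (y : Sp N) (t : ℝ) (x : Sp N) :
    HasDerivAt (fun t => pfun A l y t x) (l ^ 2 * pfun A l y t x) t := by
  unfold pfun
  have h1 : HasDerivAt (fun t : ℝ => Real.exp (l ^ 2 * t)) (Real.exp (l ^ 2 * t) * (l ^ 2 * 1)) t :=
    ((hasDerivAt_id' t).const_mul (l ^ 2)).exp
  have h2 := (h1.const_mul A).mul_const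
    (∑ i, (Real.exp (l * (x - y) i) + Real.exp (-(l * (x - y) i))))
  refine h2.congr_deriv ?_
  ring

theorem line_coord (x y : Sp N) (i j : Fin N) (h : ℝ) :
    (x + h • bv i - y) j = (x - y) j + if j = i then h else 0 := by
  simp [bv]
  split_ifs <;> ring

theorem pfun_space (A l : ℝ) (y : Sp N) (t : ℝ) (x : Sp N) (i : Fin N) :
    J1 (fun h => pfun A l y t (x + h • bv i))
      (A * Real.exp (l ^ 2 * t) * (l * (Real.exp (l * (x - y) i) - Real.exp (-(l * (x - y) i)))))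
      (A * Real.exp (l ^ 2 * t) *
        (l ^ 2 * (Real.exp (l * (x - y) i) + Real.exp (-(l * (x - y) i))))) := by
  have h1 : ∀ j, J1 (fun h => Real.exp (l * (x + h • bv i - y) j) +
      Real.exp (-(l * (x + h • bv i - y) j)))
      (if j = i then l * (Real.exp (l * (x - y) i) - Real.exp (-(l * (x - y) i))) else 0)
      (if j = i then l ^ 2 * (Real.exp (l * (x - y) i) + Real.exp (-(l * (x - y) i))) else 0) := by
    intro j
    by_cases hj : j = i
    · subst hj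
      simp only [if_true]
      have ha := J1.expquad (l * (x - y) j) l 0
      have hb := J1.expquad (-(l * (x - y) j)) (-l) 0
      refine ((ha.add hb).congr fun h => ?_).congr' (by ring) (by ring)
      rw [line_coord]
      simp only [if_true]
      congr 2 <;> ring
    · simp only [if_neg hj]
      refine (J1.const (Real.exp (l * (x - y) j) + Real.exp (-(l * (x - y) j)))).congr fun h => ?_
      rw [line_coord]
      simp [hj]
  have h2 := (J1.sum Finset.univ (fun j _ => h1 j)).const_mul (A * Real.exp (l ^ 2 * t))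
  refine (h2.congr fun h => rfl).congr' ?_ ?_
  · simp
  · simp

theorem pfun_space_sum (A l : ℝ) (y : Sp N) (t : ℝ) (x : Sp N) :
    ∑ i, A * Real.exp (l ^ 2 * t) *
        (l ^ 2 * (Real.exp (l * (x - y) i) + Real.exp (-(l * (x - y) i)))) =
      l ^ 2 * pfun A l y t x := by
  unfold pfun
  rw [← Finset.mul_sum, ← Finset.mul_sum]; ring

theorem exists_large_coord (hN : 0 < N) (X : Sp N) : ∃ i, ‖X‖ ≤ √N * |X i| := by
  by_contra h
  push Not at h
  have hN' : (0 : ℝ) < N := by exact_mod_cast hN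
  have : Nonempty (Fin N) := ⟨⟨0, hN⟩⟩
  have h1 : ∑ i : Fin N, X i ^ 2 < ∑ _i : Fin N, ‖X‖ ^ 2 / N := by
    refine Finset.sum_lt_sum_of_nonempty Finset.univ_nonempty fun i _ => ?_
    have h2 := h i
    have h3 : (√(N : ℝ) * |X i|) ^ 2 < ‖X‖ ^ 2 := pow_lt_pow_left₀ h2 (by positivity) two_ne_zero
    rw [mul_pow, Real.sq_sqrt hN'.le, sq_abs] at h3
    rw [lt_div_iff₀ hN']; linarith
  rw [sum_sq_coord] at h1
  simp only [Finset.sum_const, Finset.card_univ, Fintype.card_fin, nsmul_eq_mul] at h1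
  have h4 : (N : ℝ) * (‖X‖ ^ 2 / N) = ‖X‖ ^ 2 := by field_simp
  rw [h4] at h1
  exact lt_irrefl _ h1

/-- lower bound for `pfun` outside of the cone -/
theorem pfun_lower (hN : 0 < N) {A q τ : ℝ} (hA : 0 ≤ A) (hq : 0 < q) {x y : Sp N}
    (hx : q * τ ≤ ‖x - y‖) :
    A * Real.exp (q * ‖x - y‖ / (4 * N)) ≤ pfun A (q / (2 * √N)) y (-τ) x := by
  have hN' : (0 : ℝ) < N := by exact_mod_cast hN
  have hsN : 0 < √(N : ℝ) := Real.sqrt_pos.2 hN'
  have hsN2 : √(N : ℝ) ^ 2 = N := Real.sq_sqrt hN'.le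
  obtain ⟨i, hi⟩ := exists_large_coord hN (x - y)
  set l : ℝ := q / (2 * √N) with hl
  have hl0 : 0 < l := by positivity
  have hl2 : l ^ 2 = q ^ 2 / (4 * N) := by
    rw [hl, div_pow, mul_pow, hsN2]; norm_num
  have h1 : Real.exp (q * ‖x - y‖ / (2 * N)) ≤
      Real.exp (l * (x - y) i) + Real.exp (-(l * (x - y) i)) := by
    have h2 : q * ‖x - y‖ / (2 * N) ≤ l * |(x - y) i| := by
      have h3 : l * |(x - y) i| = q * (√N * |(x - y) i|) / (2 * N) := by
        rw [hl]; field_simp; rw [hsN2]; ring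
      rw [h3]
      gcongr
    have h4 : Real.exp (l * |(x - y) i|) ≤
        Real.exp (l * (x - y) i) + Real.exp (-(l * (x - y) i)) := by
      rcases abs_cases ((x - y) i) with ⟨h5, _⟩ | ⟨h5, _⟩
      · rw [h5]; linarith [Real.exp_pos (-(l * (x - y) i))]
      · rw [h5, mul_neg]; linarith [Real.exp_pos (l * (x - y) i)]
    exact (Real.exp_le_exp.2 h2).trans h4
  have h5 : Real.exp (l * (x - y) i) + Real.exp (-(l * (x - y) i)) ≤
      ∑ i, (Real.exp (l * (x - y) i) + Real.exp (-(l * (x - y) i))) :=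
    Finset.single_le_sum (f := fun i => Real.exp (l * (x - y) i) + Real.exp (-(l * (x - y) i)))
      (fun j _ => by positivity) (Finset.mem_univ i)
  unfold pfun
  have h6 : Real.exp (q * ‖x - y‖ / (4 * N)) ≤ Real.exp (l ^ 2 * -τ) *
      Real.exp (q * ‖x - y‖ / (2 * N)) := by
    rw [← Real.exp_add]
    apply Real.exp_le_exp.2
    rw [hl2]
    have h7 : q ^ 2 / (4 * N) * τ ≤ q * ‖x - y‖ / (4 * N) := by
      rw [div_mul_eq_mul_div]
      apply div_le_div_of_nonneg_right _ (by positivity)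
      nlinarith
    have h8 : q * ‖x - y‖ / (2 * N) = q * ‖x - y‖ / (4 * N) + q * ‖x - y‖ / (4 * N) := by
      field_simp; ring
    rw [h8]; linarith
  calc A * Real.exp (q * ‖x - y‖ / (4 * N)) ≤ A * (Real.exp (l ^ 2 * -τ) *
        Real.exp (q * ‖x - y‖ / (2 * N))) := mul_le_mul_of_nonneg_left h6 hA
    _ ≤ A * (Real.exp (l ^ 2 * -τ) *
        ∑ i, (Real.exp (l * (x - y) i) + Real.exp (-(l * (x - y) i)))) := by
        gcongr
        exact h1.trans h5
    _ = _ := by ring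

/-- kernel comparison on a ball -/
theorem kernel_ball {τ₁ τ₂ τ₀ σ : ℝ} (h1 : 0 < τ₁) (h12 : τ₁ ≤ τ₂) (h20 : τ₂ ≤ τ₀)
    (h01 : τ₀ ≤ 2 * τ₁) {x y z : Sp N} (hz : ‖z - y‖ ≤ σ * τ₀) :
    G N τ₁ (z - x) ≤ 2 ^ ((N : ℝ) / 2) * Real.exp (σ * ‖x - y‖) * G N τ₂ (z - y) := by
  have h2 : 0 < τ₂ := lt_of_lt_of_le h1 h12
  unfold G
  have hpow : (4 * Real.pi * τ₁) ^ (-((N : ℝ) / 2)) ≤
      2 ^ ((N : ℝ) / 2) * (4 * Real.pi * τ₂) ^ (-((N : ℝ) / 2)) := by
    rw [Real.rpow_neg (by positivity), Real.rpow_neg (by positivity), ← div_eq_mul_inv,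
      ← Real.div_rpow (by norm_num) (by positivity), ← Real.inv_rpow (by positivity)]
    apply Real.rpow_le_rpow (by positivity) _ (by positivity)
    rw [inv_eq_one_div, div_le_div_iff₀ (by positivity) (by positivity)]
    nlinarith [Real.pi_pos]
  have hexp : Real.exp (-(1 / (4 * τ₁)) * ‖z - x‖ ^ 2) ≤
      Real.exp (σ * ‖x - y‖) * Real.exp (-(1 / (4 * τ₂)) * ‖z - y‖ ^ 2) := by
    rw [← Real.exp_add]
    apply Real.exp_le_exp.2
    have h3 : ‖z - y‖ ^ 2 - 2 * ‖z - y‖ * ‖x - y‖ ≤ ‖z - x‖ ^ 2 := by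
      have h4 : |‖z - y‖ - ‖x - y‖| ≤ ‖z - x‖ := by
        have : z - x = (z - y) - (x - y) := by abel
        rw [this]; exact abs_norm_sub_norm_le _ _
      have h5 : (‖z - y‖ - ‖x - y‖) ^ 2 ≤ ‖z - x‖ ^ 2 := by
        rw [← sq_abs (‖z - y‖ - ‖x - y‖)]
        exact pow_le_pow_left₀ (abs_nonneg _) h4 2
      nlinarith [sq_nonneg ‖x - y‖]
    have h6 : 1 / (4 * τ₂) * ‖z - y‖ ^ 2 ≤ 1 / (4 * τ₁) * ‖z - y‖ ^ 2 := by gcongr
    have h7 : 1 / (4 * τ₁) * (2 * ‖z - y‖ * ‖x - y‖) ≤ σ * ‖x - y‖ := by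
      have h8 : 1 / (4 * τ₁) * (2 * ‖z - y‖ * ‖x - y‖) = ‖z - y‖ / (2 * τ₁) * ‖x - y‖ := by
        field_simp; norm_num
      rw [h8]
      apply mul_le_mul_of_nonneg_right _ (norm_nonneg _)
      rw [div_le_iff₀ (by positivity)]
      have hσ : 0 ≤ σ := by
        by_contra hneg
        push Not at hneg
        have h9 : 0 < τ₀ := by linarith
        have := mul_neg_of_neg_of_pos hneg h9
        linarith [norm_nonneg (z - y)]
      have := mul_le_mul_of_nonneg_left h01 hσ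
      linarith
    have h9 := mul_le_mul_of_nonneg_left h3 (by positivity : 0 ≤ 1 / (4 * τ₁))
    linarith
  calc _ ≤ (2 ^ ((N : ℝ) / 2) * (4 * Real.pi * τ₂) ^ (-((N : ℝ) / 2))) *
        (Real.exp (σ * ‖x - y‖) * Real.exp (-(1 / (4 * τ₂)) * ‖z - y‖ ^ 2)) :=
        mul_le_mul hpow hexp (Real.exp_pos _).le (by positivity)
    _ = _ := by ring

/-- the transformed solution (truncated) -/
noncomputable def Zb (f : ℝ → ℝ) (b δ : ℝ) (v : ℝ → Sp N → ℝ) (t : ℝ) (x : Sp N) : ℝ :=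
  Real.exp (-b * t) * Real.exp (b * Hf f δ (min (v t x) δ))

theorem Zb_pos (b δ : ℝ) (v : ℝ → Sp N → ℝ) (t : ℝ) (x : Sp N) : 0 < Zb f b δ v t x := by
  unfold Zb; positivity

theorem Zb_continuous (hf : IsKPP f) (hv : IsEntire N f v) (hpos : ∀ t x, 0 < v t x) (b : ℝ)
    {δ : ℝ} (hδ : δ ∈ Ioo (0 : ℝ) 1) : Continuous fun p : ℝ × Sp N => Zb f b δ v p.1 p.2 := by
  unfold Zb
  have h1 : Continuous fun p : ℝ × Sp N => Hf f δ (min (v p.1 p.2) δ) :=
    (Hf_continuousOn hf hδ).comp_continuous (hv.cont.min continuous_const) fun p =>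
      ⟨lt_min (hpos _ _) hδ.1, lt_of_le_of_lt (min_le_right _ _) hδ.2⟩
  fun_prop

theorem Zb_le_exp (hf : IsKPP f) (hpos : ∀ t x, 0 < v t x) {b δ : ℝ} (hb : 0 ≤ b)
    (hδ : δ ∈ Ioo (0 : ℝ) 1) (t : ℝ) (x : Sp N) : Zb f b δ v t x ≤ Real.exp (-b * t) := by
  unfold Zb
  have h1 := Hf_nonpos hf hδ (lt_min (hpos t x) hδ.1) (min_le_right _ _)
  have h2 : Real.exp (b * Hf f δ (min (v t x) δ)) ≤ 1 :=
    Real.exp_le_one_iff.2 (mul_nonpos_of_nonneg_of_nonpos hb h1)
  have h3 := Real.exp_pos (-b * t)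
  nlinarith

/-- bound from the far-past estimate -/
theorem Zb_le_far (hf : IsKPP f) (hpos : ∀ t x, 0 < v t x) {b δ ε τ : ℝ} (hb : 0 < b)
    (hbκ : b ≤ kap f) (hδ : δ ∈ Ioo (0 : ℝ) 1) (hτ : 0 < τ) (hε : 0 < ε) {x y : Sp N}
    (h : v (-τ) x ≤ Real.exp (-kap f * τ + ‖x - y‖ ^ 2 / (4 * τ) + ε * τ)) :
    Zb f b δ v (-τ) x ≤ δ⁻¹ * Real.exp (‖x - y‖ ^ 2 / (4 * τ) + ε * τ) := by
  have hκ := hf.kap_pos
  set r := min (v (-τ) x) δ with hr
  have hr0 : 0 < r := lt_min (hpos _ _) hδ.1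
  have h1 := Hf_le_log hf hδ hr0 (min_le_right _ _)
  set Q : ℝ := ‖x - y‖ ^ 2 / (4 * τ) + ε * τ with hQ
  have hQ0 : 0 ≤ Q := by positivity
  have h2 : Real.log r ≤ -kap f * τ + Q := by
    have h3 : r ≤ Real.exp (-kap f * τ + Q) := by
      refine (min_le_left _ _).trans (h.trans (le_of_eq ?_))
      rw [hQ]; congr 1; ring
    have := Real.log_le_log hr0 h3
    rwa [Real.log_exp] at this
  have hlogδ : Real.log δ ≤ 0 := Real.log_nonpos hδ.1.le hδ.2.le
  have h4 : b * τ + b * Hf f δ r ≤ Q - Real.log δ := by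
    have h5 : b * Hf f δ r = b / kap f * (kap f * Hf f δ r) := by field_simp
    have h6 : b / kap f * (kap f * Hf f δ r) ≤ b / kap f * (-kap f * τ + Q - Real.log δ) := by
      apply mul_le_mul_of_nonneg_left _ (by positivity)
      linarith
    have h7 : b / kap f * (-kap f * τ + Q - Real.log δ) =
        -(b * τ) + b / kap f * (Q - Real.log δ) := by field_simp; ring
    have h8 : b / kap f * (Q - Real.log δ) ≤ 1 * (Q - Real.log δ) := by
      apply mul_le_mul_of_nonneg_right _ (by linarith)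
      rw [div_le_one hκ]; exact hbκ
    linarith
  unfold Zb
  rw [← Real.exp_add, ← hr]
  calc Real.exp (-b * -τ + b * Hf f δ r) ≤ Real.exp (Q - Real.log δ) := by
        apply Real.exp_le_exp.2; linarith
    _ = δ⁻¹ * Real.exp Q := by
        rw [Real.exp_sub, Real.exp_log hδ.1]; ring

end Pool.Agent.KPP
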