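import Pool.Agent.Lib.MP_75f8eb_an.Cone

/-!
# Lower evolution of the mass in a shrinking cone: main estimate
-/

namespace Pool.Agent.KPP

open Set Filter Topology MeasureTheory

variable {N : ℕ} {f : ℝ → ℝ} {v : ℝ → Sp N → ℝ}

/-- outside of the cone the heat flow is below `pfun` -/
theorem cone_outside (hN : 0 < N) {κ ε T τ₀ τ C₂ θ D : ℝ} (hκ : 0 < κ)
    (hεκ : ε ≤ κ / (16 * N)) (hT : 0 < T) (hτT : T ≤ τ) (hττ₀ : τ < τ₀) {g : Sp N → ℝ}
    (hgc : Continuous g) {Cg : ℝ} (hgC : ∀ z, |g z| ≤ Cg) (hg0 : ∀ z, 0 ≤ g z) {y : Sp N}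
    (hgs : ∀ z, √κ / (4 * N) * τ₀ < ‖z - y‖ → g z = 0)
    (hgD : ∀ z, g z ≤ D * Real.exp (‖z - y‖ ^ 2 / (4 * τ₀) + ε * τ₀)) (hθ0 : 0 ≤ θ) (hθ1 : θ ≤ 1)
    (hD : 0 ≤ D) (hDC : D ≤ C₂) (hmass : θ * heat (τ₀ - T) g y = C₂) {x : Sp N}
    (hx : √κ * τ ≤ ‖x - y‖) :
    θ * heat (τ₀ - τ) g x ≤ pfun (2 ^ ((N : ℝ) / 2) * C₂) (√κ / (2 * √N)) y (-τ) x := by
  have hN' : (0 : ℝ) < N := by exact_mod_cast hN
  have hN1 : (1 : ℝ) ≤ N := by exact_mod_cast hN
  set q : ℝ := √κ with hq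
  have hq0 : 0 < q := Real.sqrt_pos.2 hκ
  have hq2 : q ^ 2 = κ := Real.sq_sqrt hκ.le
  set σ : ℝ := q / (4 * N) with hσ
  have hσ0 : 0 < σ := by positivity
  have hC₂ : 0 ≤ C₂ := hD.trans hDC
  have h2pow : (1 : ℝ) ≤ 2 ^ ((N : ℝ) / 2) := Real.one_le_rpow one_le_two (by positivity)
  have hτ0 : 0 < τ := by linarith
  have hlow := pfun_lower (A := 2 ^ ((N : ℝ) / 2) * C₂) hN (by positivity) hq0 hx
  refine le_trans ?_ hlow
  have hτ1 : 0 < τ₀ - τ := by linarith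
  rcases le_or_gt (2 * τ) τ₀ with h | h
  · -- kernel comparison
    have h1 : heat (τ₀ - τ) g x ≤ 2 ^ ((N : ℝ) / 2) * Real.exp (σ * ‖x - y‖) *
        heat (τ₀ - T) g y := by
      rw [heat_eq hτ1, heat_eq (by linarith : 0 < τ₀ - T), ← integral_const_mul]
      refine integral_mono (integrable_G_mul hgc hgC hτ1 x)
        ((integrable_G_mul hgc hgC (by linarith) y).const_mul _) fun z => ?_
      by_cases hz : σ * τ₀ < ‖z - y‖
      · simp [hgs z hz]
      · push Not at hz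
        have h2 := kernel_ball (τ₁ := τ₀ - τ) (τ₂ := τ₀ - T) (τ₀ := τ₀) (σ := σ) hτ1 (by linarith)
          (by linarith) (by linarith) (x := x) hz
        have h3 := mul_le_mul_of_nonneg_right h2 (hg0 z)
        calc _ ≤ _ := h3
          _ = _ := by ring
    have h4 := mul_le_mul_of_nonneg_left h1 hθ0
    calc θ * heat (τ₀ - τ) g x ≤ θ * (2 ^ ((N : ℝ) / 2) * Real.exp (σ * ‖x - y‖) *
        heat (τ₀ - T) g y) := h4
      _ = 2 ^ ((N : ℝ) / 2) * Real.exp (σ * ‖x - y‖) * (θ * heat (τ₀ - T) g y) := by ring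
      _ = 2 ^ ((N : ℝ) / 2) * C₂ * Real.exp (q * ‖x - y‖ / (4 * N)) := by
          rw [hmass, hσ, div_mul_eq_mul_div]; ring
  · -- sup bound
    have hgsup : ∀ z, g z ≤ D * Real.exp (σ ^ 2 * τ₀ / 4 + ε * τ₀) := by
      intro z
      by_cases hz : σ * τ₀ < ‖z - y‖
      · rw [hgs z hz]; positivity
      · push Not at hz
        refine (hgD z).trans (mul_le_mul_of_nonneg_left (Real.exp_le_exp.2 ?_) hD)
        have hτ₀' : 0 < τ₀ := by linarith
        have h2 : ‖z - y‖ ^ 2 / (4 * τ₀) ≤ (σ * τ₀) ^ 2 / (4 * τ₀) := by gcongr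
        have h3 : (σ * τ₀) ^ 2 / (4 * τ₀) = σ ^ 2 * τ₀ / 4 := by
          have : 0 < τ₀ := by linarith
          field_simp
        linarith
    have h1 : heat (τ₀ - τ) g x ≤ D * Real.exp (σ ^ 2 * τ₀ / 4 + ε * τ₀) :=
      heat_le hgc hgC hgsup _ _
    have h0 : 0 ≤ heat (τ₀ - τ) g x := heat_nonneg hg0 _ _
    have h2 : θ * heat (τ₀ - τ) g x ≤ heat (τ₀ - τ) g x := by
      have := mul_le_mul_of_nonneg_right hθ1 h0
      linarith
    have h3 : σ ^ 2 * τ₀ / 4 + ε * τ₀ ≤ q * ‖x - y‖ / (4 * N) := by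
      have hσ2 : σ ^ 2 = κ / (16 * N ^ 2) := by rw [hσ, div_pow, mul_pow, hq2]; norm_num
      have h5 : κ / (16 * (N : ℝ) ^ 2) ≤ κ / (16 * N) := by
        apply div_le_div_of_nonneg_left hκ.le (by positivity)
        nlinarith
      have h6 : σ ^ 2 * τ₀ / 4 + ε * τ₀ ≤ κ / (16 * N) * τ₀ / 4 + κ / (16 * N) * τ₀ := by
        have hτ₀ : 0 < τ₀ := by linarith
        have := mul_le_mul_of_nonneg_right hεκ hτ₀.le
        have := mul_le_mul_of_nonneg_right (hσ2 ▸ h5) hτ₀.le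
        linarith
      have h7 : κ / (16 * N) * τ₀ / 4 + κ / (16 * N) * τ₀ ≤ κ / (4 * N) * τ := by
        have h8 : κ / (16 * N) * τ₀ ≤ κ / (16 * N) * (2 * τ) :=
          mul_le_mul_of_nonneg_left h.le (by positivity)
        have h9 : κ / (4 * N) * τ = κ / (16 * N) * (4 * τ) := by field_simp; ring
        rw [h9]
        have h10 : 0 < κ / (16 * N) * τ := by positivity
        nlinarith
      have h11 : κ / (4 * N) * τ ≤ q * ‖x - y‖ / (4 * N) := by
        rw [div_mul_eq_mul_div]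
        apply div_le_div_of_nonneg_right _ (by positivity)
        rw [← hq2]; nlinarith
      linarith
    calc θ * heat (τ₀ - τ) g x ≤ D * Real.exp (σ ^ 2 * τ₀ / 4 + ε * τ₀) := h2.trans h1
      _ ≤ (2 ^ ((N : ℝ) / 2) * C₂) * Real.exp (q * ‖x - y‖ / (4 * N)) := by
          apply mul_le_mul _ (Real.exp_le_exp.2 h3) (Real.exp_pos _).le (by positivity)
          nlinarith

theorem cone_mass (hf : IsKPP f) (hv : IsEntire N f v) (hpos : ∀ t x, 0 < v t x) (hN : 0 < N)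
    {b δ ε T τ₀ : ℝ} (hb : 0 < b) (hbκ : b ≤ kap f) (hδ : δ ∈ Ioo (0 : ℝ) 1)
    (hfb : ∀ r, 0 ≤ r → r ≤ δ → b ≤ derivWithin f (Icc 0 1) r) (hε : 0 < ε)
    (hεκ : ε ≤ kap f / (16 * N)) {y : Sp N}
    (hfar : ∀ τ, T ≤ τ → ∀ x,
      v (-τ) x ≤ Real.exp (-kap f * τ + ‖x - y‖ ^ 2 / (4 * τ) + ε * τ))
    (hT : 0 < T) (hTδ : Real.exp (-(kap f / 2) * T) < δ)
    (hTN : 2 * N * 2 ^ ((N : ℝ) / 2) * Real.exp (-(kap f / (4 * N)) * T) ≤ 1 / 4)
    (hτ₀ : T < τ₀) {χ : Sp N → ℝ} (hχc : Continuous χ) (hχ0 : ∀ z, 0 ≤ χ z)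
    (hχ1 : ∀ z, χ z ≤ 1) (hχs : ∀ z, √(kap f) / (4 * N) * τ₀ < ‖z - y‖ → χ z = 0) :
    heat (τ₀ - T) (fun z => χ z * Zb f b δ v (-τ₀) z) y ≤ 4 * δ⁻¹ * Real.exp (ε * T) := by
  set κ := kap f with hκdef
  have hκ : 0 < κ := hf.kap_pos
  have hN' : (0 : ℝ) < N := by exact_mod_cast hN
  have hN1 : (1 : ℝ) ≤ N := by exact_mod_cast hN
  set C₂ : ℝ := 4 * δ⁻¹ * Real.exp (ε * T) with hC₂
  have hδinv : 0 < δ⁻¹ := inv_pos.2 hδ.1
  have hC₂pos : 0 < C₂ := by positivity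
  have hexp1 : 1 ≤ Real.exp (ε * T) := Real.one_le_exp (by positivity)
  have hDC : δ⁻¹ ≤ C₂ := by rw [hC₂]; nlinarith
  set g : Sp N → ℝ := fun z => χ z * Zb f b δ v (-τ₀) z with hg
  have hZc := Zb_continuous hf hv hpos b hδ
  have hgc : Continuous g :=
    hχc.mul (hZc.comp (by fun_prop : Continuous fun z : Sp N => ((-τ₀ : ℝ), z)))
  have hg0 : ∀ z, 0 ≤ g z := fun z => mul_nonneg (hχ0 z) (Zb_pos _ _ _ _ _).le
  have hgZ : ∀ z, g z ≤ Zb f b δ v (-τ₀) z := fun z => by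
    have := mul_le_mul_of_nonneg_right (hχ1 z) (Zb_pos (f := f) b δ v (-τ₀) z).le
    linarith
  have hgC : ∀ z, |g z| ≤ Real.exp (-b * -τ₀) := fun z => by
    rw [abs_of_nonneg (hg0 z)]
    exact (hgZ z).trans (Zb_le_exp hf hpos hb.le hδ _ _)
  have hgs : ∀ z, √κ / (4 * N) * τ₀ < ‖z - y‖ → g z = 0 := fun z hz => by
    simp only [hg]; rw [hχs z hz, zero_mul]
  have hτ₀pos : 0 < τ₀ := by linarith
  have hgD : ∀ z, g z ≤ δ⁻¹ * Real.exp (‖z - y‖ ^ 2 / (4 * τ₀) + ε * τ₀) := fun z =>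
    (hgZ z).trans (Zb_le_far hf hpos hb hbκ hδ hτ₀pos hε (hfar τ₀ hτ₀.le z))
  by_contra hcon
  push Not at hcon
  set M : ℝ := heat (τ₀ - T) g y with hM
  have hMpos : 0 < M := hC₂pos.trans hcon
  set θ : ℝ := C₂ / M with hθ
  have hθ0 : 0 < θ := by positivity
  have hθ1 : θ ≤ 1 := by rw [hθ, div_le_one hMpos]; exact hcon.le
  have hmass : θ * heat (τ₀ - T) g y = C₂ := by rw [hθ, ← hM]; field_simp
  set A : ℝ := 2 ^ ((N : ℝ) / 2) * C₂ with hA
  set l : ℝ := √κ / (2 * √N) with hl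
  have hl2 : l ^ 2 = κ / (4 * N) := by
    rw [hl, div_pow, mul_pow, Real.sq_sqrt hκ.le, Real.sq_sqrt hN'.le]; norm_num
  have hA0 : 0 ≤ A := by positivity
  have hmain := maxPrinciple (N := N) (s := -τ₀) (T := -T) (Λ := 0)
    (B := Real.exp (-b * -τ₀))
    (fun t x => θ * heat (t + τ₀) g x - pfun A l y t x - Zb f b δ v t x) ?_ ?_ ?_ ?_
  · -- conclusion
    have h1 := hmain (-T) ⟨by linarith, le_rfl⟩ y
    have e1 : -T + τ₀ = τ₀ - T := by ring
    rw [e1, hmass] at h1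
    have h2 : pfun A l y (-T) y ≤ C₂ / 4 := by
      have h3 : pfun A l y (-T) y = (2 * N * 2 ^ ((N : ℝ) / 2) *
          Real.exp (-(κ / (4 * N)) * T)) * C₂ := by
        unfold pfun
        rw [hl2, hA]
        simp only [sub_self, PiLp.zero_apply, mul_zero, neg_zero, Real.exp_zero, Finset.sum_const,
          Finset.card_univ, Fintype.card_fin, nsmul_eq_mul]
        have : κ / (4 * (N : ℝ)) * -T = -(κ / (4 * N)) * T := by ring
        rw [this]; ring
      rw [h3]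
      have := mul_le_mul_of_nonneg_right hTN hC₂pos.le
      linarith
    have h4 : Zb f b δ v (-T) y ≤ C₂ / 4 := by
      have h5 := Zb_le_far hf hpos hb hbκ hδ hT hε (hfar T le_rfl y)
      rw [sub_self, norm_zero] at h5
      have h6 : (0 : ℝ) ^ 2 / (4 * T) + ε * T = ε * T := by norm_num
      rw [h6] at h5
      have h7 : C₂ / 4 = δ⁻¹ * Real.exp (ε * T) := by rw [hC₂]; ring
      rw [h7]; exact h5
    linarith
  · -- continuity
    refine Continuous.continuousOn ?_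
    have h1 : Continuous fun p : ℝ × Sp N => heat (p.1 + τ₀) g p.2 :=
      (heat_continuous hgc hgC).comp
        (by fun_prop : Continuous fun p : ℝ × Sp N => (p.1 + τ₀, p.2))
    exact ((continuous_const.mul h1).sub (pfun_continuous A l y)).sub hZc
  · intro t _ x
    have h1 : heat (t + τ₀) g x ≤ Real.exp (-b * -τ₀) :=
      heat_le hgc hgC (fun z => (abs_le.1 (hgC z)).2) _ _
    have h0 : 0 ≤ heat (t + τ₀) g x := heat_nonneg hg0 _ _
    have h2 := pfun_nonneg (l := l) hA0 y t x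
    have h3 := Zb_pos (f := f) b δ v t x
    nlinarith
  · intro x
    have e1 : -τ₀ + τ₀ = 0 := by ring
    rw [e1, heat_zero]
    have h2 := pfun_nonneg (l := l) hA0 y (-τ₀) x
    have h3 := hgZ x
    have h4 := hg0 x
    nlinarith
  · intro t0 ht0 x0 hD
    set τ : ℝ := -t0 with hτ
    have ht0τ : t0 = -τ := by rw [hτ]; ring
    have hTτ : T ≤ τ := by rw [hτ]; linarith [ht0.2]
    have hττ₀ : τ < τ₀ := by rw [hτ]; linarith [ht0.1]
    have hτpos : 0 < τ := by linarith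
    -- inside the cone
    have hin : ‖x0 - y‖ < √κ * τ := by
      by_contra hx
      push Not at hx
      have h1 := cone_outside (g := g) hN hκ hεκ hT hTτ hττ₀ hgc hgC hg0 hgs hgD hθ0.le hθ1
        hδinv.le hDC hmass hx
      have e1 : t0 + τ₀ = τ₀ - τ := by rw [hτ]; ring
      rw [e1, ht0τ] at hD
      have h2 := Zb_pos (f := f) b δ v (-τ) x0
      linarith
    have hvlt : v t0 x0 < δ := by
      have h1 := hfar τ hTτ x0
      rw [← ht0τ] at h1
      refine lt_of_le_of_lt (h1.trans (Real.exp_le_exp.2 ?_)) hTδ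
      have h2 : ‖x0 - y‖ ^ 2 / (4 * τ) ≤ κ * τ / 4 := by
        have h3 : ‖x0 - y‖ ^ 2 ≤ κ * τ ^ 2 := by
          have h4 : ‖x0 - y‖ ^ 2 ≤ (√κ * τ) ^ 2 := pow_le_pow_left₀ (norm_nonneg _) hin.le 2
          rwa [mul_pow, Real.sq_sqrt hκ.le] at h4
        rw [div_le_iff₀ (by positivity)]
        nlinarith
      have h5 : ε * τ ≤ κ / 16 * τ := by
        apply mul_le_mul_of_nonneg_right _ hτpos.le
        refine hεκ.trans ?_
        apply div_le_div_of_nonneg_left hκ.le (by norm_num)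
        linarith
      have h6 : κ * T ≤ κ * τ := mul_le_mul_of_nonneg_left hTτ hκ.le
      have h7 : 0 < κ * τ := by positivity
      linarith
    set v0 : ℝ := v t0 x0 with hv0
    have hv0pos : 0 < v0 := hpos _ _
    set φ : ℝ → ℝ := fun r => Real.exp (b * Hf f δ r) with hφ
    set m : ℝ := b * Real.exp (b * Hf f δ v0) / f v0 with hm
    have hanti := psi_anti hf hb.le hδ hδ.2 hfb
    have htan : ∀ r ∈ Ioc (0 : ℝ) δ, φ r ≤ φ v0 + m * (r - v0) := fun r hr =>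
      tangent_of_anti (φ := φ) (ψ := fun r => b * Real.exp (b * Hf f δ r) / f r)
        (fun r hr => exp_Hf_hasDerivAt hf b hδ ⟨hr.1, lt_of_le_of_lt hr.2 hδ.2⟩)
        hanti ⟨hv0pos, hvlt.le⟩ hr
    have hfv0 : 0 < f v0 := hf.pos v0 hv0pos (hvlt.trans hδ.2)
    have hmf : m * f v0 = b * φ v0 := by rw [hm, hφ]; field_simp
    obtain ⟨dv, pv, mv, hdv, hJv, heqv⟩ := hv.jets t0 x0
    obtain ⟨dh, ph, mh, hdh, hJh, heqh⟩ := heat_jets hgc hgC (by linarith [ht0.1] : 0 < t0 + τ₀) x0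
    have hZ0 : Zb f b δ v t0 x0 = Real.exp (-b * t0) * φ v0 := by
      unfold Zb; rw [← hv0, min_eq_left hvlt.le]
    have hZle : ∀ t x, v t x < δ →
        Zb f b δ v t x ≤ Real.exp (-b * t) * (φ v0 + m * (v t x - v0)) := by
      intro t x hlt
      unfold Zb
      rw [min_eq_left hlt.le]
      exact mul_le_mul_of_nonneg_left (htan _ ⟨hpos _ _, hlt.le⟩) (Real.exp_pos _).le
    set k : ℝ := Real.exp (-b * t0) with hk
    refine ⟨fun t => θ * heat (t + τ₀) g x0 - pfun A l y t x0 -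
        Real.exp (-b * t) * (φ v0 + m * (v t x0 - v0)),
      θ * dh - l ^ 2 * pfun A l y t0 x0 - (k * (-b) * φ v0 + k * (m * dv)),
      fun x => θ * heat (t0 + τ₀) g x - pfun A l y t0 x - k * (φ v0 + m * (v t0 x - v0)),
      fun i => θ * ph i - (A * Real.exp (l ^ 2 * t0) * (l * (Real.exp (l * (x0 - y) i) -
        Real.exp (-(l * (x0 - y) i))))) - k * (m * pv i),
      fun i => θ * mh i - (A * Real.exp (l ^ 2 * t0) * (l ^ 2 * (Real.exp (l * (x0 - y) i) +
        Real.exp (-(l * (x0 - y) i))))) - k * (m * mv i), ?_, ?_, ?_, ?_, ?_, ?_, ?_⟩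
    · simp only []
      rw [hZ0, ← hv0]; ring
    · have hct : Tendsto (fun t => v t x0) (𝓝[<] t0) (𝓝 v0) :=
        (hdv.continuousAt.tendsto).mono_left nhdsWithin_le_nhds
      filter_upwards [hct.eventually (gt_mem_nhds hvlt)] with t ht
      have := hZle t x0 ht
      linarith
    · have h1 : HasDerivAt (fun t : ℝ => -b * t) (-b) t0 := by
        simpa using (hasDerivAt_id' t0).const_mul (-b)
      have h2 : HasDerivAt (fun t => φ v0 + m * (v t x0 - v0)) (m * dv) t0 :=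
        ((hdv.sub_const _).const_mul m).const_add _
      have h3 : HasDerivAt (fun t => heat (t + τ₀) g x0) dh t0 := hdh.comp_add_const t0 τ₀
      have h4 := ((h3.const_mul θ).fun_sub (pfun_time A l y t0 x0)).fun_sub (h1.exp.fun_mul h2)
      refine h4.congr_deriv ?_
      simp only [← hv0, sub_self, mul_zero, add_zero, ← hk]
    · simp only []
      rw [hZ0, ← hv0]; ring
    · have hcx : Tendsto (fun x => v t0 x) (𝓝 x0) (𝓝 v0) := (hv.cont_space t0).tendsto x0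
      filter_upwards [hcx.eventually (gt_mem_nhds hvlt)] with x hx
      have := hZle t0 x hx
      linarith
    · intro i
      have h1 := ((hJv i).const_mul m).const_mul k
      have h2 := ((((hJh i).const_mul θ).sub (pfun_space A l y t0 x0 i)).sub h1).add
        (J1.const (-(k * (φ v0 - m * v0))))
      refine (h2.congr fun h => ?_).congr' (by ring) (by ring)
      ring
    · rw [Finset.sum_sub_distrib, Finset.sum_sub_distrib, pfun_space_sum, ← Finset.mul_sum,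
        ← Finset.mul_sum, ← Finset.mul_sum, ← heqh]
      have h1 : ∑ i, mv i = dv - f v0 := by linarith
      rw [h1]
      have h2 : k * (m * (dv - f v0)) = k * (m * dv) - k * (b * φ v0) := by
        rw [← hmf]; ring
      rw [h2]
      linarith

end Pool.Agent.KPP
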