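import Mathlib

/-!
# Entire solutions of Fisher-KPP equations (MP_75f8eb_an): definitions
-/

namespace Pool.Agent.KPP

open Set

/-- Fisher-KPP reaction terms: `f ∈ C¹([0,1])`, `f(0) = f(1) = 0`, `f'(0) > 0` and
`0 < f(s) ≤ f'(0) s` for `0 < s < 1`. -/
structure IsKPP (f : ℝ → ℝ) : Prop where
  smooth : ContDiffOn ℝ 1 f (Icc 0 1)
  zero : f 0 = 0
  one : f 1 = 0
  slope_pos : 0 < derivWithin f (Icc 0 1) 0
  pos : ∀ s, 0 < s → s < 1 → 0 < f s
  le : ∀ s, 0 < s → s < 1 → f s ≤ derivWithin f (Icc 0 1) 0 * s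

/-- Entire (classical) solutions `v : ℝ × ℝ^N → [0,1]` of `∂ₜ v = Δ v + f(v)`: `v` is continuous,
differentiable in time and twice continuously differentiable in space, and the equation holds at
every point. -/
structure IsEntire (N : ℕ) (f : ℝ → ℝ) (v : ℝ → EuclideanSpace ℝ (Fin N) → ℝ) : Prop where
  range : ∀ t x, v t x ∈ Icc (0 : ℝ) 1
  cont : Continuous fun p : ℝ × EuclideanSpace ℝ (Fin N) => v p.1 p.2
  diff_time : ∀ x, Differentiable ℝ fun t => v t x
  smooth_space : ∀ t, ContDiff ℝ 2 (v t)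
  eq : ∀ t x, deriv (fun s => v s x) t = Laplacian.laplacian (v t) x + f (v t x)

/-- `w` is quasi-concave: every upper level set `{w > l}` is convex. -/
def IsQuasiConcave {N : ℕ} (w : EuclideanSpace ℝ (Fin N) → ℝ) : Prop :=
  ∀ l : ℝ, Convex ℝ {x | l < w x}

/-- `w` is one-dimensional: `w(x) = g(x · e)` for a unit vector `e` and a function `g : ℝ → ℝ`. -/
def IsOneDimensional {N : ℕ} (w : EuclideanSpace ℝ (Fin N) → ℝ) : Prop :=
  ∃ e : EuclideanSpace ℝ (Fin N), ‖e‖ = 1 ∧ ∃ g : ℝ → ℝ, ∀ x, w x = g (inner ℝ x e)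

end Pool.Agent.KPP
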