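import Pool.Agent.Lib.MP_75f8eb_an.Spread

/-!
# Exponential smallness far in the past
-/

namespace Pool.Agent.KPP

open Set Filter Topology MeasureTheory

variable {N : ℕ} {f : ℝ → ℝ} {v : ℝ → Sp N → ℝ}

theorem IsKPP.hasDerivAt (hf : IsKPP f) {r : ℝ} (h0 : 0 < r) (h1 : r < 1) :
    HasDerivAt f (derivWithin f (Icc 0 1) r) r := by
  have h2 := (hf.smooth.differentiableOn one_ne_zero r ⟨h0.le, h1.le⟩).hasDerivWithinAt
  exact h2.hasDerivAt (Icc_mem_nhds h0 h1)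

theorem IsKPP.near_zero (hf : IsKPP f) {a b : ℝ} (hb : b < kap f) (ha : kap f < a) :
    ∃ δ : ℝ, 0 < δ ∧ δ < 1 ∧ (∀ r, 0 ≤ r → r ≤ δ → b ≤ derivWithin f (Icc 0 1) r ∧
      derivWithin f (Icc 0 1) r ≤ a) ∧
      ∀ r r', 0 ≤ r' → r' ≤ r → r ≤ δ → b * (r - r') ≤ f r - f r' ∧ f r - f r' ≤ a * (r - r') := by
  have hc : ContinuousOn (derivWithin f (Icc 0 1)) (Icc 0 1) :=
    hf.smooth.continuousOn_derivWithin (uniqueDiffOn_Icc one_pos) le_rfl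
  have h0 := hc 0 (by simp)
  have h1 : ∀ᶠ r in 𝓝[Icc (0 : ℝ) 1] 0, derivWithin f (Icc 0 1) r ∈ Ioo b a :=
    h0.eventually (Ioo_mem_nhds hb ha)
  rw [eventually_nhdsWithin_iff] at h1
  obtain ⟨e, he, hball⟩ := Metric.eventually_nhds_iff.1 h1
  set δ : ℝ := min (e / 2) (1 / 2) with hδ
  have hδ0 : 0 < δ := lt_min (by linarith) (by norm_num)
  have hδ1 : δ < 1 := lt_of_le_of_lt (min_le_right _ _) (by norm_num)
  have hδe : δ < e := lt_of_le_of_lt (min_le_left _ _) (by linarith)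
  have hder : ∀ r, 0 ≤ r → r ≤ δ → b ≤ derivWithin f (Icc 0 1) r ∧
      derivWithin f (Icc 0 1) r ≤ a := by
    intro r hr0 hr1
    have h2 := hball (y := r) (by rw [Real.dist_eq, sub_zero, abs_of_nonneg hr0]; linarith)
      ⟨hr0, by linarith⟩
    exact ⟨h2.1.le, h2.2.le⟩
  refine ⟨δ, hδ0, hδ1, hder, fun r r' hr' hle hr => ?_⟩
  rcases eq_or_lt_of_le hle with h | h
  · rw [h]; simp
  · obtain ⟨c, hc', hcs⟩ := exists_hasDerivAt_eq_slope f (derivWithin f (Icc 0 1)) h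
      (hf.smooth.continuousOn.mono (Icc_subset_Icc hr' (by linarith)))
      (fun x hx => hf.hasDerivAt (by linarith [hx.1]) (by linarith [hx.2]))
    have h3 := hder c (by linarith [hc'.1]) (by linarith [hc'.2])
    have h4 : 0 < r - r' := sub_pos.2 h
    have h5 : f r - f r' = derivWithin f (Icc 0 1) c * (r - r') := by
      rw [hcs]; field_simp
    rw [h5]
    exact ⟨mul_le_mul_of_nonneg_right h3.1 h4.le, mul_le_mul_of_nonneg_right h3.2 h4.le⟩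

theorem IsKPP.slope (hf : IsKPP f) {b : ℝ} (hb : b < kap f) :
    ∃ δ : ℝ, 0 < δ ∧ δ < 1 ∧ ∀ r, 0 ≤ r → r ≤ δ → b * r ≤ f r := by
  obtain ⟨δ, h0, h1, _, h⟩ := hf.near_zero hb (lt_add_one (kap f))
  refine ⟨δ, h0, h1, fun r hr0 hr1 => ?_⟩
  have := (h r 0 le_rfl hr0 hr1).1
  rw [hf.zero] at this
  linarith

theorem dist_num {κ sκ T₁ R₁ τ θ d d' : ℝ} (hsκ2 : sκ ^ 2 = κ) (hsκ0 : 0 < sκ) (hT₁ : 0 < T₁)
    (hR₁ : 0 < R₁) (hθ : θ = τ - 1 - T₁) (hτ : 2 * (1 + T₁) + 1 ≤ τ) (hd0 : 0 ≤ d)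
    (hd3 : d ≤ 2 * sκ * τ) (hd'0 : 0 ≤ d') (hd'1 : d' ≤ d + R₁) :
    d' ^ 2 / (4 * θ) ≤ d ^ 2 / (4 * τ) + (2 * κ * (1 + T₁) + 2 * sκ * R₁ + R₁ ^ 2 / 2) := by
  have hτ0 : 0 < τ := by linarith
  have hθ0 : 0 < θ := by linarith
  have hκ0 : 0 < κ := by rw [← hsκ2]; positivity
  rw [div_le_iff₀ (by positivity)]
  have h1 : d' ^ 2 ≤ d ^ 2 + 4 * sκ * R₁ * τ + R₁ ^ 2 := by
    have h1a : d' ^ 2 ≤ (d + R₁) ^ 2 := pow_le_pow_left₀ hd'0 hd'1 2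
    have h1b : 2 * d * R₁ ≤ 2 * (2 * sκ * τ) * R₁ := by gcongr
    have h1c : (d + R₁) ^ 2 = d ^ 2 + 2 * d * R₁ + R₁ ^ 2 := by ring
    have h1d : 2 * (2 * sκ * τ) * R₁ = 4 * sκ * R₁ * τ := by ring
    linarith
  set K₁ := 2 * κ * (1 + T₁) + 2 * sκ * R₁ + R₁ ^ 2 / 2 with hK₁
  have hK0 : 0 ≤ K₁ := by positivity
  have h2 : (d ^ 2 / (4 * τ) + K₁) * (4 * θ) = d ^ 2 * (θ / τ) + 4 * θ * K₁ := by
    field_simp
  rw [h2]
  have h3 : θ / τ = 1 - (1 + T₁) / τ := by rw [hθ]; field_simp; ring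
  have h5 : d ^ 2 ≤ 4 * κ * τ ^ 2 := by
    have h6 : d ^ 2 ≤ (2 * sκ * τ) ^ 2 := pow_le_pow_left₀ hd0 hd3 2
    have h7 : (2 * sκ * τ) ^ 2 = 4 * κ * τ ^ 2 := by rw [mul_pow, mul_pow, hsκ2]; ring
    linarith
  have h4 : d ^ 2 * ((1 + T₁) / τ) ≤ 4 * κ * (1 + T₁) * τ := by
    calc d ^ 2 * ((1 + T₁) / τ) ≤ (4 * κ * τ ^ 2) * ((1 + T₁) / τ) :=
          mul_le_mul_of_nonneg_right h5 (by positivity)
      _ = _ := by field_simp
  have h7 : 2 * τ * K₁ ≤ 4 * θ * K₁ := mul_le_mul_of_nonneg_right (by linarith) hK0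
  have h8 : 2 * τ * K₁ = 4 * κ * (1 + T₁) * τ + 4 * sκ * R₁ * τ + R₁ ^ 2 * τ := by
    rw [hK₁]; ring
  have h9 : R₁ ^ 2 * 1 ≤ R₁ ^ 2 * τ := mul_le_mul_of_nonneg_left (by linarith) (sq_nonneg _)
  have h10 : d ^ 2 * (1 - (1 + T₁) / τ) = d ^ 2 - d ^ 2 * ((1 + T₁) / τ) := by ring
  rw [h3, h10]
  linarith

/-- **Far-past bound.** If `v(0,y) ≤ l < 1`, then for `τ` large
`v(-τ,x) ≤ exp(-κτ + |x-y|²/(4τ) + ετ)`. -/
theorem far_bound (hf : IsKPP f) {l ε : ℝ} (hl : l < 1) (hε : 0 < ε) :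
    ∃ S : ℝ, 0 < S ∧ ∀ (v : ℝ → Sp N → ℝ), IsEntire N f v → ∀ y, v 0 y ≤ l → ∀ τ, S ≤ τ → ∀ x,
      v (-τ) x ≤ Real.exp (-kap f * τ + ‖x - y‖ ^ 2 / (4 * τ) + ε * τ) := by
  set κ := kap f with hκ
  have hκpos : 0 < κ := hf.kap_pos
  obtain ⟨δ', hδ'0, hδ'1, hδ'⟩ := hf.slope (b := κ - ε / 8) (by linarith)
  set L : ℝ := 8 * (N + 1) / ε with hL
  have hLpos : 0 < L := by positivity
  have hNL : (N : ℝ) / L ≤ ε / 8 := by
    rw [div_le_iff₀ hLpos, hL]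
    have : ε / 8 * (8 * (N + 1) / ε) = N + 1 := by field_simp
    rw [this]; linarith
  set R : ℝ := √((2 * N + 4) * L) with hR
  have hR0 : 0 ≤ R := Real.sqrt_nonneg _
  have hR2 : R ^ 2 = (2 * N + 4) * L := Real.sq_sqrt (by positivity)
  set sκ : ℝ := √κ with hsκ
  have hsκ2 : sκ ^ 2 = κ := Real.sq_sqrt hκpos.le
  have hsκ0 : 0 < sκ := Real.sqrt_pos.2 hκpos
  set δ₁ : ℝ := δ' * Real.exp (-(2 * sκ * R / 2)) / 2 with hδ₁
  have hδ₁0 : 0 < δ₁ := by positivity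
  have hδ₁1 : δ₁ < 1 := by
    have h1 : Real.exp (-(2 * sκ * R / 2)) ≤ 1 := by
      apply Real.exp_le_one_iff.2
      have : 0 ≤ 2 * sκ * R / 2 := by positivity
      linarith
    have h2 : δ' * Real.exp (-(2 * sκ * R / 2)) ≤ 1 * 1 :=
      mul_le_mul hδ'1.le h1 (Real.exp_pos _).le one_pos.le
    rw [hδ₁]; linarith
  obtain ⟨T₁, hT₁, R₁, hR₁, hHT⟩ := hair_trigger (N := N) hf hδ₁0 hδ₁1 hl
  set H : ℝ := κ + N / 2 * Real.log 2 + R ^ 2 / 4 with hH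
  have hHeq : Real.exp H = Real.exp κ * 2 ^ ((N : ℝ) / 2) * Real.exp (R ^ 2 / 4) := by
    rw [hH, Real.exp_add, Real.exp_add, Real.rpow_def_of_pos two_pos, mul_comm (Real.log 2)]
  have hH0 : 0 ≤ H := by
    have : 0 ≤ Real.log 2 := Real.log_nonneg one_le_two
    positivity
  set K₁ : ℝ := 2 * κ * (1 + T₁) + 2 * sκ * R₁ + R₁ ^ 2 / 2 with hK₁
  have hK₁0 : 0 ≤ K₁ := by positivity
  set S : ℝ := 2 * (1 + T₁) + 1 + 4 / (3 * ε) * (H + κ * (1 + T₁) + K₁) with hS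
  have hSbig : 2 * (1 + T₁) + 1 ≤ S := by
    have : 0 ≤ 4 / (3 * ε) * (H + κ * (1 + T₁) + K₁) := by positivity
    linarith
  have hSε : H + κ * (1 + T₁) + K₁ ≤ 3 * ε / 4 * S := by
    have h1 : 4 / (3 * ε) * (H + κ * (1 + T₁) + K₁) ≤ S := by linarith
    have h2 := mul_le_mul_of_nonneg_left h1 (by positivity : 0 ≤ 3 * ε / 4)
    have h3 : 3 * ε / 4 * (4 / (3 * ε) * (H + κ * (1 + T₁) + K₁)) = H + κ * (1 + T₁) + K₁ := by
      field_simp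
    linarith
  refine ⟨S, by linarith, fun v hv y hy τ hτS x => ?_⟩
  have hτ1 : 1 ≤ τ := by linarith
  have hτ0 : 0 < τ := by linarith
  have hτε : H + κ * (1 + T₁) + K₁ ≤ 3 * ε / 4 * τ :=
    hSε.trans (mul_le_mul_of_nonneg_left hτS (by positivity))
  by_contra hcon
  push Not at hcon
  set d : ℝ := ‖x - y‖ with hd
  have hd0 : 0 ≤ d := norm_nonneg _
  -- the distance bound
  have hexp_neg : -κ * τ + d ^ 2 / (4 * τ) + ε * τ < 0 := by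
    have h1 := lt_of_lt_of_le hcon (hv.le_one (-τ) x)
    exact Real.exp_lt_one_iff.1 h1
  have hd2 : d ^ 2 / (4 * τ) ≤ (κ - ε) * τ := by linarith
  have hd3 : d ≤ 2 * sκ * τ := by
    have h1 : d ^ 2 ≤ (2 * sκ * τ) ^ 2 := by
      rw [div_le_iff₀ (by positivity)] at hd2
      have h2 : (2 * sκ * τ) ^ 2 = 4 * κ * τ ^ 2 := by
        rw [mul_pow, mul_pow, hsκ2]; ring
      have h3 : (κ - ε) * τ * (4 * τ) = 4 * κ * τ ^ 2 - 4 * ε * τ ^ 2 := by ring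
      have h4 : 0 ≤ 4 * ε * τ ^ 2 := by positivity
      rw [h2]; linarith
    exact le_of_sq_le_sq h1 (by positivity)
  set θ : ℝ := τ - 1 - T₁ with hθ
  have hθτ : τ / 2 ≤ θ := by linarith
  have hθ0 : 0 < θ := by linarith
  -- apply hair trigger
  have hht := hHT v hv (-T₁) y ?_
  · rw [neg_add_cancel] at hht
    linarith
  intro y' hy'
  set d' : ℝ := ‖y' - x‖ with hd'
  have hd'0 : 0 ≤ d' := norm_nonneg _
  have hd'1 : d' ≤ d + R₁ := by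
    have h1 : y' - x = (y' - y) - (x - y) := by abel
    rw [hd', h1]
    exact (norm_sub_le _ _).trans (by linarith)
  have hd'2 : d' ^ 2 / (4 * θ) ≤ d ^ 2 / (4 * τ) + K₁ :=
    dist_num hsκ2 hsκ0 hT₁ hR₁ hθ (by linarith) hd0 hd3 hd'0 hd'1
  set w : Sp N := θ⁻¹ • (y' - x) with hw
  have hwn : ‖w‖ ^ 2 = d' ^ 2 / θ ^ 2 := by
    rw [hw, norm_smul, Real.norm_eq_abs, mul_pow, sq_abs, ← hd']
    field_simp
  set ρ : ℝ := κ - ε / 4 - ‖w‖ ^ 2 / 4 with hρ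
  have hwθ : ‖w‖ ^ 2 / 4 * θ = d' ^ 2 / (4 * θ) := by
    rw [hwn]; field_simp
  have hρθ : (κ - ε / 4) * θ - d' ^ 2 / (4 * θ) = ρ * θ := by
    rw [hρ, ← hwθ]; ring
  have hρ0' : 0 ≤ ρ * θ := by
    rw [← hρθ]
    have h1 : d' ^ 2 / (4 * θ) ≤ (κ - ε) * τ + K₁ := by linarith
    have h2 : (κ - ε / 4) * θ = κ * τ - ε / 4 * τ - κ * (1 + T₁) + ε / 4 * (1 + T₁) := by
      rw [hθ]; ring
    have h3 : 0 ≤ ε / 4 * (1 + T₁) := by positivity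
    have h4 : (κ - ε) * τ = κ * τ - ε * τ := by ring
    have h5 : 3 * ε / 4 * τ = ε * τ - ε / 4 * τ := by ring
    linarith
  have hρ0 : 0 ≤ ρ := nonneg_of_mul_nonneg_left hρ0' hθ0
  have hw2 : ‖w‖ ≤ 2 * sκ := by
    have h1 : ‖w‖ ^ 2 ≤ (2 * sκ) ^ 2 := by
      rw [mul_pow, hsκ2]; linarith
    exact le_of_sq_le_sq h1 (by positivity)
  -- lower bound at time -τ+1
  set A : ℝ := Real.exp (-H + (-κ * τ + d ^ 2 / (4 * τ) + ε * τ)) with hA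
  have hAle : ∀ x', ‖x' - x‖ ^ 2 ≤ (2 * N + 4) * L → A ≤ v (-τ + 1) x' := by
    intro x' hx'
    rw [← hR2] at hx'
    have h1 := harnack hf hv (-τ) x x'
    have h2 : Real.exp (‖x - x'‖ ^ 2 / 4) ≤ Real.exp (R ^ 2 / 4) := by
      apply Real.exp_le_exp.2
      rw [norm_sub_rev]; linarith
    have h3 : v (-τ) x ≤ Real.exp H * v (-τ + 1) x' := by
      rw [hHeq]
      refine h1.trans ?_
      have h4 := hv.nonneg (-τ + 1) x'
      gcongr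
    have h5 : Real.exp (-κ * τ + d ^ 2 / (4 * τ) + ε * τ) ≤ Real.exp H * v (-τ + 1) x' := by
      linarith
    rw [hA, Real.exp_add, Real.exp_neg]
    rw [inv_mul_le_iff₀ (Real.exp_pos _)]
    exact h5
  have hmb := moving_ball hf hv (κ' := κ - ε / 8) (δ' := δ') (L := L) (ρ := ρ) (A := A)
    (s := -τ + 1) (T := -T₁) hδ'0 hδ'1.le hδ' hLpos (by linarith) w x hρ0 (by rw [hρ]; linarith)
    hAle ?_
  · have e1 : -T₁ - (-τ + 1) = θ := by rw [hθ]; ring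
    have e2 : x + θ • w = y' := by
      rw [hw, smul_smul, mul_inv_cancel₀ hθ0.ne', one_smul]; abel
    rw [e1, e2] at hmb
    refine le_trans ?_ hmb
    rw [hδ₁]
    have h1 : Real.exp (-(2 * sκ * R / 2)) ≤ Real.exp (-(‖w‖ * √((2 * N + 4) * L) / 2)) := by
      apply Real.exp_le_exp.2
      have : ‖w‖ * R ≤ 2 * sκ * R := mul_le_mul_of_nonneg_right hw2 hR0
      rw [← hR]; linarith
    have h2 := mul_le_mul_of_nonneg_left h1 hδ'0.le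
    linarith
  · have e1 : -T₁ - (-τ + 1) = θ := by rw [hθ]; ring
    rw [e1, hA, ← Real.exp_add]
    refine hδ'1.le.trans (Real.one_le_exp ?_)
    rw [← hρθ]
    have h2 : (κ - ε / 4) * θ = κ * τ - ε / 4 * τ - κ * (1 + T₁) + ε / 4 * (1 + T₁) := by
      rw [hθ]; ring
    have h3 : 0 ≤ ε / 4 * (1 + T₁) := by positivity
    have h5 : 3 * ε / 4 * τ = ε * τ - ε / 4 * τ := by ring
    linarith

end Pool.Agent.KPP
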