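import Pool.Agent.Lib.MP_75f8eb_an.Transform

/-!
# Liouville property: small solutions in the past with `H(v) - t` bounded above are constant
-/

namespace Pool.Agent.KPP

open Set Filter Topology MeasureTheory

variable {N : ℕ} {f : ℝ → ℝ} {v : ℝ → Sp N → ℝ}

/-- spatially constant data stay spatially constant -/
theorem const_propagate (hf : IsKPP f) (hv : IsEntire N f v) {s t : ℝ} (hst : s ≤ t)
    (h : ∀ x y, v s x = v s y) : ∀ x y, v t x = v t y := by
  have key : ∀ x y, v t x ≤ v t y := by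
    intro x y
    obtain ⟨L, hL0, hL⟩ := hf.lip
    have hmain := maxPrinciple (N := N) (s := s) (T := t) (Λ := L) (B := 1)
      (fun t x' => v t x' - v t (x' + (y - x))) ?_ ?_ ?_ ?_
    · have h1 := hmain t ⟨hst, le_rfl⟩ x
      rw [add_sub_cancel] at h1
      linarith
    · exact (hv.cont.sub (hv.cont.comp
        (by fun_prop : Continuous fun p : ℝ × Sp N => (p.1, p.2 + (y - x))))).continuousOn
    · intro t _ x'
      have h1 := hv.le_one t x'
      have h2 := hv.nonneg t (x' + (y - x))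
      linarith
    · intro x'
      rw [h x' (x' + (y - x)), sub_self]
    · intro t0 ht0 x0 hpos
      obtain ⟨d1, p1, m1, hd1, hJ1, he1⟩ := hv.jets t0 x0
      obtain ⟨d2, p2, m2, hd2, hJ2, he2⟩ := hv.jets t0 (x0 + (y - x))
      refine ⟨fun t => v t x0 - v t (x0 + (y - x)), d1 - d2,
        fun x' => v t0 x' - v t0 (x' + (y - x)), fun i => p1 i - p2 i, fun i => m1 i - m2 i,
        rfl, Eventually.of_forall fun _ => le_rfl, hd1.fun_sub hd2, rfl,
        Eventually.of_forall fun _ => le_rfl, fun i => ?_, ?_⟩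
      · refine ((hJ1 i).sub (hJ2 i)).congr fun k => ?_
        have : x0 + k • bv i + (y - x) = x0 + (y - x) + k • bv i := by abel
        simp only [this]
      · rw [Finset.sum_sub_distrib]
        have := hL (v t0 x0) (hv.range _ _) (v t0 (x0 + (y - x))) (hv.range _ _) (by linarith)
        linarith
  exact fun x y => le_antisymm (key x y) (key y x)

theorem exp_sub_heat (hf : IsKPP f) (hv : IsEntire N f v) (hpos : ∀ t x, 0 < v t x)
    {a δ δ' M T' : ℝ} (ha : 0 ≤ a) (hδ : δ ∈ Ioo (0 : ℝ) 1) (hδ'δ : δ' ≤ δ)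
    (hfa : ∀ r, 0 ≤ r → r ≤ δ' → derivWithin f (Icc 0 1) r ≤ a)
    (hsmall : ∀ τ, T' ≤ τ → ∀ x, v (-τ) x ≤ δ') {τ s : ℝ} (hτ : T' ≤ τ) (hs : 0 ≤ s) (x : Sp N) :
    Real.exp (a * (Hf f δ (v (-τ) x) + τ - M)) ≤
      heat s (fun z => Real.exp (a * (Hf f δ (v (-(τ + s)) z) + (τ + s) - M))) x := by
  have hδ'1 : δ' < 1 := lt_of_le_of_lt hδ'δ hδ.2
  have hR : ∀ t ∈ Icc (-(τ + s)) (-τ), ∀ x, v t x ∈ Ioc (0 : ℝ) δ' := by
    intro t ht x
    refine ⟨hpos t x, ?_⟩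
    have := hsmall (-t) (by linarith [ht.2]) x
    rwa [neg_neg] at this
  have hsubset : Ioc (0 : ℝ) δ' ⊆ Ioo 0 1 := fun r hr => ⟨hr.1, lt_of_le_of_lt hr.2 hδ'1⟩
  have hc : ContinuousOn (fun r => Real.exp (a * Hf f δ r)) (Ioc 0 δ') :=
    (((Hf_continuousOn hf hδ).mono hsubset).const_smul a).rexp
  have hmono := psi_mono hf ha hδ hδ'1 hfa
  have h := sub_compare hv (s := -(τ + s)) (T := -τ) (a := a) (C := 1) (Ioc 0 δ') hR
    (fun r => Real.exp (a * Hf f δ r)) hc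
    (fun r hr => by
      rw [abs_of_pos (Real.exp_pos _)]
      exact Real.exp_le_one_iff.2 (mul_nonpos_of_nonneg_of_nonpos ha
        (Hf_nonpos hf hδ hr.1 (hr.2.trans hδ'δ))))
    (fun r₀ hr₀ => ⟨a * Real.exp (a * Hf f δ r₀) / f r₀, fun r hr =>
      tangent_of_mono (φ := fun r => Real.exp (a * Hf f δ r))
        (ψ := fun r => a * Real.exp (a * Hf f δ r) / f r)
        (fun r hr => exp_Hf_hasDerivAt hf a hδ (hsubset hr)) hmono hr₀ hr, by
      have := hf.pos r₀ hr₀.1 (hsubset hr₀).2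
      rw [div_mul_cancel₀ _ this.ne']⟩) (-τ) ⟨by linarith, le_rfl⟩ x
  have e1 : -τ - -(τ + s) = s := by ring
  rw [e1] at h
  have h1 := mul_le_mul_of_nonneg_left h (Real.exp_pos (a * (τ + s - M))).le
  rw [← heat_const_mul] at h1
  have e2 : Real.exp (a * (τ + s - M)) * (Real.exp (-a * s) * Real.exp (a * Hf f δ (v (-τ) x))) =
      Real.exp (a * (Hf f δ (v (-τ) x) + τ - M)) := by
    rw [← Real.exp_add, ← Real.exp_add]; congr 1; ring
  rw [e2] at h1
  refine h1.trans (le_of_eq ?_)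
  congr 1
  funext z
  rw [← Real.exp_add]; congr 1; ring

theorem exp_super_heat (hf : IsKPP f) (hv : IsEntire N f v) (hpos : ∀ t x, 0 < v t x)
    {b δ δ' M T' : ℝ} (hb : 0 ≤ b) (hδ : δ ∈ Ioo (0 : ℝ) 1) (hδ'δ : δ' ≤ δ)
    (hfb : ∀ r, 0 ≤ r → r ≤ δ' → b ≤ derivWithin f (Icc 0 1) r)
    (hsmall : ∀ τ, T' ≤ τ → ∀ x, v (-τ) x ≤ δ') {τ s : ℝ} (hτ : T' ≤ τ) (hs : 0 ≤ s) (x : Sp N) :
    heat s (fun z => Real.exp (b * (Hf f δ (v (-(τ + s)) z) + (τ + s) - M))) x ≤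
      Real.exp (b * (Hf f δ (v (-τ) x) + τ - M)) := by
  have hδ'1 : δ' < 1 := lt_of_le_of_lt hδ'δ hδ.2
  have hR : ∀ t ∈ Icc (-(τ + s)) (-τ), ∀ x, v t x ∈ Ioc (0 : ℝ) δ' := by
    intro t ht x
    refine ⟨hpos t x, ?_⟩
    have := hsmall (-t) (by linarith [ht.2]) x
    rwa [neg_neg] at this
  have hsubset : Ioc (0 : ℝ) δ' ⊆ Ioo 0 1 := fun r hr => ⟨hr.1, lt_of_le_of_lt hr.2 hδ'1⟩
  have hc : ContinuousOn (fun r => Real.exp (b * Hf f δ r)) (Ioc 0 δ') :=
    (((Hf_continuousOn hf hδ).mono hsubset).const_smul b).rexp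
  have hanti := psi_anti hf hb hδ hδ'1 hfb
  have h := super_compare hv (s := -(τ + s)) (T := -τ) (b := b) (C := 1) (Ioc 0 δ') hR
    (fun r => Real.exp (b * Hf f δ r)) hc
    (fun r hr => by
      rw [abs_of_pos (Real.exp_pos _)]
      exact Real.exp_le_one_iff.2 (mul_nonpos_of_nonneg_of_nonpos hb
        (Hf_nonpos hf hδ hr.1 (hr.2.trans hδ'δ))))
    (fun r₀ hr₀ => ⟨b * Real.exp (b * Hf f δ r₀) / f r₀, fun r hr =>
      tangent_of_anti (φ := fun r => Real.exp (b * Hf f δ r))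
        (ψ := fun r => b * Real.exp (b * Hf f δ r) / f r)
        (fun r hr => exp_Hf_hasDerivAt hf b hδ (hsubset hr)) hanti hr₀ hr, by
      have := hf.pos r₀ hr₀.1 (hsubset hr₀).2
      rw [div_mul_cancel₀ _ this.ne']⟩) (-τ) ⟨by linarith, le_rfl⟩ x
  have e1 : -τ - -(τ + s) = s := by ring
  rw [e1] at h
  have h1 := mul_le_mul_of_nonneg_left h (Real.exp_pos (b * (τ + s - M))).le
  rw [← heat_const_mul] at h1
  have e2 : Real.exp (b * (τ + s - M)) * (Real.exp (-b * s) * Real.exp (b * Hf f δ (v (-τ) x))) =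
      Real.exp (b * (Hf f δ (v (-τ) x) + τ - M)) := by
    rw [← Real.exp_add, ← Real.exp_add]; congr 1; ring
  rw [e2] at h1
  refine le_trans (le_of_eq ?_) h1
  congr 1
  funext z
  rw [← Real.exp_add]; congr 1; ring

theorem Y_continuous (hf : IsKPP f) (hv : IsEntire N f v) (hpos : ∀ t x, 0 < v t x) {δ : ℝ}
    (hδ : δ ∈ Ioo (0 : ℝ) 1) {τ : ℝ} (hs : ∀ x, v (-τ) x < 1) (a M τ' : ℝ) :
    Continuous fun z => Real.exp (a * (Hf f δ (v (-τ) z) + τ' - M)) := by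
  have h1 : Continuous fun z => Hf f δ (v (-τ) z) :=
    (Hf_continuousOn hf hδ).comp_continuous (hv.cont_space _) fun z => ⟨hpos _ _, hs z⟩
  fun_prop

/-- main comparison between two points -/
theorem two_points (hf : IsKPP f) (hv : IsEntire N f v) (hpos : ∀ t x, 0 < v t x)
    {a b δ δ' M T' : ℝ} (hb : 0 ≤ b) (hba : b ≤ a) (hδ : δ ∈ Ioo (0 : ℝ) 1) (hδ'δ : δ' ≤ δ)
    (hfa : ∀ r, 0 ≤ r → r ≤ δ' → derivWithin f (Icc 0 1) r ≤ a)
    (hfb : ∀ r, 0 ≤ r → r ≤ δ' → b ≤ derivWithin f (Icc 0 1) r)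
    (hsmall : ∀ τ, T' ≤ τ → ∀ x, v (-τ) x ≤ δ')
    (hY : ∀ τ, T' ≤ τ → ∀ x, Hf f δ (v (-τ) x) + τ - M ≤ 0) {τ : ℝ} (hτ : T' ≤ τ) (x y : Sp N) :
    a * (Hf f δ (v (-τ) x) + τ - M) ≤ b * (Hf f δ (v (-τ) y) + τ - M) := by
  have hδ'1 : δ' < 1 := lt_of_le_of_lt hδ'δ hδ.2
  have ha : 0 ≤ a := hb.trans hba
  have hlt1 : ∀ τ, T' ≤ τ → ∀ x, v (-τ) x < 1 := fun τ hτ x =>
    lt_of_le_of_lt (hsmall τ hτ x) hδ'1
  have hbd : ∀ᶠ s : ℝ in atTop, Real.exp (a * (Hf f δ (v (-τ) x) + τ - M)) ≤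
      Real.exp (b * (Hf f δ (v (-τ) y) + τ - M)) + ((2 : ℝ) ^ ((N : ℝ) / 2) * ‖x - y‖ / √(2 * s) +
      ‖x - y‖ ^ 2 / (4 * s)) := by
    filter_upwards [eventually_gt_atTop 0] with s hs
    have h1 := exp_sub_heat (M := M) hf hv hpos ha hδ hδ'δ hfa hsmall hτ hs.le x
    have h2 := exp_super_heat (M := M) hf hv hpos hb hδ hδ'δ hfb hsmall hτ hs.le y
    have hYs : ∀ z, Hf f δ (v (-(τ + s)) z) + (τ + s) - M ≤ 0 := hY (τ + s) (by linarith)
    have hca := Y_continuous hf hv hpos hδ (hlt1 (τ + s) (by linarith)) a M (τ + s)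
    have hcb := Y_continuous hf hv hpos hδ (hlt1 (τ + s) (by linarith)) b M (τ + s)
    have hle1 : ∀ z, Real.exp (b * (Hf f δ (v (-(τ + s)) z) + (τ + s) - M)) ≤ 1 := fun z =>
      Real.exp_le_one_iff.2 (mul_nonpos_of_nonneg_of_nonpos hb (hYs z))
    have hle2 : ∀ z, Real.exp (a * (Hf f δ (v (-(τ + s)) z) + (τ + s) - M)) ≤ 1 := fun z =>
      Real.exp_le_one_iff.2 (mul_nonpos_of_nonneg_of_nonpos ha (hYs z))
    have h3 := heat_mono hca (C := 1) (fun z => by rw [abs_of_pos (Real.exp_pos _)]; exact hle2 z)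
      hcb (C' := 1) (fun z => by rw [abs_of_pos (Real.exp_pos _)]; exact hle1 z)
      (fun z => Real.exp_le_exp.2 (by nlinarith [hYs z])) s x
    have h4 := heat_flat hcb (fun z => (Real.exp_pos _).le) hle1 hs x y
    linarith
  have hlim : Tendsto (fun s : ℝ => Real.exp (b * (Hf f δ (v (-τ) y) + τ - M)) +
      ((2 : ℝ) ^ ((N : ℝ) / 2) * ‖x - y‖ / √(2 * s) + ‖x - y‖ ^ 2 / (4 * s))) atTop
      (𝓝 (Real.exp (b * (Hf f δ (v (-τ) y) + τ - M)) + (0 + 0))) := by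
    refine Tendsto.const_add _ (Tendsto.add ?_ ?_)
    · exact tendsto_const_nhds.div_atTop
        (Real.tendsto_sqrt_atTop.comp (tendsto_id.const_mul_atTop (by norm_num)))
    · exact tendsto_const_nhds.div_atTop (tendsto_id.const_mul_atTop (by norm_num))
  have h5 := ge_of_tendsto hlim hbd
  rw [add_zero, add_zero] at h5
  exact Real.exp_le_exp.1 h5

/-- **Liouville property** -/
theorem liouville (hf : IsKPP f) (hv : IsEntire N f v) (hpos : ∀ t x, 0 < v t x) {δ M T : ℝ}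
    (hδ : δ ∈ Ioo (0 : ℝ) 1) (hT : 0 < T)
    (h : ∀ τ, T ≤ τ → ∀ x, v (-τ) x < δ ∧ Hf f δ (v (-τ) x) + τ ≤ M) :
    ∀ x y, v 0 x = v 0 y := by
  have hκ := hf.kap_pos
  -- for each c, constants
  have hconst : ∀ c : ℝ, 0 < c → c < 1 → ∃ δ' T' : ℝ, δ' ≤ δ ∧ T ≤ T' ∧
      (∀ r, 0 ≤ r → r ≤ δ' → derivWithin f (Icc 0 1) r ≤ (1 + c) * kap f) ∧
      (∀ r, 0 ≤ r → r ≤ δ' → (1 - c) * kap f ≤ derivWithin f (Icc 0 1) r) ∧
      (∀ τ, T' ≤ τ → ∀ x, v (-τ) x ≤ δ') := by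
    intro c hc0 hc1
    obtain ⟨δc, h0, h1, hder, _⟩ := hf.near_zero (a := (1 + c) * kap f) (b := (1 - c) * kap f)
      (by nlinarith) (by nlinarith)
    set δ' := min δc δ with hδ'
    have hδ'0 : 0 < δ' := lt_min h0 hδ.1
    have hδ'δ : δ' ≤ δ := min_le_right _ _
    have hδ'1 : δ' < 1 := lt_of_le_of_lt hδ'δ hδ.2
    refine ⟨δ', max T (M - Hf f δ δ'), hδ'δ, le_max_left _ _,
      fun r hr0 hr1 => (hder r hr0 (hr1.trans (min_le_left _ _))).2,
      fun r hr0 hr1 => (hder r hr0 (hr1.trans (min_le_left _ _))).1, fun τ hτ x => ?_⟩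
    obtain ⟨h2, h3⟩ := h τ ((le_max_left _ _).trans hτ) x
    have h4 : M - Hf f δ δ' ≤ τ := (le_max_right _ _).trans hτ
    by_contra hcon
    push Not at hcon
    have h5 := Hf_strictMono hf hδ ⟨hδ'0, hδ'1⟩ ⟨hpos _ _, h2.trans hδ.2⟩ hcon
    linarith
  obtain ⟨δ0, T0, hδ0δ, hTT0, hfa0, hfb0, hs0⟩ := hconst (1 / 2) (by norm_num) (by norm_num)
  have hY : ∀ τ, T ≤ τ → ∀ x, Hf f δ (v (-τ) x) + τ - M ≤ 0 := fun τ hτ x => by
    have := (h τ hτ x).2; linarith
  set Y : ℝ → Sp N → ℝ := fun τ x => Hf f δ (v (-τ) x) + τ - M with hYdef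
  have ha0 : 0 < (1 + 1 / 2) * kap f := by positivity
  have hb0 : 0 < (1 - 1 / 2) * kap f := by
    have : (0 : ℝ) < 1 - 1 / 2 := by norm_num
    positivity
  have hlt1 : ∀ τ, T ≤ τ → ∀ x, v (-τ) x < 1 := fun τ hτ x => (h τ hτ x).1.trans hδ.2
  -- key inequality
  have hkey : ∀ x y, Y T0 x ≤ Y T0 y := by
    intro x y
    set A := Y T0 x with hA
    set B := Y T0 y with hB
    by_contra hcon
    push Not at hcon
    set η : ℝ := (A - B) / 4 with hη
    have hη0 : 0 < η := by rw [hη]; linarith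
    -- points at later parameters
    have hz1 : ∀ τ, T0 ≤ τ → ∃ z, A - η < Y τ z := by
      intro τ hτ
      by_contra hno
      push Not at hno
      have h1 := exp_sub_heat (M := M) hf hv hpos ha0.le hδ hδ0δ hfa0 hs0 (le_refl T0)
        (sub_nonneg.2 hτ) x
      have e : T0 + (τ - T0) = τ := by ring
      rw [e] at h1
      have h2 := heat_le (Y_continuous hf hv hpos hδ (hlt1 τ (hTT0.trans hτ))
        ((1 + 1 / 2) * kap f) M τ) (C := 1) (fun z => by
          rw [abs_of_pos (Real.exp_pos _)]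
          exact Real.exp_le_one_iff.2 (mul_nonpos_of_nonneg_of_nonpos ha0.le
            (hY τ (hTT0.trans hτ) z)))
        (c := Real.exp ((1 + 1 / 2) * kap f * (A - η)))
        (fun z => Real.exp_le_exp.2 (mul_le_mul_of_nonneg_left (hno z) ha0.le)) (τ - T0) x
      have h3 := Real.exp_le_exp.1 (h1.trans h2)
      have h4 := le_of_mul_le_mul_left h3 ha0
      change A ≤ A - η at h4
      linarith
    have hz2 : ∀ τ, T0 ≤ τ → ∃ z, Y τ z < B + η := by
      intro τ hτ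
      by_contra hno
      push Not at hno
      have h1 := exp_super_heat (M := M) hf hv hpos hb0.le hδ hδ0δ hfb0 hs0 (le_refl T0)
        (sub_nonneg.2 hτ) y
      have e : T0 + (τ - T0) = τ := by ring
      rw [e] at h1
      have h2 := le_heat (Y_continuous hf hv hpos hδ (hlt1 τ (hTT0.trans hτ))
        ((1 - 1 / 2) * kap f) M τ) (C := 1) (fun z => by
          rw [abs_of_pos (Real.exp_pos _)]
          exact Real.exp_le_one_iff.2 (mul_nonpos_of_nonneg_of_nonpos hb0.le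
            (hY τ (hTT0.trans hτ) z)))
        (c := Real.exp ((1 - 1 / 2) * kap f * (B + η)))
        (fun z => Real.exp_le_exp.2 (mul_le_mul_of_nonneg_left (hno z) hb0.le)) (τ - T0) y
      have h3 := Real.exp_le_exp.1 (h2.trans h1)
      have h4 := le_of_mul_le_mul_left h3 hb0
      change B + η ≤ B at h4
      linarith
    set c : ℝ := min (1 / 2) ((A - B) / (4 * (|A + B| + 1))) with hc
    have hAB : 0 < A - B := by linarith
    have habs : 0 ≤ |A + B| := abs_nonneg _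
    have hc0 : 0 < c := lt_min (by norm_num) (by positivity)
    have hc1 : c < 1 := lt_of_le_of_lt (min_le_left _ _) (by norm_num)
    obtain ⟨δ1, T1, hδ1δ, hTT1, hfa1, hfb1, hs1⟩ := hconst c hc0 hc1
    set τ := max T0 T1 with hτ
    obtain ⟨z1, hz1'⟩ := hz1 τ (le_max_left _ _)
    obtain ⟨z2, hz2'⟩ := hz2 τ (le_max_left _ _)
    have h1 := two_points (a := (1 + c) * kap f) (b := (1 - c) * kap f) (M := M) (T' := T1)
      hf hv hpos (by nlinarith) (by nlinarith) hδ hδ1δ hfa1 hfb1 hs1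
      (fun τ hτ x => hY τ (hTT1.trans hτ) x) (le_max_right T0 T1) z1 z2
    change (1 + c) * kap f * Y τ z1 ≤ (1 - c) * kap f * Y τ z2 at h1
    have h2 : (1 + c) * (A - η) ≤ (1 - c) * (B + η) := by
      have h3 : (1 + c) * kap f * (A - η) ≤ (1 + c) * kap f * Y τ z1 :=
        mul_le_mul_of_nonneg_left hz1'.le (by positivity)
      have h4 : (1 - c) * kap f * Y τ z2 ≤ (1 - c) * kap f * (B + η) :=
        mul_le_mul_of_nonneg_left hz2'.le (mul_nonneg (by linarith) hκ.le)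
      have h5 : kap f * ((1 + c) * (A - η)) ≤ kap f * ((1 - c) * (B + η)) := by linarith
      exact le_of_mul_le_mul_left h5 hκ
    have h3 : (A - B) / 2 ≤ -(c * (A + B)) := by
      have : (1 + c) * (A - η) - (1 - c) * (B + η) = (A - B) / 2 + c * (A + B) := by
        rw [hη]; ring
      linarith
    have h4 : -(c * (A + B)) ≤ c * |A + B| := by
      have := neg_abs_le (A + B)
      nlinarith
    have h5 : c * |A + B| ≤ (A - B) / 4 := by
      have h6 : c ≤ (A - B) / (4 * (|A + B| + 1)) := min_le_right _ _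
      have h7 : c * |A + B| ≤ (A - B) / (4 * (|A + B| + 1)) * |A + B| :=
        mul_le_mul_of_nonneg_right h6 habs
      have h8 : (A - B) / (4 * (|A + B| + 1)) * |A + B| ≤ (A - B) / 4 := by
        rw [div_mul_eq_mul_div, div_le_div_iff₀ (by positivity) (by norm_num)]
        nlinarith
      linarith
    linarith
  have hconst0 : ∀ x y, v (-T0) x = v (-T0) y := by
    intro x y
    have h1 : Y T0 x = Y T0 y := le_antisymm (hkey x y) (hkey y x)
    have h2 : Hf f δ (v (-T0) x) = Hf f δ (v (-T0) y) := by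
      simp only [hYdef] at h1; linarith
    exact (Hf_strictMono hf hδ).injOn ⟨hpos _ _, hlt1 T0 hTT0 x⟩ ⟨hpos _ _, hlt1 T0 hTT0 y⟩ h2
  exact const_propagate hf hv (by linarith : -T0 ≤ 0) hconst0

end Pool.Agent.KPP
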