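import Pool.Agent.Lib.MP_75f8eb_an.Boot3
import Pool.Agent.Lib.MP_75f8eb_an.Liou

/-!
# Geometry of quasi-concave functions and the conclusion
-/

namespace Pool.Agent.KPP

open Set Filter Topology MeasureTheory

variable {N : ℕ} {f : ℝ → ℝ} {v : ℝ → Sp N → ℝ}

/-- if some level set `{v(0,·) > l}`, `l < 1`, lies in two half-spaces with different normals, then
`v(0,·)` is constant -/
theorem const_of_wedge (hf : IsKPP f) (hv : IsEntire N f v) (hN : 0 < N) {l β : ℝ} (hl : l < 1)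
    {e₁ e₂ : Sp N} (he₁ : ‖e₁‖ = 1) (he₂ : ‖e₂‖ = 1) (hne : e₁ ≠ e₂)
    (h₁ : ∀ x, l < v 0 x → -β < inner ℝ e₁ x) (h₂ : ∀ x, l < v 0 x → -β < inner ℝ e₂ x) :
    ∀ x y, v 0 x = v 0 y := by
  rcases zero_or_pos hf hv with hz | hpos
  · intro x y; rw [hz, hz]
  have hinner : inner ℝ e₁ e₂ < 1 := (inner_lt_one_iff_real_of_norm_eq_one he₁ he₂).2 hne
  set γ : ℝ := ‖e₁ + e₂‖ / 2 with hγ
  have hγ0 : 0 ≤ γ := by positivity
  have hγ2 : γ ^ 2 < 1 := by
    rw [hγ, div_pow, norm_add_sq_real, he₁, he₂]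
    norm_num
    linarith
  set Γ : ℝ := (1 + γ ^ 2) / 2 with hΓ
  have hΓγ : 0 < Γ - γ ^ 2 := by rw [hΓ]; linarith
  have hΓ0 : 0 ≤ Γ := by positivity
  have hΓ1 : Γ < 1 := by rw [hΓ]; linarith
  set B : ℝ := β ^ 2 + (γ * β) ^ 2 / (Γ - γ ^ 2) with hB
  have hB0 : 0 ≤ B := by positivity
  have hsq : ∀ r : ℝ, 0 ≤ r → (γ * r + |β|) ^ 2 ≤ Γ * r ^ 2 + B := by
    intro r hr
    have h1 : 2 * (γ * |β|) * r ≤ (Γ - γ ^ 2) * r ^ 2 + (γ * β) ^ 2 / (Γ - γ ^ 2) := by
      set k := Γ - γ ^ 2 with hk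
      have h2 : (γ * β) ^ 2 = (γ * |β|) ^ 2 := by rw [mul_pow, mul_pow, sq_abs]
      rw [h2]
      have h3 : 0 ≤ (k * r - γ * |β|) ^ 2 / k := by positivity
      have h4 : (k * r - γ * |β|) ^ 2 / k = k * r ^ 2 - 2 * (γ * |β|) * r + (γ * |β|) ^ 2 / k := by
        field_simp
        ring
      linarith
    have h5 : (γ * r + |β|) ^ 2 = γ ^ 2 * r ^ 2 + 2 * (γ * |β|) * r + β ^ 2 := by
      have := sq_abs β
      nlinarith
    rw [h5, hB]
    linarith
  have hW : ∀ x, ∃ y, v 0 y ≤ l ∧ ‖x - y‖ ^ 2 ≤ Γ * ‖x‖ ^ 2 + B := by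
    intro x
    -- one of the two directions
    have hdir : ∃ e : Sp N, ‖e‖ = 1 ∧ (∀ x, l < v 0 x → -β < inner ℝ e x) ∧
        inner ℝ e x + β ≤ γ * ‖x‖ + |β| := by
      have h3 : (inner ℝ e₁ x : ℝ) + inner ℝ e₂ x ≤ 2 * γ * ‖x‖ := by
        rw [← inner_add_left]
        refine (real_inner_le_norm _ _).trans (le_of_eq ?_)
        rw [hγ]; ring
      have h4 := le_abs_self β
      rcases le_total (inner ℝ e₁ x : ℝ) (inner ℝ e₂ x) with h | h
      · exact ⟨e₁, he₁, h₁, by linarith⟩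
      · exact ⟨e₂, he₂, h₂, by linarith⟩
    obtain ⟨e, he, hee, hle⟩ := hdir
    rcases le_or_gt (inner ℝ e x + β) 0 with h | h
    · refine ⟨x, ?_, ?_⟩
      · by_contra hcon
        push Not at hcon
        have := hee x hcon
        linarith
      · rw [sub_self, norm_zero]
        have : 0 ≤ Γ * ‖x‖ ^ 2 := by positivity
        nlinarith
    · refine ⟨x - (inner ℝ e x + β) • e, ?_, ?_⟩
      · by_contra hcon
        push Not at hcon
        have h5 := hee _ hcon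
        rw [inner_sub_right, inner_smul_right, real_inner_self_eq_norm_sq, he] at h5
        linarith
      · rw [sub_sub_cancel, norm_smul, he, mul_one, Real.norm_eq_abs, abs_of_pos h]
        exact (pow_le_pow_left₀ h.le hle 2).trans (hsq _ (norm_nonneg _))
  obtain ⟨δ, hδ, M, T, hT, hb⟩ := boot_bound hf hv hpos hN hl hΓ0 hΓ1 hB0 hW
  exact liouville hf hv hpos hδ hT hb

/-- separation -/
theorem separate {w : Sp N → ℝ} (hw : Continuous w) {l : ℝ} (hc : Convex ℝ {x | l < w x})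
    {x y : Sp N} (hx : w x ≤ l) (hy : l < w y) :
    ∃ e : Sp N, ‖e‖ = 1 ∧ (∀ a, l < w a → inner ℝ e x < inner ℝ e a) := by
  have hopen : IsOpen {x | l < w x} := isOpen_lt continuous_const hw
  obtain ⟨φ, hφ⟩ := geometric_hahn_banach_open_point hc hopen (x := x)
    (by simpa using hx)
  set e' : Sp N := (InnerProductSpace.toDual ℝ (Sp N)).symm φ with he'
  have hφe : ∀ a, φ a = inner ℝ e' a := fun a => by
    rw [he', InnerProductSpace.toDual_symm_apply]
  have hne : e' ≠ 0 := by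
    intro h0
    have := hφ y hy
    rw [hφe, hφe, h0] at this
    simp at this
  have hn : 0 < ‖e'‖ := norm_pos_iff.2 hne
  refine ⟨-(‖e'‖⁻¹ • e'), ?_, fun a ha => ?_⟩
  · rw [norm_neg, norm_smul, norm_inv, norm_norm, inv_mul_cancel₀ hn.ne']
  · have h1 := hφ a ha
    rw [hφe, hφe] at h1
    rw [inner_neg_left, inner_neg_left, real_inner_smul_left, real_inner_smul_left]
    have := mul_lt_mul_of_pos_left h1 (inv_pos.2 hn)
    linarith

theorem one_dim_zero (hf : IsKPP f) (hv : IsEntire N f v) (hN : 0 < N)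
    (hqc : IsQuasiConcave (v 0)) : IsOneDimensional (v 0) := by
  have hw : Continuous (v 0) := hv.cont_space 0
  by_cases hconst : ∀ x y, v 0 x = v 0 y
  · refine ⟨bv ⟨0, hN⟩, by simp [bv], fun _ => v 0 0, fun x => hconst x 0⟩
  -- any two separating directions coincide
  have huniq : ∀ l, l < 1 → ∀ e₁ e₂ : Sp N, ‖e₁‖ = 1 → ‖e₂‖ = 1 → ∀ β₁ β₂ : ℝ,
      (∀ x, l < v 0 x → β₁ < inner ℝ e₁ x) → (∀ x, l < v 0 x → β₂ < inner ℝ e₂ x) → e₁ = e₂ := by
    intro l hl e₁ e₂ he₁ he₂ β₁ β₂ h₁ h₂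
    by_contra hne
    refine hconst (const_of_wedge hf hv hN hl (β := max (-β₁) (-β₂)) he₁ he₂ hne
      (fun x hx => ?_) (fun x hx => ?_))
    · have h3 := h₁ x hx
      have h4 := le_max_left (-β₁) (-β₂)
      linarith
    · have h3 := h₂ x hx
      have h4 := le_max_right (-β₁) (-β₂)
      linarith
  push Not at hconst
  obtain ⟨x₀, y₀, hxy₀⟩ := hconst
  -- order them
  obtain ⟨x₁, y₁, hxy₁⟩ : ∃ x₁ y₁, v 0 x₁ < v 0 y₁ := by
    rcases lt_or_gt_of_ne hxy₀ with h | h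
    · exact ⟨x₀, y₀, h⟩
    · exact ⟨y₀, x₀, h⟩
  have hsep : ∀ x y, v 0 x < v 0 y → ∃ e : Sp N, ‖e‖ = 1 ∧
      (∀ a, (v 0 x + v 0 y) / 2 < v 0 a → inner ℝ e x < inner ℝ e a) := fun x y hxy =>
    separate hw (hqc _) (by linarith) (y := y) (by linarith)
  obtain ⟨e, he, hea⟩ := hsep x₁ y₁ hxy₁
  have hmono : ∀ x y, v 0 x < v 0 y → inner ℝ e x < inner ℝ e y := by
    intro x y hxy
    obtain ⟨e', he', hea'⟩ := hsep x y hxy
    have h1 := hv.le_one 0 y₁
    have h2 := hv.le_one 0 y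
    have heq : e' = e := by
      refine huniq (max ((v 0 x + v 0 y) / 2) ((v 0 x₁ + v 0 y₁) / 2))
        (max_lt (by linarith) (by linarith)) e' e he' he (inner ℝ e' x) (inner ℝ e x₁)
        (fun a ha => hea' a (lt_of_le_of_lt (le_max_left _ _) ha))
        (fun a ha => hea a (lt_of_le_of_lt (le_max_right _ _) ha))
    rw [← heq]
    exact hea' y (by linarith)
  refine ⟨e, he, fun r => v 0 (r • e), fun x => ?_⟩
  have hinner : (inner ℝ e ((inner ℝ x e : ℝ) • e) : ℝ) = inner ℝ e x := by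
    rw [inner_smul_right, real_inner_self_eq_norm_sq, he, real_inner_comm]; ring
  rcases lt_trichotomy (v 0 x) (v 0 ((inner ℝ x e : ℝ) • e)) with h | h | h
  · have := hmono _ _ h
    rw [hinner] at this
    exact absurd this (lt_irrefl _)
  · exact h
  · have := hmono _ _ h
    rw [hinner] at this
    exact absurd this (lt_irrefl _)

/-- quasi-concave at one time implies one-dimensional at that time -/
theorem one_dim (hf : IsKPP f) (hv : IsEntire N f v) (hN : 0 < N) (t : ℝ)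
    (hqc : IsQuasiConcave (v t)) : IsOneDimensional (v t) := by
  have h2 : (fun x => v (0 + t) x) = v t := by
    funext x; simp
  have h := one_dim_zero hf (hv.shift t) hN (by
    show IsQuasiConcave fun x => v (0 + t) x
    rw [h2]; exact hqc)
  change IsOneDimensional (fun x => v (0 + t) x) at h
  rwa [h2] at h

end Pool.Agent.KPP
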