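import Pool.Agent.Lib.MP_75f8eb_an.Sol

/-!
# Gaussian integrals and the heat kernel
-/

namespace Pool.Agent.KPP

open Set Filter Topology MeasureTheory

variable {N : ℕ}

theorem integral_gauss {b : ℝ} (hb : 0 < b) :
    ∫ z : Sp N, Real.exp (-b * ‖z‖ ^ 2) = (Real.pi / b) ^ ((N : ℝ) / 2) := by
  have h := GaussianFourier.integral_rexp_neg_mul_sq_norm (V := Sp N) hb
  simpa using h

theorem integrable_gauss {b : ℝ} (hb : 0 < b) :
    Integrable fun z : Sp N => Real.exp (-b * ‖z‖ ^ 2) := by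
  have h := (GaussianFourier.integrable_cexp_neg_mul_sq_norm_add (V := Sp N) (b := (b : ℂ))
    (by simpa using hb) 0 0).norm
  refine h.congr (Eventually.of_forall fun z => ?_)
  simp only [Complex.norm_exp]
  congr 1
  simp [← Complex.ofReal_pow]

theorem one_add_le_exp_half {b : ℝ} (hb : 0 < b) {r : ℝ} (hr : 0 ≤ r) :
    (1 + r) * Real.exp (-b * r) ≤ (1 + 2 / b) * Real.exp (-(b / 2) * r) := by
  have h1 : (1 + r) ≤ (1 + 2 / b) * Real.exp (b / 2 * r) := by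
    have h2 : b / 2 * r + 1 ≤ Real.exp (b / 2 * r) := Real.add_one_le_exp _
    have h3 : 1 + r ≤ (1 + 2 / b) * (b / 2 * r + 1) := by
      have : (1 + 2 / b) * (b / 2 * r + 1) = 1 + r + (b / 2 * r + 2 / b) := by
        field_simp; ring
      rw [this]
      have : 0 ≤ b / 2 * r + 2 / b := by positivity
      linarith
    calc 1 + r ≤ (1 + 2 / b) * (b / 2 * r + 1) := h3
      _ ≤ _ := mul_le_mul_of_nonneg_left h2 (by positivity)
  calc (1 + r) * Real.exp (-b * r) ≤ ((1 + 2 / b) * Real.exp (b / 2 * r)) * Real.exp (-b * r) :=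
        mul_le_mul_of_nonneg_right h1 (Real.exp_pos _).le
    _ = (1 + 2 / b) * Real.exp (-(b / 2) * r) := by
        rw [mul_assoc, ← Real.exp_add]; congr 2; ring

theorem integrable_poly_gauss {b : ℝ} (hb : 0 < b) :
    Integrable fun z : Sp N => (1 + ‖z‖ ^ 2) * Real.exp (-b * ‖z‖ ^ 2) := by
  refine ((integrable_gauss (N := N) (half_pos hb)).const_mul (1 + 2 / b)).mono'
    (by fun_prop) (Eventually.of_forall fun z => ?_)
  rw [Real.norm_of_nonneg (by positivity)]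
  exact one_add_le_exp_half hb (by positivity)

/-- the heat kernel -/
noncomputable def G (N : ℕ) (τ : ℝ) (z : Sp N) : ℝ :=
  (4 * Real.pi * τ) ^ (-((N : ℝ) / 2)) * Real.exp (-(1 / (4 * τ)) * ‖z‖ ^ 2)

theorem G_pos {τ : ℝ} (hτ : 0 < τ) (z : Sp N) : 0 < G N τ z := by
  unfold G; positivity

theorem G_nonneg {τ : ℝ} (hτ : 0 < τ) (z : Sp N) : 0 ≤ G N τ z := (G_pos hτ z).le

theorem G_continuous (τ : ℝ) : Continuous (G N τ) := by
  unfold G; fun_prop

theorem G_neg (τ : ℝ) (z : Sp N) : G N τ (-z) = G N τ z := by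
  unfold G; rw [norm_neg]

theorem G_integrable {τ : ℝ} (hτ : 0 < τ) : Integrable (G N τ) :=
  (integrable_gauss (by positivity)).const_mul _

theorem G_integrable_sub {τ : ℝ} (hτ : 0 < τ) (x : Sp N) : Integrable fun z => G N τ (z - x) :=
  (G_integrable hτ).comp_sub_right x

theorem integral_G {τ : ℝ} (hτ : 0 < τ) : ∫ z : Sp N, G N τ z = 1 := by
  unfold G
  rw [integral_const_mul, integral_gauss (by positivity)]
  have h1 : Real.pi / (1 / (4 * τ)) = 4 * Real.pi * τ := by field_simp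
  rw [h1, ← Real.rpow_add (by positivity)]
  simp

/-- the Gaussian integral against a Gaussian weight -/
theorem integral_G_weight {τ β : ℝ} (hτ : 0 < τ) (hβ : β < 1) (x : Sp N) :
    Integrable (fun z : Sp N => G N τ (z - x) * Real.exp (β * ‖z‖ ^ 2 / (4 * τ))) ∧
    ∫ z : Sp N, G N τ (z - x) * Real.exp (β * ‖z‖ ^ 2 / (4 * τ)) =
      (1 - β) ^ (-((N : ℝ) / 2)) * Real.exp (β / (1 - β) * ‖x‖ ^ 2 / (4 * τ)) := by
  have h1b : 0 < 1 - β := by linarith
  have key : ∀ z : Sp N, G N τ (z - x) * Real.exp (β * ‖z‖ ^ 2 / (4 * τ)) =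
      ((4 * Real.pi * τ) ^ (-((N : ℝ) / 2)) * Real.exp (β / (1 - β) * ‖x‖ ^ 2 / (4 * τ))) *
        Real.exp (-((1 - β) / (4 * τ)) * ‖z - (1 - β)⁻¹ • x‖ ^ 2) := by
    intro z
    unfold G
    generalize (4 * Real.pi * τ) ^ (-((N : ℝ) / 2)) = A
    rw [mul_assoc A, mul_assoc A, ← Real.exp_add, ← Real.exp_add]
    congr 2
    rw [norm_sub_sq_real, norm_sub_sq_real, inner_smul_right, norm_smul, Real.norm_eq_abs,
      mul_pow, sq_abs]
    field_simp
    ring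
  have hI := (integrable_gauss (N := N) (b := (1 - β) / (4 * τ)) (by positivity)).comp_sub_right
    ((1 - β)⁻¹ • x)
  constructor
  · simp only [key]
    exact hI.const_mul _
  · simp only [key]
    rw [integral_const_mul, integral_sub_right_eq_self
      (fun z : Sp N => Real.exp (-((1 - β) / (4 * τ)) * ‖z‖ ^ 2)), integral_gauss (by positivity)]
    have h2 : Real.pi / ((1 - β) / (4 * τ)) = (4 * Real.pi * τ) * (1 - β)⁻¹ := by
      field_simp
    rw [h2]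
    have hP : 0 < 4 * Real.pi * τ := by positivity
    generalize 4 * Real.pi * τ = P at hP
    rw [Real.mul_rpow hP.le (inv_nonneg.2 h1b.le), Real.inv_rpow h1b.le,
      ← Real.rpow_neg h1b.le]
    have h3 : P ^ (-((N : ℝ) / 2)) * P ^ ((N : ℝ) / 2) = 1 := by
      rw [← Real.rpow_add hP]; simp
    linear_combination (Real.exp (β / (1 - β) * ‖x‖ ^ 2 / (4 * τ)) *
      (1 - β) ^ (-((N : ℝ) / 2))) * h3

/-- weighted Cauchy–Schwarz -/
theorem sq_add_div_le {a b p q : ℝ} (hp : 0 < p) (hq : 0 < q) :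
    (a + b) ^ 2 / (p + q) ≤ a ^ 2 / p + b ^ 2 / q := by
  rw [div_add_div _ _ hp.ne' hq.ne', div_le_div_iff₀ (by positivity) (by positivity)]
  nlinarith [sq_nonneg (a * q - b * p)]

/-- kernel inequality -/
theorem G_le_G {τ₁ τ₂ : ℝ} (h1 : 0 < τ₁) (h12 : τ₁ < τ₂) (x y z : Sp N) :
    G N τ₁ (z - x) ≤ (τ₂ / τ₁) ^ ((N : ℝ) / 2) * Real.exp (‖x - y‖ ^ 2 / (4 * (τ₂ - τ₁))) *
      G N τ₂ (z - y) := by
  have h2 : 0 < τ₂ := h1.trans h12
  have h3 : 0 < τ₂ - τ₁ := sub_pos.2 h12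
  unfold G
  have hpow : (4 * Real.pi * τ₁) ^ (-((N : ℝ) / 2)) =
      (τ₂ / τ₁) ^ ((N : ℝ) / 2) * (4 * Real.pi * τ₂) ^ (-((N : ℝ) / 2)) := by
    rw [Real.rpow_neg (by positivity), Real.rpow_neg (by positivity), Real.div_rpow h2.le h1.le,
      Real.mul_rpow (by positivity) h1.le, Real.mul_rpow (by positivity) h2.le]
    field_simp
  have hexp : Real.exp (-(1 / (4 * τ₁)) * ‖z - x‖ ^ 2) ≤
      Real.exp (‖x - y‖ ^ 2 / (4 * (τ₂ - τ₁))) * Real.exp (-(1 / (4 * τ₂)) * ‖z - y‖ ^ 2) := by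
    rw [← Real.exp_add]
    apply Real.exp_le_exp.2
    have h4 : ‖z - y‖ ≤ ‖z - x‖ + ‖x - y‖ := by
      have : z - y = (z - x) + (x - y) := by abel
      rw [this]; exact norm_add_le _ _
    have h5 : ‖z - y‖ ^ 2 / τ₂ ≤ ‖z - x‖ ^ 2 / τ₁ + ‖x - y‖ ^ 2 / (τ₂ - τ₁) := by
      have h6 := sq_add_div_le (a := ‖z - x‖) (b := ‖x - y‖) h1 h3
      have h7 : τ₁ + (τ₂ - τ₁) = τ₂ := by ring
      rw [h7] at h6
      refine le_trans ?_ h6
      gcongr
    have e1 : -(1 / (4 * τ₁)) * ‖z - x‖ ^ 2 = -(‖z - x‖ ^ 2 / τ₁) / 4 := by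
      field_simp
    have e2 : -(1 / (4 * τ₂)) * ‖z - y‖ ^ 2 = -(‖z - y‖ ^ 2 / τ₂) / 4 := by
      field_simp
    have e3 : ‖x - y‖ ^ 2 / (4 * (τ₂ - τ₁)) = (‖x - y‖ ^ 2 / (τ₂ - τ₁)) / 4 := by
      field_simp
    rw [e1, e2, e3]; linarith
  calc _ ≤ (4 * Real.pi * τ₁) ^ (-((N : ℝ) / 2)) * (Real.exp (‖x - y‖ ^ 2 / (4 * (τ₂ - τ₁))) *
        Real.exp (-(1 / (4 * τ₂)) * ‖z - y‖ ^ 2)) :=
        mul_le_mul_of_nonneg_left hexp (by positivity)
    _ = _ := by rw [hpow]; ring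

end Pool.Agent.KPP
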