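import Pool.Agent.Lib.MP_75f8eb_an.Gauss

/-!
# The heat semigroup on bounded continuous functions
-/

namespace Pool.Agent.KPP

open Set Filter Topology MeasureTheory

variable {N : ℕ}

theorem abs_coord_le (y : Sp N) (i : Fin N) : |y i| ≤ ‖y‖ := by
  have h1 : y i ^ 2 ≤ ‖y‖ ^ 2 := by
    rw [← sum_sq_coord]
    exact Finset.single_le_sum (f := fun i => y i ^ 2) (fun j _ => sq_nonneg _) (Finset.mem_univ i)
  exact abs_le_of_sq_le_sq h1 (norm_nonneg _)

theorem sub_line_coord (z x : Sp N) (h : ℝ) (i : Fin N) :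
    (z - (x + h • bv i)) i = (z - x) i - h := by
  simp [bv]; ring

theorem sub_line_norm (z x : Sp N) (h : ℝ) (i : Fin N) :
    ‖z - (x + h • bv i)‖ ^ 2 = ‖z - x‖ ^ 2 - 2 * (z - x) i * h + h ^ 2 := by
  have h1 : z - (x + h • bv i) = (z - x) + (-h) • bv i := by
    rw [neg_smul]; abel
  rw [h1, norm_add_smul_bv_sq]; ring

theorem exp_shift_bound {β : ℝ} (hβ : 0 < β) (z x : Sp N) {h : ℝ} (hh : |h| ≤ 1) (i : Fin N) :
    Real.exp (-β * ‖z - (x + h • bv i)‖ ^ 2) ≤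
      Real.exp β * Real.exp (-(β / 2) * ‖z - x‖ ^ 2) := by
  rw [← Real.exp_add]
  apply Real.exp_le_exp.2
  rw [sub_line_norm]
  have h1 := abs_coord_le (z - x) i
  have h2 : h ^ 2 ≤ 1 := by
    have := abs_le.1 hh
    nlinarith
  have h3 : (z - x) i ^ 2 ≤ ‖z - x‖ ^ 2 := by
    rw [← sq_abs]
    exact pow_le_pow_left₀ (abs_nonneg _) h1 2
  have h4 : 2 * (z - x) i * h ≤ (z - x) i ^ 2 / 2 + 2 * h ^ 2 := by
    nlinarith [sq_nonneg ((z - x) i - 2 * h)]
  nlinarith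

/-- Gaussian integral of `g`. -/
noncomputable def gI (g : Sp N → ℝ) (β : ℝ) (x : Sp N) : ℝ :=
  ∫ z, Real.exp (-β * ‖z - x‖ ^ 2) * g z

noncomputable def gI1 (g : Sp N → ℝ) (β : ℝ) (i : Fin N) (x : Sp N) : ℝ :=
  ∫ z, Real.exp (-β * ‖z - x‖ ^ 2) * (2 * β * (z - x) i) * g z

noncomputable def gI2 (g : Sp N → ℝ) (β : ℝ) (i : Fin N) (x : Sp N) : ℝ :=
  ∫ z, Real.exp (-β * ‖z - x‖ ^ 2) * ((2 * β * (z - x) i) ^ 2 - 2 * β) * g z

section
variable {g : Sp N → ℝ} {C : ℝ}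

theorem integrable_gI (hg : Continuous g) (hC : ∀ z, |g z| ≤ C) {β : ℝ} (hβ : 0 < β) (x : Sp N) :
    Integrable fun z => Real.exp (-β * ‖z - x‖ ^ 2) * g z := by
  refine (((integrable_gauss (N := N) hβ).comp_sub_right x).mul_const C).mono' (by fun_prop)
    (Eventually.of_forall fun z => ?_)
  rw [norm_mul, Real.norm_eq_abs, Real.norm_eq_abs, abs_of_pos (Real.exp_pos _)]
  exact mul_le_mul_of_nonneg_left (hC z) (Real.exp_pos _).le

theorem integrable_poly_shift (β : ℝ) (hβ : 0 < β) (x : Sp N) (K : ℝ) :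
    Integrable fun z : Sp N => K * ((1 + ‖z - x‖ ^ 2) * Real.exp (-β * ‖z - x‖ ^ 2)) :=
  ((integrable_poly_gauss (N := N) hβ).comp_sub_right x).const_mul K

theorem gI1_deriv (hg : Continuous g) (hC : ∀ z, |g z| ≤ C) {β : ℝ} (hβ : 0 < β) (x : Sp N)
    (i : Fin N) : HasDerivAt (fun h : ℝ => gI g β (x + h • bv i)) (gI1 g β i x) 0 := by
  have hC0 : 0 ≤ C := (abs_nonneg _).trans (hC 0)
  have key := (hasDerivAt_integral_of_dominated_loc_of_deriv_le (μ := volume) (𝕜 := ℝ)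
    (F := fun (h : ℝ) (z : Sp N) => Real.exp (-β * ‖z - (x + h • bv i)‖ ^ 2) * g z)
    (F' := fun (h : ℝ) (z : Sp N) => Real.exp (-β * ‖z - (x + h • bv i)‖ ^ 2) *
      (2 * β * (z - (x + h • bv i)) i) * g z)
    (x₀ := (0 : ℝ)) (s := Metric.ball 0 1)
    (bound := fun z => (2 * β * 2 * Real.exp β * C) *
      ((1 + ‖z - x‖ ^ 2) * Real.exp (-(β / 2) * ‖z - x‖ ^ 2)))
    (Metric.ball_mem_nhds _ one_pos) (Eventually.of_forall fun h => by fun_prop)
    (integrable_gI hg hC hβ _) (by fun_prop) ?_ (integrable_poly_shift _ (half_pos hβ) x _) ?_).2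
  · simpa [gI, gI1] using key
  · refine Eventually.of_forall fun z h hh => ?_
    have hh1 : |h| ≤ 1 := by
      rw [mem_ball_zero_iff, Real.norm_eq_abs] at hh; exact hh.le
    rw [norm_mul, norm_mul, Real.norm_eq_abs, Real.norm_eq_abs, Real.norm_eq_abs,
      abs_of_pos (Real.exp_pos _), sub_line_coord]
    have h1 := exp_shift_bound hβ z x hh1 i
    have h2 : |2 * β * ((z - x) i - h)| ≤ 2 * β * (2 * (1 + ‖z - x‖ ^ 2)) := by
      rw [abs_mul, abs_of_pos (by positivity : 0 < 2 * β)]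
      refine mul_le_mul_of_nonneg_left ?_ (by positivity)
      have h3 : |(z - x) i - h| ≤ ‖z - x‖ + 1 :=
        (abs_sub _ _).trans (add_le_add (abs_coord_le _ _) hh1)
      nlinarith [sq_nonneg (‖z - x‖ - 1), sq_nonneg ‖z - x‖]
    calc Real.exp (-β * ‖z - (x + h • bv i)‖ ^ 2) * |2 * β * ((z - x) i - h)| * |g z|
        ≤ (Real.exp β * Real.exp (-(β / 2) * ‖z - x‖ ^ 2)) *
            (2 * β * (2 * (1 + ‖z - x‖ ^ 2))) * C := by
          gcongr
          exact hC z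
      _ = _ := by ring
  · refine Eventually.of_forall fun z h _ => ?_
    have h1 : HasDerivAt (fun h : ℝ => Real.exp ((-β * ‖z - x‖ ^ 2) + (2 * β * (z - x) i) * h +
        (-β) * h ^ 2)) _ h := (hasDerivAt_quad _ _ _ h).exp
    have h2 := h1.mul_const (g z)
    have h3 : (fun h : ℝ => Real.exp (-β * ‖z - (x + h • bv i)‖ ^ 2) * g z) =
        fun h : ℝ => Real.exp ((-β * ‖z - x‖ ^ 2) + (2 * β * (z - x) i) * h +
        (-β) * h ^ 2) * g z := by
      funext h; rw [sub_line_norm]; congr 2; ring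
    rw [h3]
    refine h2.congr_deriv ?_
    rw [sub_line_norm, sub_line_coord]
    have h4 : -β * (‖z - x‖ ^ 2 - 2 * (z - x) i * h + h ^ 2) =
      (-β * ‖z - x‖ ^ 2) + (2 * β * (z - x) i) * h + (-β) * h ^ 2 := by ring
    rw [h4]; ring

theorem gI2_deriv (hg : Continuous g) (hC : ∀ z, |g z| ≤ C) {β : ℝ} (hβ : 0 < β) (x : Sp N)
    (i : Fin N) :
    Integrable (fun z => Real.exp (-β * ‖z - x‖ ^ 2) * ((2 * β * (z - x) i) ^ 2 - 2 * β) * g z) ∧
    HasDerivAt (fun h : ℝ => gI1 g β i (x + h • bv i)) (gI2 g β i x) 0 := by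
  have hC0 : 0 ≤ C := (abs_nonneg _).trans (hC 0)
  have hmeas : ∀ h : ℝ, AEStronglyMeasurable (fun z : Sp N =>
      Real.exp (-β * ‖z - (x + h • bv i)‖ ^ 2) * (2 * β * (z - (x + h • bv i)) i) * g z) volume :=
    fun h => by fun_prop
  have hbd : ∀ z : Sp N, ∀ h : ℝ, |h| ≤ 1 → Real.exp (-β * ‖z - (x + h • bv i)‖ ^ 2) *
      |2 * β * ((z - x) i - h)| * |g z| ≤ (2 * β * 2 * Real.exp β * C) *
      ((1 + ‖z - x‖ ^ 2) * Real.exp (-(β / 2) * ‖z - x‖ ^ 2)) := by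
    intro z h hh1
    have h1 := exp_shift_bound hβ z x hh1 i
    have h2 : |2 * β * ((z - x) i - h)| ≤ 2 * β * (2 * (1 + ‖z - x‖ ^ 2)) := by
      rw [abs_mul, abs_of_pos (by positivity : 0 < 2 * β)]
      refine mul_le_mul_of_nonneg_left ?_ (by positivity)
      have h3 : |(z - x) i - h| ≤ ‖z - x‖ + 1 :=
        (abs_sub _ _).trans (add_le_add (abs_coord_le _ _) hh1)
      nlinarith [sq_nonneg (‖z - x‖ - 1), sq_nonneg ‖z - x‖]
    calc Real.exp (-β * ‖z - (x + h • bv i)‖ ^ 2) * |2 * β * ((z - x) i - h)| * |g z|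
        ≤ (Real.exp β * Real.exp (-(β / 2) * ‖z - x‖ ^ 2)) *
            (2 * β * (2 * (1 + ‖z - x‖ ^ 2))) * C := by
          gcongr
          exact hC z
      _ = _ := by ring
  have hint : Integrable (fun z : Sp N =>
      Real.exp (-β * ‖z - (x + (0 : ℝ) • bv i)‖ ^ 2) * (2 * β * (z - (x + (0 : ℝ) • bv i)) i) *
        g z) volume := by
    refine (integrable_poly_shift _ (half_pos hβ) x (2 * β * 2 * Real.exp β * C)).mono' (hmeas 0)
      (Eventually.of_forall fun z => ?_)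
    rw [norm_mul, norm_mul, Real.norm_eq_abs, Real.norm_eq_abs, Real.norm_eq_abs,
      abs_of_pos (Real.exp_pos _), sub_line_coord]
    exact hbd z 0 (by simp)
  have key := hasDerivAt_integral_of_dominated_loc_of_deriv_le (μ := volume) (𝕜 := ℝ)
    (F := fun (h : ℝ) (z : Sp N) => Real.exp (-β * ‖z - (x + h • bv i)‖ ^ 2) *
      (2 * β * (z - (x + h • bv i)) i) * g z)
    (F' := fun (h : ℝ) (z : Sp N) => Real.exp (-β * ‖z - (x + h • bv i)‖ ^ 2) *
      ((2 * β * (z - (x + h • bv i)) i) ^ 2 - 2 * β) * g z)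
    (x₀ := (0 : ℝ)) (s := Metric.ball 0 1)
    (bound := fun z => ((8 * β ^ 2 + 2 * β) * Real.exp β * C) *
      ((1 + ‖z - x‖ ^ 2) * Real.exp (-(β / 2) * ‖z - x‖ ^ 2)))
    (Metric.ball_mem_nhds _ one_pos) (Eventually.of_forall hmeas)
    hint (by fun_prop) ?_ (integrable_poly_shift _ (half_pos hβ) x _) ?_
  · exact ⟨by simpa using key.1, by simpa [gI1, gI2] using key.2⟩
  · refine Eventually.of_forall fun z h hh => ?_
    have hh1 : |h| ≤ 1 := by
      rw [mem_ball_zero_iff, Real.norm_eq_abs] at hh; exact hh.le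
    rw [norm_mul, norm_mul, Real.norm_eq_abs, Real.norm_eq_abs, Real.norm_eq_abs,
      abs_of_pos (Real.exp_pos _), sub_line_coord]
    have h1 := exp_shift_bound hβ z x hh1 i
    have h2 : |(2 * β * ((z - x) i - h)) ^ 2 - 2 * β| ≤
        (8 * β ^ 2 + 2 * β) * (1 + ‖z - x‖ ^ 2) := by
      have h3 : |(z - x) i - h| ≤ ‖z - x‖ + 1 :=
        (abs_sub _ _).trans (add_le_add (abs_coord_le _ _) hh1)
      have h4 : ((z - x) i - h) ^ 2 ≤ 2 * (1 + ‖z - x‖ ^ 2) := by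
        have h5 : ((z - x) i - h) ^ 2 ≤ (‖z - x‖ + 1) ^ 2 := by
          rw [← sq_abs]; exact pow_le_pow_left₀ (abs_nonneg _) h3 2
        nlinarith [sq_nonneg (‖z - x‖ - 1)]
      have h6 : (2 * β * ((z - x) i - h)) ^ 2 ≤ 8 * β ^ 2 * (1 + ‖z - x‖ ^ 2) := by
        have : (2 * β * ((z - x) i - h)) ^ 2 = 4 * β ^ 2 * ((z - x) i - h) ^ 2 := by ring
        rw [this]
        have := mul_le_mul_of_nonneg_left h4 (by positivity : (0 : ℝ) ≤ 4 * β ^ 2)
        linarith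
      have h7 : 2 * β ≤ 2 * β * (1 + ‖z - x‖ ^ 2) := by
        have : 0 ≤ 2 * β * ‖z - x‖ ^ 2 := by positivity
        linarith
      have h8 : 0 ≤ (2 * β * ((z - x) i - h)) ^ 2 := sq_nonneg _
      have h9 : 0 ≤ 8 * β ^ 2 * (1 + ‖z - x‖ ^ 2) := by positivity
      rw [abs_le]; constructor <;> nlinarith
    calc Real.exp (-β * ‖z - (x + h • bv i)‖ ^ 2) * |(2 * β * ((z - x) i - h)) ^ 2 - 2 * β| * |g z|
        ≤ (Real.exp β * Real.exp (-(β / 2) * ‖z - x‖ ^ 2)) *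
            ((8 * β ^ 2 + 2 * β) * (1 + ‖z - x‖ ^ 2)) * C := by
          gcongr
          exact hC z
      _ = _ := by ring
  · refine Eventually.of_forall fun z h _ => ?_
    have h1 : HasDerivAt (fun h : ℝ => Real.exp ((-β * ‖z - x‖ ^ 2) + (2 * β * (z - x) i) * h +
        (-β) * h ^ 2)) _ h := (hasDerivAt_quad _ _ _ h).exp
    have h2 := (h1.fun_mul (hasDerivAt_affine (2 * β * (z - x) i) (-(2 * β)) h)).mul_const (g z)
    have h3 : (fun h : ℝ => Real.exp (-β * ‖z - (x + h • bv i)‖ ^ 2) *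
        (2 * β * (z - (x + h • bv i)) i) * g z) =
        fun h : ℝ => Real.exp ((-β * ‖z - x‖ ^ 2) + (2 * β * (z - x) i) * h +
        (-β) * h ^ 2) * (2 * β * (z - x) i + -(2 * β) * h) * g z := by
      funext h; rw [sub_line_norm, sub_line_coord]
      congr 2
      · congr 1; ring
      · ring
    rw [h3]
    refine h2.congr_deriv ?_
    rw [sub_line_norm, sub_line_coord]
    have h4 : -β * (‖z - x‖ ^ 2 - 2 * (z - x) i * h + h ^ 2) =
      (-β * ‖z - x‖ ^ 2) + (2 * β * (z - x) i) * h + (-β) * h ^ 2 := by ring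
    rw [h4]; ring

theorem J1_gI (hg : Continuous g) (hC : ∀ z, |g z| ≤ C) {β : ℝ} (hβ : 0 < β) (x : Sp N)
    (i : Fin N) : J1 (fun h : ℝ => gI g β (x + h • bv i)) (gI1 g β i x) (gI2 g β i x) := by
  refine ⟨fun h => gI1 g β i (x + h • bv i), Eventually.of_forall fun h => ?_, by simp,
    (gI2_deriv hg hC hβ x i).2⟩
  have h1 := gI1_deriv hg hC hβ (x + h • bv i) i
  have h2 : HasDerivAt (fun k : ℝ => gI g β (x + h • bv i + (k - h) • bv i))
      (gI1 g β i (x + h • bv i)) h := by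
    have h3 : HasDerivAt (fun k : ℝ => gI g β (x + h • bv i + k • bv i))
      (gI1 g β i (x + h • bv i)) (h - h) := by rw [sub_self]; exact h1
    exact h3.comp_sub_const h h
  refine h2.congr_of_eventuallyEq (Eventually.of_forall fun k => ?_)
  show gI g β (x + k • bv i) = gI g β (x + h • bv i + (k - h) • bv i)
  congr 1
  rw [sub_smul]; abel

/-- derivative in the inverse variance -/
theorem gI_deriv_beta (hg : Continuous g) (hC : ∀ z, |g z| ≤ C) {β : ℝ} (hβ : 0 < β) (x : Sp N) :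
    Integrable (fun z => Real.exp (-β * ‖z - x‖ ^ 2) * (-‖z - x‖ ^ 2) * g z) ∧
    HasDerivAt (fun b : ℝ => gI g b x)
      (∫ z, Real.exp (-β * ‖z - x‖ ^ 2) * (-‖z - x‖ ^ 2) * g z) β := by
  have hC0 : 0 ≤ C := (abs_nonneg _).trans (hC 0)
  refine hasDerivAt_integral_of_dominated_loc_of_deriv_le (μ := volume) (𝕜 := ℝ)
    (F := fun (b : ℝ) (z : Sp N) => Real.exp (-b * ‖z - x‖ ^ 2) * g z)
    (F' := fun (b : ℝ) (z : Sp N) => Real.exp (-b * ‖z - x‖ ^ 2) * (-‖z - x‖ ^ 2) * g z)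
    (x₀ := β) (s := Ioi (β / 2))
    (bound := fun z => C *
      ((1 + ‖z - x‖ ^ 2) * Real.exp (-(β / 2) * ‖z - x‖ ^ 2)))
    (Ioi_mem_nhds (by linarith)) (Eventually.of_forall fun h => by fun_prop)
    (integrable_gI hg hC hβ _) (by fun_prop) ?_ (integrable_poly_shift _ (half_pos hβ) x _) ?_
  · refine Eventually.of_forall fun z b hb => ?_
    rw [norm_mul, norm_mul, Real.norm_eq_abs, Real.norm_eq_abs, Real.norm_eq_abs,
      abs_of_pos (Real.exp_pos _), abs_neg, abs_of_nonneg (by positivity : 0 ≤ ‖z - x‖ ^ 2)]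
    have h1 : Real.exp (-b * ‖z - x‖ ^ 2) ≤ Real.exp (-(β / 2) * ‖z - x‖ ^ 2) := by
      apply Real.exp_le_exp.2
      have : β / 2 < b := hb
      nlinarith [sq_nonneg ‖z - x‖]
    calc Real.exp (-b * ‖z - x‖ ^ 2) * ‖z - x‖ ^ 2 * |g z|
        ≤ Real.exp (-(β / 2) * ‖z - x‖ ^ 2) * (1 + ‖z - x‖ ^ 2) * C := by
          gcongr
          · linarith
          · exact hC z
      _ = _ := by ring
  · refine Eventually.of_forall fun z b _ => ?_
    have h1 : HasDerivAt (fun b : ℝ => -b * ‖z - x‖ ^ 2) (-‖z - x‖ ^ 2) b := by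
      have := ((hasDerivAt_id' b).fun_neg).mul_const (‖z - x‖ ^ 2)
      refine this.congr_deriv ?_
      ring
    exact (h1.exp.mul_const (g z))

end

end Pool.Agent.KPP
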