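import Pool.Agent.Lib.MP_75f8eb_an.Heat

/-!
# The heat semigroup on bounded continuous functions: semigroup form
-/

namespace Pool.Agent.KPP

open Set Filter Topology MeasureTheory

variable {N : ℕ}

/-- heat flow started from `g` -/
noncomputable def heat (τ : ℝ) (g : Sp N → ℝ) (x : Sp N) : ℝ :=
  ∫ w, G N 1 w * g (x + √τ • w)

theorem heat_zero (g : Sp N → ℝ) (x : Sp N) : heat 0 g x = g x := by
  simp [heat, integral_mul_const, integral_G one_pos]

theorem heat_eq {τ : ℝ} (hτ : 0 < τ) (g : Sp N → ℝ) (x : Sp N) :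
    heat τ g x = ∫ z, G N τ (z - x) * g z := by
  have h1 : ∫ z, G N τ (z - x) * g z = ∫ z, G N τ z * g (x + z) := by
    rw [← integral_add_right_eq_self (fun z => G N τ (z - x) * g z) x]
    congr 1; funext z
    rw [add_sub_cancel_right, add_comm z x]
  have h2 := MeasureTheory.Measure.integral_comp_smul (volume : Measure (Sp N))
    (fun z => G N τ z * g (x + z)) (√τ)
  have hs : 0 < √τ := Real.sqrt_pos.2 hτ
  have hfin : Module.finrank ℝ (Sp N) = N := by simp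
  rw [hfin, abs_of_pos (by positivity), smul_eq_mul] at h2
  have h3 : ∀ w : Sp N, G N τ (√τ • w) = τ ^ (-((N : ℝ) / 2)) * G N 1 w := by
    intro w
    unfold G
    rw [norm_smul, Real.norm_eq_abs, abs_of_pos hs, mul_pow, Real.sq_sqrt hτ.le,
      Real.mul_rpow (by positivity) hτ.le, mul_one]
    have : -(1 / (4 * τ)) * (τ * ‖w‖ ^ 2) = -(1 / (4 * 1)) * ‖w‖ ^ 2 := by
      field_simp
    rw [this]; ring
  have h4 : (√τ ^ N)⁻¹ = τ ^ (-((N : ℝ) / 2)) := by
    rw [Real.rpow_neg hτ.le, Real.sqrt_eq_rpow, ← Real.rpow_natCast, ← Real.rpow_mul hτ.le]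
    congr 2; ring
  have h5 : 0 < τ ^ (-((N : ℝ) / 2)) := by positivity
  simp only [h3] at h2
  rw [h4] at h2
  have h6 : ∫ w, τ ^ (-((N : ℝ) / 2)) * G N 1 w * g (x + √τ • w) =
      τ ^ (-((N : ℝ) / 2)) * heat τ g x := by
    unfold heat
    rw [← integral_const_mul]
    congr 1; funext w; ring
  rw [h6] at h2
  rw [h1]
  exact mul_left_cancel₀ h5.ne' h2

theorem heat_const (τ : ℝ) (c : ℝ) (x : Sp N) : heat τ (fun _ => c) x = c := by
  simp [heat, integral_mul_const, integral_G one_pos]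

section
variable {g g' : Sp N → ℝ} {C C' : ℝ}

theorem integrable_G_mul (hg : Continuous g) (hC : ∀ z, |g z| ≤ C) {τ : ℝ} (hτ : 0 < τ)
    (x : Sp N) : Integrable fun z => G N τ (z - x) * g z := by
  refine ((G_integrable_sub hτ x).mul_const C).mono' ?_ (Eventually.of_forall fun z => ?_)
  · exact (((G_continuous τ).comp (continuous_id.sub continuous_const)).mul hg).aestronglyMeasurable
  · rw [norm_mul, Real.norm_eq_abs, Real.norm_eq_abs, abs_of_nonneg (G_nonneg hτ _)]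
    exact mul_le_mul_of_nonneg_left (hC z) (G_nonneg hτ _)

theorem integrable_heat (hg : Continuous g) (hC : ∀ z, |g z| ≤ C) (τ : ℝ)
    (x : Sp N) : Integrable fun w => G N 1 w * g (x + √τ • w) := by
  refine ((G_integrable one_pos).mul_const C).mono' ?_ (Eventually.of_forall fun z => ?_)
  · exact ((G_continuous 1).mul (hg.comp (by fun_prop))).aestronglyMeasurable
  · rw [norm_mul, Real.norm_eq_abs, Real.norm_eq_abs, abs_of_nonneg (G_nonneg one_pos _)]
    exact mul_le_mul_of_nonneg_left (hC _) (G_nonneg one_pos _)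

theorem heat_mono (hg : Continuous g) (hC : ∀ z, |g z| ≤ C) (hg' : Continuous g')
    (hC' : ∀ z, |g' z| ≤ C') (h : ∀ z, g z ≤ g' z) (τ : ℝ) (x : Sp N) :
    heat τ g x ≤ heat τ g' x :=
  integral_mono (integrable_heat hg hC τ x) (integrable_heat hg' hC' τ x)
    fun _ => mul_le_mul_of_nonneg_left (h _) (G_nonneg one_pos _)

theorem heat_nonneg (h : ∀ z, 0 ≤ g z) (τ : ℝ) (x : Sp N) : 0 ≤ heat τ g x :=
  integral_nonneg fun _ => mul_nonneg (G_nonneg one_pos _) (h _)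

theorem heat_le (hg : Continuous g) (hC : ∀ z, |g z| ≤ C) {c : ℝ} (h : ∀ z, g z ≤ c) (τ : ℝ)
    (x : Sp N) : heat τ g x ≤ c := by
  have h1 := heat_mono hg hC continuous_const (g' := fun _ => c) (C' := |c|) (fun _ => le_rfl) h τ x
  rwa [heat_const] at h1

theorem le_heat (hg : Continuous g) (hC : ∀ z, |g z| ≤ C) {c : ℝ} (h : ∀ z, c ≤ g z) (τ : ℝ)
    (x : Sp N) : c ≤ heat τ g x := by
  have h1 := heat_mono continuous_const (g := fun _ => c) (C := |c|) (fun _ => le_rfl) hg hC h τ x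
  rwa [heat_const] at h1

theorem heat_const_mul (c : ℝ) (τ : ℝ) (g : Sp N → ℝ) (x : Sp N) :
    heat τ (fun z => c * g z) x = c * heat τ g x := by
  unfold heat
  rw [← integral_const_mul]
  congr 1; funext w; ring

theorem heat_continuous (hg : Continuous g) (hC : ∀ z, |g z| ≤ C) :
    Continuous fun p : ℝ × Sp N => heat p.1 g p.2 := by
  unfold heat
  refine continuous_of_dominated (bound := fun w => G N 1 w * C) (fun p => ?_) (fun p => ?_)
    ((G_integrable one_pos).mul_const C) ?_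
  · exact ((G_continuous 1).mul (hg.comp (by fun_prop))).aestronglyMeasurable
  · refine Eventually.of_forall fun w => ?_
    rw [norm_mul, Real.norm_eq_abs, Real.norm_eq_abs, abs_of_nonneg (G_nonneg one_pos _)]
    exact mul_le_mul_of_nonneg_left (hC _) (G_nonneg one_pos _)
  · refine Eventually.of_forall fun w => ?_
    exact continuous_const.mul (hg.comp (by fun_prop))

theorem heat_eq_gI {τ : ℝ} (hτ : 0 < τ) (g : Sp N → ℝ) (x : Sp N) :
    heat τ g x = (4 * Real.pi * τ) ^ (-((N : ℝ) / 2)) * gI g (1 / (4 * τ)) x := by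
  rw [heat_eq hτ, gI, ← integral_const_mul]
  congr 1; funext z
  unfold G; ring

theorem sum_gI2 (hg : Continuous g) (hC : ∀ z, |g z| ≤ C) {β : ℝ} (hβ : 0 < β) (x : Sp N) :
    ∑ i, gI2 g β i x =
      -(4 * β ^ 2) * (∫ z, Real.exp (-β * ‖z - x‖ ^ 2) * (-‖z - x‖ ^ 2) * g z) -
        2 * β * N * gI g β x := by
  unfold gI2 gI
  rw [← integral_finsetSum _ fun i _ => (gI2_deriv hg hC hβ x i).1, ← integral_const_mul,
    ← integral_const_mul, ← integral_sub]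
  · congr 1; funext z
    have h1 : ∑ i : Fin N, Real.exp (-β * ‖z - x‖ ^ 2) * ((2 * β * (z - x) i) ^ 2 - 2 * β) * g z =
        Real.exp (-β * ‖z - x‖ ^ 2) * (4 * β ^ 2 * ∑ i, (z - x) i ^ 2 - 2 * β * N) * g z := by
      rw [← Finset.sum_mul, ← Finset.mul_sum, Finset.sum_sub_distrib]
      congr 2
      rw [Finset.mul_sum]
      congr 1
      · exact Finset.sum_congr rfl fun i _ => by ring
      · simp; ring
    rw [h1, sum_sq_coord]; ring
  · exact (gI_deriv_beta hg hC hβ x).1.const_mul _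
  · exact (integrable_gI hg hC hβ x).const_mul _

theorem heat_jets (hg : Continuous g) (hC : ∀ z, |g z| ≤ C) {τ : ℝ} (hτ : 0 < τ) (x : Sp N) :
    ∃ (d : ℝ) (p m : Fin N → ℝ), HasDerivAt (fun t => heat t g x) d τ ∧
      (∀ i, J1 (fun h => heat τ g (x + h • bv i)) (p i) (m i)) ∧ d = ∑ i, m i := by
  have hβ : 0 < 1 / (4 * τ) := by positivity
  set A : ℝ := (4 * Real.pi * τ) ^ (-((N : ℝ) / 2)) with hA
  set I' : ℝ := ∫ z, Real.exp (-(1 / (4 * τ)) * ‖z - x‖ ^ 2) * (-‖z - x‖ ^ 2) * g z with hI'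
  have hd : HasDerivAt (fun t => heat t g x)
      ((-((N : ℝ) / 2) / τ * A) * gI g (1 / (4 * τ)) x + A * (I' * (-(1 / (4 * τ ^ 2))))) τ := by
    have h1 : HasDerivAt (fun t : ℝ => (4 * Real.pi * t) ^ (-((N : ℝ) / 2)))
        (-((N : ℝ) / 2) / τ * A) τ := by
      have h2 : HasDerivAt (fun t : ℝ => 4 * Real.pi * t) (4 * Real.pi * 1) τ :=
        (hasDerivAt_id' τ).const_mul _
      have h3 := h2.rpow_const (p := -((N : ℝ) / 2)) (Or.inl (by positivity))
      refine h3.congr_deriv ?_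
      rw [hA, Real.rpow_sub_one (by positivity)]
      field_simp
    have h4 : HasDerivAt (fun t : ℝ => 1 / (4 * t)) (-(1 / (4 * τ ^ 2))) τ := by
      have h5 : HasDerivAt (fun t : ℝ => 4 * t) (4 * 1) τ := (hasDerivAt_id' τ).const_mul _
      have h6 := h5.fun_inv (by positivity)
      have h7 : (fun t : ℝ => 1 / (4 * t)) = fun t => (4 * t)⁻¹ := by funext t; rw [one_div]
      rw [h7]
      refine h6.congr_deriv ?_
      field_simp
    have h8 : HasDerivAt (fun t : ℝ => gI g (1 / (4 * t)) x) (I' * (-(1 / (4 * τ ^ 2)))) τ :=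
      HasDerivAt.comp (h₂ := fun b => gI g b x) τ (gI_deriv_beta hg hC hβ x).2 h4
    have h9 := h1.fun_mul h8
    refine h9.congr_of_eventuallyEq ?_
    filter_upwards [Ioi_mem_nhds hτ] with t ht
    exact heat_eq_gI ht g x
  refine ⟨_, fun i => A * gI1 g (1 / (4 * τ)) i x, fun i => A * gI2 g (1 / (4 * τ)) i x, hd,
    fun i => ?_, ?_⟩
  · refine ((J1_gI hg hC hβ x i).const_mul A).congr fun h => ?_
    exact heat_eq_gI hτ g _
  · rw [← Finset.mul_sum, sum_gI2 hg hC hβ x, ← hI']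
    field_simp
    ring

/-- one-sided modulus of continuity of the heat flow for large times -/
theorem heat_flat (hg : Continuous g) (h0 : ∀ z, 0 ≤ g z) (h1 : ∀ z, g z ≤ 1) {τ : ℝ}
    (hτ : 0 < τ) (x y : Sp N) :
    heat τ g x ≤ heat τ g y + (2 : ℝ) ^ ((N : ℝ) / 2) * ‖x - y‖ / √(2 * τ) +
      ‖x - y‖ ^ 2 / (4 * τ) := by
  have hC : ∀ z, |g z| ≤ 1 := fun z => by rw [abs_of_nonneg (h0 z)]; exact h1 z
  rw [heat_eq hτ, heat_eq hτ]
  have hs : 0 < √(2 * τ) := Real.sqrt_pos.2 (by positivity)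
  have hss : √(2 * τ) ^ 2 = 2 * τ := Real.sq_sqrt (by positivity)
  obtain ⟨hJi, hJ⟩ := integral_G_weight (N := N) hτ (by norm_num : (1 / 2 : ℝ) < 1) 0
  simp only [sub_zero, norm_zero] at hJi hJ
  have hJ' : ∫ z : Sp N, G N τ z * Real.exp (1 / 2 * ‖z‖ ^ 2 / (4 * τ)) = 2 ^ ((N : ℝ) / 2) := by
    rw [hJ]
    have : (1 : ℝ) - 1 / 2 = 2⁻¹ := by norm_num
    rw [this, Real.inv_rpow (by norm_num), Real.rpow_neg (by norm_num)]
    simp
  have hJi2 : Integrable fun z : Sp N => G N τ (z - x) * Real.exp (1 / 2 * ‖z - x‖ ^ 2 / (4 * τ)) :=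
    hJi.comp_sub_right x
  have hJ2 : ∫ z : Sp N, G N τ (z - x) * Real.exp (1 / 2 * ‖z - x‖ ^ 2 / (4 * τ)) =
      2 ^ ((N : ℝ) / 2) := by
    rw [integral_sub_right_eq_self
      (fun z : Sp N => G N τ z * Real.exp (1 / 2 * ‖z‖ ^ 2 / (4 * τ))), hJ']
  have hpt : ∀ z : Sp N, G N τ (z - x) * g z ≤ G N τ (z - y) * g z +
      (‖x - y‖ / √(2 * τ) * (G N τ (z - x) * Real.exp (1 / 2 * ‖z - x‖ ^ 2 / (4 * τ))) +
        ‖x - y‖ ^ 2 / (4 * τ) * G N τ (z - x)) := by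
    intro z
    have e1 : G N τ (z - y) = G N τ (z - x) *
        Real.exp (-(‖z - y‖ ^ 2 - ‖z - x‖ ^ 2) / (4 * τ)) := by
      unfold G
      generalize (4 * Real.pi * τ) ^ (-((N : ℝ) / 2)) = A
      rw [mul_assoc, ← Real.exp_add]
      congr 2
      field_simp; ring
    have e2 : ‖z - y‖ ^ 2 - ‖z - x‖ ^ 2 ≤ 2 * ‖z - x‖ * ‖x - y‖ + ‖x - y‖ ^ 2 := by
      have : ‖z - y‖ ≤ ‖z - x‖ + ‖x - y‖ := by
        have : z - y = (z - x) + (x - y) := by abel
        rw [this]; exact norm_add_le _ _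
      nlinarith [norm_nonneg (z - y), norm_nonneg (z - x), norm_nonneg (x - y)]
    have e3 : 1 - (2 * ‖z - x‖ * ‖x - y‖ + ‖x - y‖ ^ 2) / (4 * τ) ≤
        Real.exp (-(‖z - y‖ ^ 2 - ‖z - x‖ ^ 2) / (4 * τ)) := by
      have h2 := Real.add_one_le_exp (-(‖z - y‖ ^ 2 - ‖z - x‖ ^ 2) / (4 * τ))
      have h3 : (‖z - y‖ ^ 2 - ‖z - x‖ ^ 2) / (4 * τ) ≤
        (2 * ‖z - x‖ * ‖x - y‖ + ‖x - y‖ ^ 2) / (4 * τ) := by gcongr
      have h4 : -(‖z - y‖ ^ 2 - ‖z - x‖ ^ 2) / (4 * τ) = -((‖z - y‖ ^ 2 - ‖z - x‖ ^ 2) / (4 * τ)) := by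
        ring
      rw [h4] at h2 ⊢
      linarith
    have e4 : ‖z - x‖ ≤ √(2 * τ) * Real.exp (1 / 2 * ‖z - x‖ ^ 2 / (4 * τ)) := by
      have h2 := Real.add_one_le_exp (1 / 2 * ‖z - x‖ ^ 2 / (4 * τ))
      have h3 : ‖z - x‖ ≤ √(2 * τ) * (1 / 2 * ‖z - x‖ ^ 2 / (4 * τ) + 1) := by
        have h4 : 1 / 2 * ‖z - x‖ ^ 2 / (4 * τ) = (‖z - x‖ / √(2 * τ)) ^ 2 / 4 := by
          rw [div_pow, hss]; field_simp
        have h5 : ‖z - x‖ = √(2 * τ) * (‖z - x‖ / √(2 * τ)) := by field_simp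
        rw [h4]
        nth_rewrite 1 [h5]
        apply mul_le_mul_of_nonneg_left _ hs.le
        nlinarith [sq_nonneg (‖z - x‖ / √(2 * τ) - 2)]
      exact h3.trans (mul_le_mul_of_nonneg_left h2 hs.le)
    have hG := G_nonneg hτ (z - x)
    have hn := norm_nonneg (x - y)
    have e5 : G N τ (z - x) * g z ≤ G N τ (z - y) * g z + G N τ (z - x) *
        ((2 * ‖z - x‖ * ‖x - y‖ + ‖x - y‖ ^ 2) / (4 * τ)) := by
      rw [e1]
      set Q := (2 * ‖z - x‖ * ‖x - y‖ + ‖x - y‖ ^ 2) / (4 * τ) with hQ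
      set X := Real.exp (-(‖z - y‖ ^ 2 - ‖z - x‖ ^ 2) / (4 * τ)) with hX
      have hQ0 : 0 ≤ Q := by positivity
      have h6 : g z ≤ X * g z + Q := by
        have h7 : (1 - Q) * g z ≤ X * g z := mul_le_mul_of_nonneg_right e3 (h0 z)
        nlinarith [h0 z, h1 z]
      nlinarith
    have e6 : (2 * ‖z - x‖ * ‖x - y‖ + ‖x - y‖ ^ 2) / (4 * τ) ≤
        ‖x - y‖ / √(2 * τ) * Real.exp (1 / 2 * ‖z - x‖ ^ 2 / (4 * τ)) + ‖x - y‖ ^ 2 / (4 * τ) := by
      have h7 : 2 * ‖z - x‖ * ‖x - y‖ / (4 * τ) ≤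
          ‖x - y‖ / √(2 * τ) * Real.exp (1 / 2 * ‖z - x‖ ^ 2 / (4 * τ)) := by
        have h8 : ‖x - y‖ / √(2 * τ) * Real.exp (1 / 2 * ‖z - x‖ ^ 2 / (4 * τ)) =
            2 * (√(2 * τ) * Real.exp (1 / 2 * ‖z - x‖ ^ 2 / (4 * τ))) * ‖x - y‖ /
              (2 * √(2 * τ) ^ 2) := by
          field_simp
        rw [h8, hss]
        have h9 : 2 * (2 * τ) = 4 * τ := by ring
        rw [h9]
        gcongr
      rw [add_div]; linarith
    nlinarith [mul_le_mul_of_nonneg_left e6 hG]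
  have hi1 := integrable_G_mul hg hC hτ x
  have hi2 := integrable_G_mul hg hC hτ y
  have hi3a : Integrable fun z => ‖x - y‖ / √(2 * τ) *
      (G N τ (z - x) * Real.exp (1 / 2 * ‖z - x‖ ^ 2 / (4 * τ))) := hJi2.const_mul _
  have hi3b : Integrable fun z => ‖x - y‖ ^ 2 / (4 * τ) * G N τ (z - x) :=
    (G_integrable_sub (N := N) hτ x).const_mul _
  have hi3 : Integrable fun z => (‖x - y‖ / √(2 * τ) *
      (G N τ (z - x) * Real.exp (1 / 2 * ‖z - x‖ ^ 2 / (4 * τ))) +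
      ‖x - y‖ ^ 2 / (4 * τ) * G N τ (z - x)) := hi3a.add hi3b
  have hi23 : Integrable fun z => G N τ (z - y) * g z + (‖x - y‖ / √(2 * τ) *
      (G N τ (z - x) * Real.exp (1 / 2 * ‖z - x‖ ^ 2 / (4 * τ))) +
      ‖x - y‖ ^ 2 / (4 * τ) * G N τ (z - x)) := hi2.add hi3
  have hint := integral_mono hi1 hi23 hpt
  rw [integral_add hi2 hi3, integral_add hi3a hi3b, integral_const_mul, integral_const_mul, hJ2,
      integral_sub_right_eq_self (G N τ), integral_G hτ, mul_one] at hint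
  have h10 : (2 : ℝ) ^ ((N : ℝ) / 2) * ‖x - y‖ / √(2 * τ) =
    ‖x - y‖ / √(2 * τ) * 2 ^ ((N : ℝ) / 2) := by ring
  rw [h10]; linarith

end

end Pool.Agent.KPP
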