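import Pool.Agent.Lib.MP_75f8eb_an.Defs

/-!
# Second order jets along coordinate lines and the parabolic maximum principle
-/

namespace Pool.Agent.KPP

open Set Filter Topology

/-- shorthand for the space -/
abbrev Sp (N : ℕ) := EuclideanSpace ℝ (Fin N)

/-- the `i`-th standard basis vector -/
noncomputable def bv {N : ℕ} (i : Fin N) : Sp N := EuclideanSpace.single i 1

/-- `φ` is differentiable near `0` with derivative `a` at `0`, and its derivative has derivative `b`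
at `0`. -/
def J1 (φ : ℝ → ℝ) (a b : ℝ) : Prop :=
  ∃ g : ℝ → ℝ, (∀ᶠ h in 𝓝 (0 : ℝ), HasDerivAt φ (g h) h) ∧ g 0 = a ∧ HasDerivAt g b 0

theorem J1.const (c : ℝ) : J1 (fun _ => c) 0 0 :=
  ⟨fun _ => 0, Eventually.of_forall fun h => hasDerivAt_const h c, rfl, hasDerivAt_const _ _⟩

theorem J1.add {φ ψ : ℝ → ℝ} {a b a' b' : ℝ} (h1 : J1 φ a b) (h2 : J1 ψ a' b') :
    J1 (fun h => φ h + ψ h) (a + a') (b + b') := by
  obtain ⟨g1, hg1, e1, d1⟩ := h1
  obtain ⟨g2, hg2, e2, d2⟩ := h2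
  refine ⟨fun h => g1 h + g2 h, ?_, by simp only [e1, e2], d1.fun_add d2⟩
  filter_upwards [hg1, hg2] with h k1 k2 using k1.fun_add k2

theorem J1.const_mul {φ : ℝ → ℝ} {a b : ℝ} (c : ℝ) (h1 : J1 φ a b) :
    J1 (fun h => c * φ h) (c * a) (c * b) := by
  obtain ⟨g1, hg1, e1, d1⟩ := h1
  refine ⟨fun h => c * g1 h, ?_, by simp only [e1], d1.const_mul c⟩
  filter_upwards [hg1] with h k1 using k1.const_mul c

theorem J1.neg {φ : ℝ → ℝ} {a b : ℝ} (h1 : J1 φ a b) :
    J1 (fun h => -φ h) (-a) (-b) := by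
  obtain ⟨g1, hg1, e1, d1⟩ := h1
  refine ⟨fun h => -g1 h, ?_, by simp only [e1], d1.fun_neg⟩
  filter_upwards [hg1] with h k1 using k1.fun_neg

theorem J1.sub {φ ψ : ℝ → ℝ} {a b a' b' : ℝ} (h1 : J1 φ a b) (h2 : J1 ψ a' b') :
    J1 (fun h => φ h - ψ h) (a - a') (b - b') := by
  simpa [sub_eq_add_neg] using h1.add h2.neg

theorem hasDerivAt_quad (α β γ h : ℝ) :
    HasDerivAt (fun h : ℝ => α + β * h + γ * h ^ 2) (β + 2 * γ * h) h := by
  have h1 : HasDerivAt (fun h : ℝ => α + β * h) (β * 1) h :=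
    ((hasDerivAt_id' h).const_mul β).const_add α
  have h2 : HasDerivAt (fun h : ℝ => γ * h ^ 2) (γ * (((2 : ℕ) : ℝ) * h ^ (2 - 1))) h :=
    (hasDerivAt_pow 2 h).const_mul γ
  have h3 := h1.fun_add h2
  refine h3.congr_deriv ?_
  norm_num; ring

theorem hasDerivAt_affine (β γ h : ℝ) : HasDerivAt (fun h : ℝ => β + γ * h) γ h := by
  have h1 : HasDerivAt (fun h : ℝ => β + γ * h) (γ * 1) h :=
    ((hasDerivAt_id' h).const_mul γ).const_add β
  simpa using h1

theorem J1.quad (α β γ : ℝ) : J1 (fun h => α + β * h + γ * h ^ 2) β (2 * γ) :=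
  ⟨fun h => β + 2 * γ * h, Eventually.of_forall fun h => hasDerivAt_quad α β γ h, by simp,
    hasDerivAt_affine β (2 * γ) 0⟩

theorem J1.expquad (α β γ : ℝ) :
    J1 (fun h => Real.exp (α + β * h + γ * h ^ 2)) (β * Real.exp α)
      ((2 * γ + β ^ 2) * Real.exp α) := by
  refine ⟨fun h => Real.exp (α + β * h + γ * h ^ 2) * (β + 2 * γ * h),
    Eventually.of_forall fun h => (hasDerivAt_quad α β γ h).exp, by simp; ring, ?_⟩
  have h3 := (hasDerivAt_quad α β γ 0).exp.fun_mul (hasDerivAt_affine β (2 * γ) 0)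
  refine h3.congr_deriv ?_
  simp; ring

theorem J1.congr {φ ψ : ℝ → ℝ} {a b : ℝ} (h1 : J1 φ a b) (h : ∀ t, ψ t = φ t) : J1 ψ a b := by
  have : ψ = φ := funext h
  rwa [this]

theorem J1.congr' {φ : ℝ → ℝ} {a b a' b' : ℝ} (h1 : J1 φ a b) (ha : a' = a) (hb : b' = b) :
    J1 φ a' b' := by
  rw [ha, hb]; exact h1

theorem J1.sum {ι : Type*} (s : Finset ι) {φ : ι → ℝ → ℝ} {a b : ι → ℝ}
    (h : ∀ j ∈ s, J1 (φ j) (a j) (b j)) :
    J1 (fun t => ∑ j ∈ s, φ j t) (∑ j ∈ s, a j) (∑ j ∈ s, b j) := by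
  classical
  induction s using Finset.induction_on with
  | empty => simpa using J1.const 0
  | insert j s hj ih =>
    simp only [Finset.sum_insert hj]
    exact (h j (Finset.mem_insert_self _ _)).add
      (ih fun k hk => h k (Finset.mem_insert_of_mem hk))

/-- second derivative test -/
theorem J1.nonpos_of_max {φ : ℝ → ℝ} {a b : ℝ} (h1 : J1 φ a b)
    (hmax : ∀ᶠ h in 𝓝 (0 : ℝ), φ h ≤ φ 0) : b ≤ 0 := by
  obtain ⟨g, hg, e, d⟩ := h1
  by_contra hb
  push Not at hb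
  have hg0 : HasDerivAt φ (g 0) 0 := hg.self_of_nhds
  have ha : g 0 = 0 := IsLocalMax.hasDerivAt_eq_zero hmax hg0
  have hslope := d.tendsto_slope
  have h2 : ∀ᶠ h in 𝓝[≠] (0 : ℝ), 0 < slope g 0 h := hslope.eventually (lt_mem_nhds hb)
  have h3 : ∀ᶠ h in 𝓝 (0 : ℝ), h ≠ 0 → 0 < slope g 0 h := by
    rwa [eventually_nhdsWithin_iff] at h2
  obtain ⟨r, hr, hball⟩ := Metric.eventually_nhds_iff.1 (hg.and (h3.and hmax))
  have hmem : ∀ h : ℝ, 0 ≤ h → h ≤ r / 2 → dist h 0 < r := by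
    intro h h0 h1
    rw [Real.dist_eq, sub_zero, abs_of_nonneg h0]; linarith
  obtain ⟨c, hc, hcs⟩ := exists_hasDerivAt_eq_slope φ g (by linarith : (0 : ℝ) < r / 2)
    (fun h hh => ((hball (hmem h hh.1 hh.2)).1).continuousAt.continuousWithinAt)
    (fun h hh => (hball (hmem h hh.1.le hh.2.le)).1)
  have hcpos := (hball (hmem c hc.1.le hc.2.le)).2.1 hc.1.ne'
  rw [slope_def_field, ha] at hcpos
  have hgc : 0 < g c := by
    have := (div_pos_iff_of_pos_right (by linarith [hc.1] : (0 : ℝ) < c - 0)).1 hcpos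
    linarith
  have hle := (hball (hmem (r / 2) (by linarith) le_rfl)).2.2
  rw [hcs] at hgc
  have := (div_pos_iff_of_pos_right (by linarith : (0 : ℝ) < r / 2 - 0)).1 hgc
  linarith

/-- first derivative test from the left -/
theorem deriv_nonneg_of_left_max {φ : ℝ → ℝ} {d t0 : ℝ} (h : HasDerivAt φ d t0)
    (hmax : ∀ᶠ t in 𝓝[<] t0, φ t ≤ φ t0) : 0 ≤ d := by
  have h1 : Tendsto (slope φ t0) (𝓝[<] t0) (𝓝 d) :=
    (hasDerivWithinAt_iff_tendsto_slope' (by simp)).1 (h.hasDerivWithinAt (s := Iio t0))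
  refine ge_of_tendsto h1 ?_
  filter_upwards [hmax, self_mem_nhdsWithin] with t ht htt
  rw [slope_def_field]
  have h3 : t - t0 < 0 := sub_neg.2 htt
  exact div_nonneg_of_nonpos (by linarith) h3.le

theorem norm_add_smul_bv_sq {N : ℕ} (x : Sp N) (i : Fin N) (h : ℝ) :
    ‖x + h • bv i‖ ^ 2 = ‖x‖ ^ 2 + 2 * x i * h + 1 * h ^ 2 := by
  rw [norm_add_sq_real, norm_smul, inner_smul_right]
  have h1 : inner ℝ x (bv i) = x i := by
    simp [bv, EuclideanSpace.inner_single_right]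
  have h2 : ‖(bv i : Sp N)‖ = 1 := by simp [bv]
  rw [h1, h2]
  simp
  ring

theorem sum_sq_coord {N : ℕ} (x : Sp N) : ∑ i, x i ^ 2 = ‖x‖ ^ 2 := by
  rw [EuclideanSpace.norm_sq_eq]
  simp

/-- **Parabolic maximum principle**, with smooth lower supports at the points of positivity. -/
theorem maxPrinciple {N : ℕ} {s T Λ B : ℝ} (D : ℝ → Sp N → ℝ)
    (hcont : ContinuousOn (fun p : ℝ × Sp N => D p.1 p.2) (Icc s T ×ˢ univ))
    (hB : ∀ t ∈ Icc s T, ∀ x, D t x ≤ B) (h0 : ∀ x, D s x ≤ 0)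
    (hD : ∀ t0 ∈ Ioc s T, ∀ x0, 0 < D t0 x0 →
      ∃ (φ : ℝ → ℝ) (d : ℝ) (ψ : Sp N → ℝ) (p m : Fin N → ℝ),
        φ t0 = D t0 x0 ∧ (∀ᶠ t in 𝓝[<] t0, φ t ≤ D t x0) ∧ HasDerivAt φ d t0 ∧
        ψ x0 = D t0 x0 ∧ (∀ᶠ x in 𝓝 x0, ψ x ≤ D t0 x) ∧
        (∀ i, J1 (fun h => ψ (x0 + h • bv i)) (p i) (m i)) ∧
        d ≤ ∑ i, m i + Λ * D t0 x0) :
    ∀ t ∈ Icc s T, ∀ x, D t x ≤ 0 := by
  intro t1 ht1 x1
  by_contra hpos
  push Not at hpos
  set L : ℝ := Λ + 1 with hL
  set Q : ℝ → Sp N → ℝ := fun t x => ‖x‖ ^ 2 + (2 * N + 1) * (t - s) + 1 with hQ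
  set e0 : ℝ := Real.exp (-L * (t1 - s)) * D t1 x1 with he0
  have he0pos : 0 < e0 := mul_pos (Real.exp_pos _) hpos
  have hQ1 : 0 < Q t1 x1 := by
    have : 0 ≤ t1 - s := sub_nonneg.2 ht1.1
    simp only [hQ]; positivity
  set ε : ℝ := e0 / (2 * Q t1 x1) with hε
  have hεpos : 0 < ε := by positivity
  set F : ℝ × Sp N → ℝ := fun p => Real.exp (-L * (p.1 - s)) * D p.1 p.2 - ε * Q p.1 p.2 with hF
  have hF1 : 0 < F (t1, x1) := by
    have h1 : ε * Q t1 x1 = e0 / 2 := by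
      rw [hε]; field_simp
    simp only [hF]
    rw [← he0, h1]; linarith
  -- upper bound of the exponential factor
  set E : ℝ := Real.exp (|L| * (T - s)) with hE
  have hsT : s ≤ T := ht1.1.trans ht1.2
  have hEb : ∀ t ∈ Icc s T, Real.exp (-L * (t - s)) ≤ E := by
    intro t ht
    apply Real.exp_le_exp.2
    have h1 : -L * (t - s) ≤ |L| * (t - s) :=
      mul_le_mul_of_nonneg_right (neg_le_abs L) (sub_nonneg.2 ht.1)
    have h2 : |L| * (t - s) ≤ |L| * (T - s) :=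
      mul_le_mul_of_nonneg_left (by linarith [ht.2]) (abs_nonneg L)
    linarith
  have hE0 : 0 < E := Real.exp_pos _
  set R : ℝ := ‖x1‖ + E * |B| / ε + 1 with hR
  have hR1 : 1 ≤ R := by
    have : 0 ≤ E * |B| / ε := by positivity
    have := norm_nonneg x1
    linarith
  have hout : ∀ t ∈ Icc s T, ∀ x : Sp N, R < ‖x‖ → F (t, x) < 0 := by
    intro t ht x hx
    have h1 : Real.exp (-L * (t - s)) * D t x ≤ E * |B| := by
      calc Real.exp (-L * (t - s)) * D t x ≤ Real.exp (-L * (t - s)) * |B| :=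
            mul_le_mul_of_nonneg_left ((hB t ht x).trans (le_abs_self B)) (Real.exp_pos _).le
        _ ≤ E * |B| := mul_le_mul_of_nonneg_right (hEb t ht) (abs_nonneg B)
    have h2 : E * |B| ≤ ε * ‖x‖ ^ 2 := by
      have h3 : E * |B| / ε ≤ ‖x‖ ^ 2 := by
        have h4 : E * |B| / ε ≤ ‖x‖ := by
          have := norm_nonneg x1
          linarith
        have h5 : ‖x‖ ≤ ‖x‖ ^ 2 := by nlinarith
        linarith
      rw [div_le_iff₀ hεpos] at h3
      linarith
    have h6 : 0 ≤ (2 * (N : ℝ) + 1) * (t - s) := by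
      have : 0 ≤ t - s := sub_nonneg.2 ht.1
      positivity
    simp only [hF, hQ]
    nlinarith
  have hcF : ContinuousOn F (Icc s T ×ˢ Metric.closedBall (0 : Sp N) R) := by
    have h1 : ContinuousOn (fun p : ℝ × Sp N => D p.1 p.2)
        (Icc s T ×ˢ Metric.closedBall (0 : Sp N) R) :=
      hcont.mono (prod_mono le_rfl (subset_univ _))
    apply ContinuousOn.sub
    · exact (Continuous.continuousOn (by fun_prop)).mul h1
    · exact Continuous.continuousOn (by fun_prop)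
  have hx1R : x1 ∈ Metric.closedBall (0 : Sp N) R := by
    rw [mem_closedBall_zero_iff]
    have : 0 ≤ E * |B| / ε := by positivity
    linarith
  obtain ⟨⟨t0, x0⟩, hmem, hmax⟩ := (isCompact_Icc.prod (isCompact_closedBall (0 : Sp N) R)).exists_isMaxOn
    ⟨(t1, x1), ht1, hx1R⟩ hcF
  have ht0 : t0 ∈ Icc s T := hmem.1
  have hF0 : 0 < F (t0, x0) := lt_of_lt_of_le hF1 (hmax ⟨ht1, hx1R⟩)
  have hglob : ∀ t ∈ Icc s T, ∀ x, F (t, x) ≤ F (t0, x0) := by
    intro t ht x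
    by_cases hx : ‖x‖ ≤ R
    · exact hmax ⟨ht, by rwa [mem_closedBall_zero_iff]⟩
    · exact (hout t ht x (not_le.1 hx)).le.trans hF0.le
  have hQpos : ∀ t ∈ Icc s T, ∀ x : Sp N, 0 < Q t x := by
    intro t ht x
    have : 0 ≤ t - s := sub_nonneg.2 ht.1
    simp only [hQ]; positivity
  have hst0 : s < t0 := by
    rcases eq_or_lt_of_le ht0.1 with h | h
    · exfalso
      have h1 := h0 x0
      have h2 := hQpos t0 ht0 x0
      have h3 : F (t0, x0) ≤ 0 := by
        simp only [hF]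
        rw [← h]
        have h4 : Real.exp (-L * (s - s)) * D s x0 ≤ 0 :=
          mul_nonpos_of_nonneg_of_nonpos (Real.exp_pos _).le h1
        rw [← h] at h2
        have := mul_pos hεpos h2
        linarith
      linarith
    · exact h
  set k : ℝ := Real.exp (-L * (t0 - s)) with hk
  have hkpos : 0 < k := Real.exp_pos _
  have hF0eq : F (t0, x0) = k * D t0 x0 - ε * Q t0 x0 := rfl
  have hD0 : 0 < D t0 x0 := by
    by_contra hn
    push Not at hn
    have h1 := mul_nonpos_of_nonneg_of_nonpos hkpos.le hn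
    have h2 := mul_pos hεpos (hQpos t0 ht0 x0)
    linarith
  obtain ⟨φ, d, ψ, p, m, hφ0, hφle, hφd, hψ0, hψle, hψJ, hineq⟩ := hD t0 ⟨hst0, ht0.2⟩ x0 hD0
  -- time
  have htime : 0 ≤ k * d + (-L) * k * D t0 x0 - ε * (2 * N + 1) := by
    have hdA : HasDerivAt (fun t => Real.exp (-L * (t - s)) * φ t - ε * Q t x0)
        (k * d + (-L) * k * D t0 x0 - ε * (2 * N + 1)) t0 := by
      have h1 : HasDerivAt (fun t : ℝ => -L * (t - s)) (-L) t0 := by
        simpa using ((hasDerivAt_id t0).sub_const s).const_mul (-L)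
      have h2 : HasDerivAt (fun t : ℝ => Real.exp (-L * (t - s))) (k * (-L)) t0 := h1.exp
      have h3 : HasDerivAt (fun t : ℝ => Q t x0) ((2 * N + 1)) t0 := by
        have h4 : HasDerivAt (fun t : ℝ => (2 * (N : ℝ) + 1) * (t - s)) (2 * N + 1) t0 := by
          simpa using ((hasDerivAt_id t0).sub_const s).const_mul (2 * (N : ℝ) + 1)
        simpa [hQ] using (h4.const_add (‖x0‖ ^ 2)).add_const (1 : ℝ)
      have h5 := (h2.fun_mul hφd).fun_sub (h3.const_mul ε)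
      refine h5.congr_deriv ?_
      rw [hφ0]; ring
    refine deriv_nonneg_of_left_max hdA ?_
    have hIoo : ∀ᶠ t in 𝓝[<] t0, t ∈ Ioo s t0 := Ioo_mem_nhdsLT hst0
    filter_upwards [hφle, hIoo] with t ht1' ht2'
    have h6 := hglob t ⟨ht2'.1.le, ht2'.2.le.trans ht0.2⟩ x0
    have h7 : Real.exp (-L * (t - s)) * φ t ≤ Real.exp (-L * (t - s)) * D t x0 :=
      mul_le_mul_of_nonneg_left ht1' (Real.exp_pos _).le
    have h8 : F (t, x0) = Real.exp (-L * (t - s)) * D t x0 - ε * Q t x0 := rfl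
    simp only [hφ0]
    linarith
  -- space
  have hspace : ∀ i, k * m i - ε * 2 ≤ 0 := by
    intro i
    have hJq : J1 (fun h => Q t0 (x0 + h • bv i)) (2 * x0 i) 2 := by
      have h1 := J1.quad (‖x0‖ ^ 2 + (2 * N + 1) * (t0 - s) + 1) (2 * x0 i) 1
      refine (h1.congr fun h => ?_).congr' rfl (by ring)
      simp only [hQ]
      rw [norm_add_smul_bv_sq]; ring
    have hJ := ((hψJ i).const_mul k).sub (hJq.const_mul ε)
    refine hJ.nonpos_of_max ?_
    have hc : Tendsto (fun h : ℝ => x0 + h • bv i) (𝓝 0) (𝓝 x0) := by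
      have : Continuous fun h : ℝ => x0 + h • bv i := by fun_prop
      simpa using this.tendsto 0
    filter_upwards [hc.eventually hψle] with h hh
    have h6 := hglob t0 ht0 (x0 + h • bv i)
    have h7 : k * ψ (x0 + h • bv i) ≤ k * D t0 (x0 + h • bv i) :=
      mul_le_mul_of_nonneg_left hh hkpos.le
    have h8 : F (t0, x0 + h • bv i) = k * D t0 (x0 + h • bv i) - ε * Q t0 (x0 + h • bv i) := rfl
    simp only [zero_smul, add_zero, hψ0]
    linarith
  have hsum : k * ∑ i, m i ≤ 2 * N * ε := by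
    rw [Finset.mul_sum]
    calc ∑ i, k * m i ≤ ∑ _i : Fin N, ε * 2 := Finset.sum_le_sum fun i _ => by linarith [hspace i]
      _ = 2 * N * ε := by simp; ring
  have h9 : k * d ≤ k * (∑ i, m i + Λ * D t0 x0) := mul_le_mul_of_nonneg_left hineq hkpos.le
  have h10 := mul_pos hkpos hD0
  rw [hL] at htime
  nlinarith

end Pool.Agent.KPP
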