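import Pool.Agent.Lib.MP_75f8eb_an.MP

/-!
# Basic facts on entire solutions
-/

namespace Pool.Agent.KPP

open Set Filter Topology

theorem J1_of_contDiff {N : ℕ} {w : Sp N → ℝ} (hw : ContDiff ℝ 2 w) (x e : Sp N) :
    J1 (fun h => w (x + h • e)) (fderiv ℝ w x e) (iteratedFDeriv ℝ 2 w x ![e, e]) := by
  have hline : ∀ h : ℝ, HasDerivAt (fun h : ℝ => x + h • e) e h := by
    intro h
    have h1 : HasDerivAt (fun h : ℝ => x + h • e) ((1 : ℝ) • e) h :=
      ((hasDerivAt_id' h).smul_const e).const_add x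
    simpa using h1
  have hd : Differentiable ℝ w := hw.differentiable (by norm_num)
  have hfd : ContDiff ℝ 1 (fderiv ℝ w) := hw.fderiv_right (by norm_num)
  have hdd : Differentiable ℝ (fderiv ℝ w) := hfd.differentiable (by norm_num)
  refine ⟨fun h => fderiv ℝ w (x + h • e) e, Eventually.of_forall fun h => ?_, by simp, ?_⟩
  · exact (hd (x + h • e)).hasFDerivAt.comp_hasDerivAt h (hline h)
  · have h0 : x + (0 : ℝ) • e = x := by simp
    have h1 : HasDerivAt (fun h : ℝ => fderiv ℝ w (x + h • e)) (fderiv ℝ (fderiv ℝ w) x e) 0 := by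
      have h2 : HasFDerivAt (fderiv ℝ w) (fderiv ℝ (fderiv ℝ w) x) (x + (0 : ℝ) • e) := by
        rw [h0]; exact (hdd x).hasFDerivAt
      exact h2.comp_hasDerivAt (0 : ℝ) (hline 0)
    have h3 : HasDerivAt (fun h : ℝ => fderiv ℝ w (x + h • e) e)
        (fderiv ℝ (fderiv ℝ w) x e e) 0 := by
      have h4 := ((ContinuousLinearMap.apply ℝ ℝ e).hasFDerivAt
        (x := fderiv ℝ w (x + (0 : ℝ) • e))).comp_hasDerivAt (0 : ℝ) h1
      exact h4
    rw [iteratedFDeriv_two_apply]
    simpa using h3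

variable {N : ℕ} {f : ℝ → ℝ} {v : ℝ → Sp N → ℝ}

theorem IsEntire.jets (hv : IsEntire N f v) (t : ℝ) (x : Sp N) :
    ∃ (d : ℝ) (p m : Fin N → ℝ), HasDerivAt (fun s => v s x) d t ∧
      (∀ i, J1 (fun h => v t (x + h • bv i)) (p i) (m i)) ∧ d = ∑ i, m i + f (v t x) := by
  refine ⟨deriv (fun s => v s x) t, fun i => fderiv ℝ (v t) x (bv i),
    fun i => iteratedFDeriv ℝ 2 (v t) x ![bv i, bv i], (hv.diff_time x t).hasDerivAt,
    fun i => J1_of_contDiff (hv.smooth_space t) x (bv i), ?_⟩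
  rw [hv.eq t x, InnerProductSpace.laplacian_eq_iteratedFDeriv_orthonormalBasis (v t)
    (EuclideanSpace.basisFun (Fin N) ℝ)]
  simp [bv]

theorem IsEntire.nonneg (hv : IsEntire N f v) (t : ℝ) (x : Sp N) : 0 ≤ v t x := (hv.range t x).1

theorem IsEntire.le_one (hv : IsEntire N f v) (t : ℝ) (x : Sp N) : v t x ≤ 1 := (hv.range t x).2

theorem IsEntire.cont_space (hv : IsEntire N f v) (t : ℝ) : Continuous (v t) :=
  (hv.smooth_space t).continuous

/-- time shift -/
theorem IsEntire.shift (hv : IsEntire N f v) (t0 : ℝ) : IsEntire N f (fun t x => v (t + t0) x) where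
  range t x := hv.range _ x
  cont := hv.cont.comp (by fun_prop : Continuous fun p : ℝ × Sp N => (p.1 + t0, p.2))
  diff_time x := (hv.diff_time x).comp (differentiable_id.add_const t0)
  smooth_space t := hv.smooth_space _
  eq t x := by
    have h1 : deriv (fun s => v (s + t0) x) t = deriv (fun s => v s x) (t + t0) :=
      deriv_comp_add_const (f := fun s => v s x) t0 t
    rw [h1]; exact hv.eq _ x

end Pool.Agent.KPP
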