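import Pool.Agent.Lib.MP_75f8eb_an.Compare

/-!
# Spreading: moving-ball subsolutions and the hair-trigger effect
-/

namespace Pool.Agent.KPP

open Set Filter Topology MeasureTheory

variable {N : ℕ} {f : ℝ → ℝ} {v : ℝ → Sp N → ℝ}

theorem norm_line_sub_sq (x y : Sp N) (i : Fin N) (h : ℝ) :
    ‖x + h • bv i - y‖ ^ 2 = ‖x - y‖ ^ 2 + 2 * (x - y) i * h + 1 * h ^ 2 := by
  have h1 : x + h • bv i - y = (x - y) + h • bv i := by abel
  rw [h1, norm_add_smul_bv_sq]

theorem inner_line (w x : Sp N) (i : Fin N) (h : ℝ) :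
    inner ℝ w (x + h • bv i) = inner ℝ w x + w i * h := by
  rw [inner_add_right, inner_smul_right]
  have : inner ℝ w (bv i) = w i := by simp [bv, EuclideanSpace.inner_single_right]
  rw [this]; ring

theorem sum_mul_coord (x y : Sp N) : ∑ i, x i * y i = inner ℝ x y := by
  rw [PiLp.inner_apply]
  refine Finset.sum_congr rfl fun i _ => ?_
  simp [mul_comm]

/-- comparison of a smooth subsolution with the solution -/
theorem smooth_compare (hf : IsKPP f) (hv : IsEntire N f v) {s T B : ℝ} (z : ℝ → Sp N → ℝ)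
    (hz : Continuous fun p : ℝ × Sp N => z p.1 p.2)
    (hB : ∀ t ∈ Icc s T, ∀ x, z t x ≤ B) (hB1 : B ≤ 1)
    (h0 : ∀ x, z s x ≤ v s x)
    (hsub : ∀ t0 ∈ Ioc s T, ∀ x0, 0 < z t0 x0 → ∃ (d : ℝ) (p m : Fin N → ℝ),
      HasDerivAt (fun t => z t x0) d t0 ∧ (∀ i, J1 (fun h => z t0 (x0 + h • bv i)) (p i) (m i)) ∧
      d ≤ ∑ i, m i + f (z t0 x0)) :
    ∀ t ∈ Icc s T, ∀ x, z t x ≤ v t x := by
  obtain ⟨L, hL0, hL⟩ := hf.lip
  have hmain := maxPrinciple (N := N) (s := s) (T := T) (Λ := L) (B := B)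
    (fun t x => z t x - v t x) (hz.sub hv.cont).continuousOn ?_ ?_ ?_
  · intro t ht x
    have := hmain t ht x
    linarith
  · intro t ht x
    have h1 := hB t ht x
    have h2 := hv.nonneg t x
    linarith
  · intro x
    have := h0 x
    linarith
  · intro t0 ht0 x0 hpos
    have hv0 := hv.nonneg t0 x0
    have hz0 : 0 < z t0 x0 := by linarith
    obtain ⟨d, p, m, hd, hJ, hle⟩ := hsub t0 ht0 x0 hz0
    obtain ⟨dv, pv, mv, hdv, hJv, heqv⟩ := hv.jets t0 x0
    refine ⟨fun t => z t x0 - v t x0, d - dv, fun x => z t0 x - v t0 x, fun i => p i - pv i,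
      fun i => m i - mv i, rfl, Eventually.of_forall fun t => le_rfl, hd.fun_sub hdv, rfl,
      Eventually.of_forall fun t => le_rfl, fun i => (hJ i).sub (hJv i), ?_⟩
    rw [Finset.sum_sub_distrib]
    have h1 : z t0 x0 ≤ 1 := (hB t0 ⟨ht0.1.le, ht0.2⟩ x0).trans hB1
    have h2 := hL (z t0 x0) ⟨hz0.le, h1⟩ (v t0 x0) (hv.range t0 x0) (by linarith)
    linarith

/-- **Hair trigger** -/
theorem hair_trigger (hf : IsKPP f) {δ₁ l : ℝ} (hδ : 0 < δ₁) (hδ1 : δ₁ < 1) (hl : l < 1) :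
    ∃ T₁ : ℝ, 0 < T₁ ∧ ∃ R₁ : ℝ, 0 < R₁ ∧ ∀ (v : ℝ → Sp N → ℝ), IsEntire N f v →
      ∀ (t : ℝ) (y : Sp N), (∀ x, ‖x - y‖ ≤ R₁ → δ₁ ≤ v t x) → l < v (t + T₁) y := by
  set l' : ℝ := max ((1 + l) / 2) ((1 + δ₁) / 2) with hl'
  have hl'1 : l' < 1 := by
    rw [hl']; exact max_lt (by linarith) (by linarith)
  have hl'2 : l < l' := lt_of_lt_of_le (by linarith) (le_max_left _ _)
  have hl'3 : δ₁ < l' := lt_of_lt_of_le (by linarith) (le_max_right _ _)
  have hsubset : Icc (δ₁ / 2) l' ⊆ Icc (0 : ℝ) 1 := Icc_subset_Icc (by linarith) hl'1.le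
  obtain ⟨r0, hr0, hmin⟩ := (isCompact_Icc (a := δ₁ / 2) (b := l')).exists_isMinOn
    ⟨δ₁ / 2, le_rfl, by linarith⟩ (hf.smooth.continuousOn.mono hsubset)
  set c : ℝ := f r0 with hc
  have hcpos : 0 < c := hf.pos r0 (by linarith [hr0.1]) (by linarith [hr0.2])
  have hcmin : ∀ r, δ₁ / 2 ≤ r → r ≤ l' → c ≤ f r := fun r h1 h2 => hmin ⟨h1, h2⟩
  set M : ℝ := 2 * c / δ₁ with hM
  have hMpos : 0 < M := by positivity
  set T₁ : ℝ := (l' - δ₁) / c with hT₁
  have hT₁pos : 0 < T₁ := div_pos (by linarith) hcpos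
  set K : ℝ := Real.exp (M * T₁) * (2 * N * T₁) / (l' - l) + 1 with hK
  have hKpos : 0 < K := by
    have : 0 < l' - l := by linarith
    positivity
  have hK1 : 1 ≤ K := by
    have : 0 < l' - l := by linarith
    have : 0 ≤ Real.exp (M * T₁) * (2 * N * T₁) / (l' - l) := by positivity
    linarith
  refine ⟨T₁, hT₁pos, K, hKpos, fun v hv t y hball => ?_⟩
  set z : ℝ → Sp N → ℝ := fun t' x => δ₁ + c * (t' - t) -
    Real.exp (M * (t' - t)) * (‖x - y‖ ^ 2 + 2 * N * (t' - t)) / K with hz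
  have hzc : Continuous fun p : ℝ × Sp N => z p.1 p.2 := by
    simp only [hz]; fun_prop
  have hzle : ∀ t' ∈ Icc t (t + T₁), ∀ x, z t' x ≤ δ₁ + c * (t' - t) := by
    intro t' ht' x
    have h1 : 0 ≤ t' - t := sub_nonneg.2 ht'.1
    have : 0 ≤ Real.exp (M * (t' - t)) * (‖x - y‖ ^ 2 + 2 * N * (t' - t)) / K := by positivity
    simp only [hz]; linarith
  have hcT : ∀ t' ∈ Icc t (t + T₁), δ₁ + c * (t' - t) ≤ l' := by
    intro t' ht'
    have h1 : t' - t ≤ T₁ := by linarith [ht'.2]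
    have h2 : c * (t' - t) ≤ c * T₁ := mul_le_mul_of_nonneg_left h1 hcpos.le
    have h3 : c * T₁ = l' - δ₁ := by rw [hT₁]; field_simp
    linarith
  have hmain := smooth_compare hf hv (s := t) (T := t + T₁) (B := l') z hzc
    (fun t' ht' x => (hzle t' ht' x).trans (hcT t' ht')) hl'1.le ?_ ?_
  · have h1 := hmain (t + T₁) ⟨by linarith, le_rfl⟩ y
    have h2 : z (t + T₁) y = l' - Real.exp (M * T₁) * (2 * N * T₁) / K := by
      simp only [hz]
      have h3 : c * T₁ = l' - δ₁ := by rw [hT₁]; field_simp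
      rw [add_sub_cancel_left, sub_self, norm_zero, h3]
      ring
    have h4 : Real.exp (M * T₁) * (2 * N * T₁) / K < l' - l := by
      rw [div_lt_iff₀ hKpos]
      have h5 : 0 < l' - l := by linarith
      have h6 : Real.exp (M * T₁) * (2 * N * T₁) = (K - 1) * (l' - l) := by
        rw [hK]; field_simp; ring
      rw [h6]; nlinarith
    linarith
  · intro x
    by_cases hx : ‖x - y‖ ≤ K
    · have h1 := hball x hx
      have h2 := hzle t ⟨le_rfl, by linarith⟩ x
      rw [sub_self, mul_zero] at h2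
      linarith
    · push Not at hx
      have h1 : z t x = δ₁ - ‖x - y‖ ^ 2 / K := by
        simp only [hz]; rw [sub_self]; simp
      have h2 : K ≤ ‖x - y‖ ^ 2 / K := by
        rw [le_div_iff₀ hKpos]; nlinarith
      have := hv.nonneg t x
      linarith
  · intro t0 ht0 x0 hpos
    have ht0' : t0 ∈ Icc t (t + T₁) := ⟨ht0.1.le, ht0.2⟩
    set E : ℝ := Real.exp (M * (t0 - t)) with hE
    set Q : ℝ := ‖x0 - y‖ ^ 2 + 2 * N * (t0 - t) with hQ
    refine ⟨c - (E * M * Q + E * (2 * N)) / K, fun i => -(E / K * (2 * (x0 - y) i)),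
      fun _ => -(E / K * 2), ?_, fun i => ?_, ?_⟩
    · have h1 : HasDerivAt (fun t' : ℝ => δ₁ + c * (t' - t)) c t0 := by
        have := (((hasDerivAt_id' t0).sub_const t).const_mul c).const_add δ₁
        simpa using this
      have h2 : HasDerivAt (fun t' : ℝ => M * (t' - t)) M t0 := by
        have := ((hasDerivAt_id' t0).sub_const t).const_mul M
        simpa using this
      have h3 : HasDerivAt (fun t' : ℝ => ‖x0 - y‖ ^ 2 + 2 * (N : ℝ) * (t' - t)) (2 * (N : ℝ))
          t0 := by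
        have := (((hasDerivAt_id' t0).sub_const t).const_mul (2 * (N : ℝ))).const_add (‖x0 - y‖ ^ 2)
        simpa using this
      have h4 := h1.fun_sub ((h2.exp.fun_mul h3).div_const K)
      exact h4
    · have h1 : J1 (fun h => ‖x0 + h • bv i - y‖ ^ 2) (2 * (x0 - y) i) 2 := by
        have := J1.quad (‖x0 - y‖ ^ 2) (2 * (x0 - y) i) 1
        exact (this.congr fun h => norm_line_sub_sq x0 y i h).congr' rfl (by ring)
      have h2 := (J1.const (δ₁ + c * (t0 - t) - E / K * (2 * N * (t0 - t)))).sub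
        (h1.const_mul (E / K))
      refine (h2.congr fun h => ?_).congr' (by ring) (by ring)
      simp only [hz]
      rw [← hE]; ring
    · have hval : z t0 x0 = δ₁ + c * (t0 - t) - E * Q / K := rfl
      have hsum : ∑ _i : Fin N, -(E / K * 2) = -(E * (2 * N) / K) := by
        simp; ring
      rw [hsum]
      have hzl' := (hzle t0 ht0' x0).trans (hcT t0 ht0')
      have hle := hzle t0 ht0' x0
      have hEQ : E * Q / K = δ₁ + c * (t0 - t) - z t0 x0 := by rw [hval]; ring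
      have hid : c - (E * M * Q + E * (2 * N)) / K = c - M * (E * Q / K) - E * (2 * N) / K := by
        field_simp
        ring
      rw [hid, hEQ]
      have hgoal : c - M * (δ₁ + c * (t0 - t) - z t0 x0) ≤ f (z t0 x0) := by
        rcases le_or_gt (δ₁ / 2) (z t0 x0) with h1 | h1
        · have h2 := hcmin _ h1 hzl'
          have h3 : 0 ≤ M * (δ₁ + c * (t0 - t) - z t0 x0) := mul_nonneg hMpos.le (by linarith)
          linarith
        · have h2 : 0 ≤ f (z t0 x0) := hf.f_nonneg ⟨hpos.le, by linarith⟩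
          have h3 : 0 ≤ c * (t0 - t) := mul_nonneg hcpos.le (sub_nonneg.2 ht0'.1)
          have h4 : M * (δ₁ / 2) ≤ M * (δ₁ + c * (t0 - t) - z t0 x0) :=
            mul_le_mul_of_nonneg_left (by linarith) hMpos.le
          have h5 : M * (δ₁ / 2) = c := by rw [hM]; field_simp
          linarith
      linarith

/-- **Moving-ball subsolution.** -/
theorem moving_ball (hf : IsKPP f) (hv : IsEntire N f v) {κ' δ' L ρ A s T : ℝ}
    (hδ0 : 0 < δ') (hδ1 : δ' ≤ 1) (hκ' : ∀ r, 0 ≤ r → r ≤ δ' → κ' * r ≤ f r) (hL : 0 < L)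
    (hsT : s ≤ T) (w x₀ : Sp N) (hρ0 : 0 ≤ ρ) (hρ : ρ + ‖w‖ ^ 2 / 4 + N / L ≤ κ')
    (hA : ∀ x, ‖x - x₀‖ ^ 2 ≤ (2 * N + 4) * L → A ≤ v s x) (hAδ : δ' ≤ A * Real.exp (ρ * (T - s))) :
    δ' * Real.exp (-(‖w‖ * √((2 * N + 4) * L) / 2)) / 2 ≤ v T (x₀ + (T - s) • w) := by
  set R : ℝ := √((2 * N + 4) * L) with hR
  have hR2 : R ^ 2 = (2 * N + 4) * L := Real.sq_sqrt (by positivity)
  have hR0 : 0 ≤ R := Real.sqrt_nonneg _
  set c : ℝ := Real.exp (-((N : ℝ) / 2 + 1)) with hc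
  set A₀ : ℝ := δ' * Real.exp (-(‖w‖ * R / 2)) * Real.exp (-(ρ * (T - s))) with hA₀
  have hA₀pos : 0 < A₀ := by positivity
  set Y : ℝ → Sp N → Sp N := fun t x => x - x₀ - (t - s) • w with hY
  set q1 : ℝ → Sp N → ℝ := fun t x => ρ * (t - s) - inner ℝ w (Y t x) / 2 -
    ‖Y t x‖ ^ 2 / (4 * L) with hq1
  set q2 : ℝ → Sp N → ℝ := fun t x => ρ * (t - s) - inner ℝ w (Y t x) / 2 with hq2
  set z : ℝ → Sp N → ℝ := fun t x => A₀ * (Real.exp (q1 t x) - c * Real.exp (q2 t x)) with hz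
  have hYc : Continuous fun p : ℝ × Sp N => Y p.1 p.2 := by simp only [hY]; fun_prop
  have hzc : Continuous fun p : ℝ × Sp N => z p.1 p.2 := by
    simp only [hz, hq1, hq2]
    have h1 : Continuous fun p : ℝ × Sp N => (inner ℝ w (Y p.1 p.2) : ℝ) :=
      continuous_const.inner hYc
    have h2 : Continuous fun p : ℝ × Sp N => ‖Y p.1 p.2‖ ^ 2 := hYc.norm.pow 2
    fun_prop
  have hfac : ∀ t x, Real.exp (q1 t x) = Real.exp (q2 t x) * Real.exp (-(‖Y t x‖ ^ 2 / (4 * L))) := by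
    intro t x
    have h1 : q1 t x = q2 t x + -(‖Y t x‖ ^ 2 / (4 * L)) := by
      simp only [hq1, hq2]; ring
    rw [h1, Real.exp_add]
  -- sign of z
  have hposY : ∀ t x, 0 < z t x → ‖Y t x‖ ^ 2 < (2 * N + 4) * L := by
    intro t x h
    simp only [hz] at h
    rw [hfac] at h
    have h1 : 0 < Real.exp (q2 t x) * (Real.exp (-(‖Y t x‖ ^ 2 / (4 * L))) - c) := by
      have := (pos_iff_pos_of_mul_pos h).1 hA₀pos
      linarith [mul_comm c (Real.exp (q2 t x))]
    have h2 : 0 < Real.exp (-(‖Y t x‖ ^ 2 / (4 * L))) - c :=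
      (pos_iff_pos_of_mul_pos h1).1 (Real.exp_pos _)
    rw [hc, sub_pos, Real.exp_lt_exp] at h2
    have h3 : ‖Y t x‖ ^ 2 / (4 * L) < (N : ℝ) / 2 + 1 := by linarith
    rw [div_lt_iff₀ (by positivity)] at h3
    linarith
  have hzle' : ∀ t x, s ≤ t → 0 < z t x → z t x ≤ A₀ * Real.exp (ρ * (t - s)) *
      Real.exp (‖w‖ * R / 2) := by
    intro t x _ hpos
    have hYR : ‖Y t x‖ ≤ R := by
      have := hposY t x hpos
      rw [← hR2] at this
      exact le_of_lt (lt_of_pow_lt_pow_left₀ 2 hR0 this)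
    have h1 : z t x ≤ A₀ * Real.exp (q1 t x) := by
      simp only [hz]
      apply mul_le_mul_of_nonneg_left _ hA₀pos.le
      have : 0 ≤ c * Real.exp (q2 t x) := by positivity
      linarith
    have h2 : Real.exp (q1 t x) ≤ Real.exp (ρ * (t - s)) * Real.exp (‖w‖ * R / 2) := by
      rw [← Real.exp_add]
      apply Real.exp_le_exp.2
      simp only [hq1]
      have h3 : -(inner ℝ w (Y t x)) ≤ ‖w‖ * R := by
        have h4 := abs_real_inner_le_norm w (Y t x)
        have h5 := neg_abs_le (inner ℝ w (Y t x) : ℝ)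
        have h6 : ‖w‖ * ‖Y t x‖ ≤ ‖w‖ * R := mul_le_mul_of_nonneg_left hYR (norm_nonneg _)
        linarith
      have h7 : 0 ≤ ‖Y t x‖ ^ 2 / (4 * L) := by positivity
      linarith
    calc z t x ≤ A₀ * Real.exp (q1 t x) := h1
      _ ≤ A₀ * (Real.exp (ρ * (t - s)) * Real.exp (‖w‖ * R / 2)) :=
          mul_le_mul_of_nonneg_left h2 hA₀pos.le
      _ = _ := by ring
  have hA₀w : ∀ t, A₀ * Real.exp (ρ * (t - s)) * Real.exp (‖w‖ * R / 2) =
      δ' * Real.exp (-(ρ * (T - t))) := by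
    intro t
    have e1 : Real.exp (-(‖w‖ * R / 2)) * Real.exp (‖w‖ * R / 2) = 1 := by
      rw [← Real.exp_add]; simp
    have e2 : Real.exp (-(ρ * (T - s))) * Real.exp (ρ * (t - s)) = Real.exp (-(ρ * (T - t))) := by
      rw [← Real.exp_add]; congr 1; ring
    rw [hA₀]
    linear_combination (δ' * Real.exp (-(ρ * (T - s))) * Real.exp (ρ * (t - s))) * e1 + δ' * e2
  have hzδ : ∀ t ∈ Icc s T, ∀ x, z t x ≤ δ' := by
    intro t ht x
    rcases le_or_gt (z t x) 0 with h | h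
    · linarith
    · refine (hzle' t x ht.1 h).trans ?_
      rw [hA₀w]
      have : Real.exp (-(ρ * (T - t))) ≤ 1 := by
        apply Real.exp_le_one_iff.2
        have := mul_nonneg hρ0 (sub_nonneg.2 ht.2)
        linarith
      nlinarith
  have hmain := smooth_compare hf hv (s := s) (T := T) (B := δ') z hzc hzδ hδ1 ?_ ?_
  · have h1 := hmain T ⟨hsT, le_rfl⟩ (x₀ + (T - s) • w)
    have hY0 : Y T (x₀ + (T - s) • w) = 0 := by simp only [hY]; abel
    have h2 : z T (x₀ + (T - s) • w) = δ' * Real.exp (-(‖w‖ * R / 2)) * (1 - c) := by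
      simp only [hz, hq1, hq2, hY0]
      have e2 : Real.exp (-(ρ * (T - s))) * Real.exp (ρ * (T - s)) = 1 := by
        rw [← Real.exp_add]; simp
      simp only [inner_zero_right, norm_zero]
      rw [hA₀]
      have e3 : ρ * (T - s) - 0 / 2 - 0 ^ 2 / (4 * L) = ρ * (T - s) := by norm_num
      have e4 : ρ * (T - s) - 0 / 2 = ρ * (T - s) := by norm_num
      rw [e3, e4]
      linear_combination (δ' * Real.exp (-(‖w‖ * R / 2)) * (1 - c)) * e2
    have h3 : c ≤ 1 / 2 := by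
      have h4 : Real.exp (-((N : ℝ) / 2 + 1)) ≤ Real.exp (-1) := by
        apply Real.exp_le_exp.2
        have : (0 : ℝ) ≤ (N : ℝ) / 2 := by positivity
        linarith
      have h5 : Real.exp (-1) ≤ 1 / 2 := by
        rw [Real.exp_neg, inv_eq_one_div]
        have h6 : (2 : ℝ) ≤ Real.exp 1 := by linarith [Real.add_one_le_exp (1 : ℝ)]
        exact one_div_le_one_div_of_le two_pos h6
      exact h4.trans h5
    rw [h2] at h1
    refine le_trans ?_ h1
    have h7 : 0 < δ' * Real.exp (-(‖w‖ * R / 2)) := by positivity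
    nlinarith
  · intro x
    rcases le_or_gt (z s x) 0 with h | h
    · exact h.trans (hv.nonneg s x)
    · have h1 := hzle' s x le_rfl h
      rw [hA₀w] at h1
      have h2 := hposY s x h
      have h3 : Y s x = x - x₀ := by simp [hY]
      rw [h3] at h2
      have h4 := hA x h2.le
      have h5 : δ' * Real.exp (-(ρ * (T - s))) ≤ A := by
        rw [Real.exp_neg, ← div_eq_mul_inv, div_le_iff₀ (Real.exp_pos _)]
        exact hAδ
      linarith
  · intro t0 ht0 x0 hpos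
    have ht0' : t0 ∈ Icc s T := ⟨ht0.1.le, ht0.2⟩
    have hYlt := hposY t0 x0 hpos
    set Y0 : Sp N := Y t0 x0 with hY0
    set e1 : ℝ := Real.exp (q1 t0 x0) with he1
    set e2 : ℝ := Real.exp (q2 t0 x0) with he2
    -- time derivative
    have htime1 : HasDerivAt (fun t => q1 t x0) (ρ + ‖w‖ ^ 2 / 2 + inner ℝ w Y0 / (2 * L)) t0 := by
      have hq : ∀ t, q1 t x0 = (-(inner ℝ w (x0 - x₀)) / 2 - ‖x0 - x₀‖ ^ 2 / (4 * L)) +
          (ρ + ‖w‖ ^ 2 / 2 + inner ℝ w (x0 - x₀) / (2 * L)) * (t - s) +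
          (-(‖w‖ ^ 2 / (4 * L))) * (t - s) ^ 2 := by
        intro t
        simp only [hq1, hY]
        rw [inner_sub_right w (x0 - x₀) ((t - s) • w), inner_smul_right,
          real_inner_self_eq_norm_sq, norm_sub_sq_real (x0 - x₀) ((t - s) • w), inner_smul_right, norm_smul, Real.norm_eq_abs, mul_pow, sq_abs,
          real_inner_comm (x0 - x₀) w]
        field_simp
        ring
      have h1 := (hasDerivAt_quad (-(inner ℝ w (x0 - x₀)) / 2 - ‖x0 - x₀‖ ^ 2 / (4 * L))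
        (ρ + ‖w‖ ^ 2 / 2 + inner ℝ w (x0 - x₀) / (2 * L)) (-(‖w‖ ^ 2 / (4 * L)))
        (t0 - s)).comp_sub_const t0 s
      have h2 := h1.congr_of_eventuallyEq (Eventually.of_forall fun t => hq t)
      refine h2.congr_deriv ?_
      simp only [hY0, hY]
      rw [inner_sub_right w (x0 - x₀) ((t0 - s) • w), inner_smul_right,
        real_inner_self_eq_norm_sq]
      field_simp
      ring
    have htime2 : HasDerivAt (fun t => q2 t x0) (ρ + ‖w‖ ^ 2 / 2) t0 := by
      have hq : ∀ t, q2 t x0 = (-(inner ℝ w (x0 - x₀)) / 2) +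
          (ρ + ‖w‖ ^ 2 / 2) * (t - s) + 0 * (t - s) ^ 2 := by
        intro t
        simp only [hq2, hY]
        rw [inner_sub_right w (x0 - x₀) ((t - s) • w), inner_smul_right,
          real_inner_self_eq_norm_sq]
        ring
      have h1 := (hasDerivAt_quad (-(inner ℝ w (x0 - x₀)) / 2) (ρ + ‖w‖ ^ 2 / 2) 0
        (t0 - s)).comp_sub_const t0 s
      have h2 := h1.congr_of_eventuallyEq (Eventually.of_forall fun t => hq t)
      refine h2.congr_deriv ?_
      ring
    -- space jets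
    have hYline : ∀ (i : Fin N) (h : ℝ), Y t0 (x0 + h • bv i) = Y0 + h • bv i := by
      intro i h; simp only [hY0, hY]; abel
    have hs1 : ∀ i, J1 (fun h => Real.exp (q1 t0 (x0 + h • bv i)))
        ((-(w i / 2) - Y0 i / (2 * L)) * e1)
        ((2 * (-(1 / (4 * L))) + (-(w i / 2) - Y0 i / (2 * L)) ^ 2) * e1) := by
      intro i
      refine (J1.expquad (q1 t0 x0) (-(w i / 2) - Y0 i / (2 * L)) (-(1 / (4 * L)))).congr
        fun h => ?_
      congr 1
      simp only [hq1]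
      rw [hYline, ← hY0, inner_line, norm_add_smul_bv_sq]
      field_simp
      ring
    have hs2 : ∀ i, J1 (fun h => Real.exp (q2 t0 (x0 + h • bv i)))
        ((-(w i / 2)) * e2) ((2 * 0 + (-(w i / 2)) ^ 2) * e2) := by
      intro i
      refine (J1.expquad (q2 t0 x0) (-(w i / 2)) 0).congr fun h => ?_
      congr 1
      simp only [hq2]
      rw [hYline, ← hY0, inner_line]
      ring
    refine ⟨A₀ * (e1 * (ρ + ‖w‖ ^ 2 / 2 + inner ℝ w Y0 / (2 * L)) - c * (e2 * (ρ + ‖w‖ ^ 2 / 2))),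
      fun i => A₀ * ((-(w i / 2) - Y0 i / (2 * L)) * e1 - c * ((-(w i / 2)) * e2)),
      fun i => A₀ * ((2 * (-(1 / (4 * L))) + (-(w i / 2) - Y0 i / (2 * L)) ^ 2) * e1 -
        c * ((2 * 0 + (-(w i / 2)) ^ 2) * e2)), ?_, fun i => ?_, ?_⟩
    · exact (htime1.exp.fun_sub (htime2.exp.const_mul c)).const_mul A₀
    · exact ((hs1 i).sub ((hs2 i).const_mul c)).const_mul A₀
    · have hsum : ∑ i, A₀ * ((2 * (-(1 / (4 * L))) + (-(w i / 2) - Y0 i / (2 * L)) ^ 2) * e1 -
          c * ((2 * 0 + (-(w i / 2)) ^ 2) * e2)) =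
          A₀ * ((-(N / (2 * L)) + ‖w‖ ^ 2 / 4 + inner ℝ w Y0 / (2 * L) +
            ‖Y0‖ ^ 2 / (4 * L ^ 2)) * e1 - c * (‖w‖ ^ 2 / 4 * e2)) := by
        rw [← Finset.mul_sum, Finset.sum_sub_distrib, ← Finset.sum_mul, ← Finset.mul_sum,
          ← Finset.sum_mul, ← sum_sq_coord w, ← sum_sq_coord Y0, ← sum_mul_coord w Y0]
        congr 3
        · have h1 : ∀ i, 2 * (-(1 / (4 * L))) + (-(w i / 2) - Y0 i / (2 * L)) ^ 2 =
              -(1 / (2 * L)) + (w i ^ 2 / 4 + w i * Y0 i / (2 * L) + Y0 i ^ 2 / (4 * L ^ 2)) := by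
            intro i; field_simp; ring
          rw [Finset.sum_congr rfl fun i _ => h1 i, Finset.sum_add_distrib,
            Finset.sum_add_distrib, Finset.sum_add_distrib, ← Finset.sum_div, ← Finset.sum_div,
            ← Finset.sum_div]
          simp
          ring
        · rw [Finset.sum_div]
          congr 1
          exact Finset.sum_congr rfl fun i _ => by ring
      rw [hsum]
      have hzval : z t0 x0 = A₀ * (e1 - c * e2) := rfl
      have hzle := hzδ t0 ht0' x0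
      have hfz := hκ' (z t0 x0) hpos.le hzle
      -- key inequality
      have hkey : e1 * (N / (2 * L) - ‖Y0‖ ^ 2 / (4 * L ^ 2)) ≤ (N / L) * (e1 - c * e2) := by
        have hef : e1 = e2 * Real.exp (-(‖Y0‖ ^ 2 / (4 * L))) := hfac t0 x0
        have he1pos : 0 < e1 := Real.exp_pos _
        have he2pos : 0 < e2 := Real.exp_pos _
        have hdiff : 0 < e1 - c * e2 := by
          rw [hzval] at hpos
          exact (pos_iff_pos_of_mul_pos hpos).1 hA₀pos
        rcases le_or_gt ((N : ℝ) / (2 * L)) (‖Y0‖ ^ 2 / (4 * L ^ 2)) with h1 | h1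
        · have h2 : e1 * (N / (2 * L) - ‖Y0‖ ^ 2 / (4 * L ^ 2)) ≤ 0 :=
            mul_nonpos_of_nonneg_of_nonpos he1pos.le (by linarith)
          have h3 : 0 ≤ (N / L) * (e1 - c * e2) := mul_nonneg (by positivity) hdiff.le
          linarith
        · -- here |Y0|² < 2 N L
          have h2 : ‖Y0‖ ^ 2 / (4 * L) ≤ (N : ℝ) / 2 := by
            have h3 : ‖Y0‖ ^ 2 / (4 * L) = (‖Y0‖ ^ 2 / (4 * L ^ 2)) * L := by field_simp
            have h4 : (N : ℝ) / 2 = (N / (2 * L)) * L := by field_simp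
            rw [h3, h4]
            exact mul_le_mul_of_nonneg_right h1.le hL.le
          have h5 : 2 * c ≤ Real.exp (-(‖Y0‖ ^ 2 / (4 * L))) := by
            have h6 : c * Real.exp 1 ≤ Real.exp (-(‖Y0‖ ^ 2 / (4 * L))) := by
              rw [hc, ← Real.exp_add]
              apply Real.exp_le_exp.2; linarith
            have h7 : (2 : ℝ) ≤ Real.exp 1 := by linarith [Real.add_one_le_exp (1 : ℝ)]
            have h8 : 0 < c := Real.exp_pos _
            nlinarith
          have h9 : 2 * (c * e2) ≤ e1 := by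
            rw [hef]; nlinarith
          have h10 : e1 * (N / (2 * L) - ‖Y0‖ ^ 2 / (4 * L ^ 2)) ≤ e1 * (N / (2 * L)) := by
            apply mul_le_mul_of_nonneg_left _ he1pos.le
            have : 0 ≤ ‖Y0‖ ^ 2 / (4 * L ^ 2) := by positivity
            linarith
          have h11 : e1 * ((N : ℝ) / (2 * L)) = (N / L) * (e1 / 2) := by field_simp
          have h12 : (N / L) * (e1 / 2) ≤ (N / L) * (e1 - c * e2) :=
            mul_le_mul_of_nonneg_left (by linarith) (by positivity)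
          linarith
      have h1 : (ρ + ‖w‖ ^ 2 / 4 + N / L) * z t0 x0 ≤ κ' * z t0 x0 :=
        mul_le_mul_of_nonneg_right hρ hpos.le
      have h2 := mul_le_mul_of_nonneg_left hkey hA₀pos.le
      rw [hzval] at h1 hfz ⊢
      have h3 : A₀ * (e1 * (ρ + ‖w‖ ^ 2 / 2 + inner ℝ w Y0 / (2 * L)) -
          c * (e2 * (ρ + ‖w‖ ^ 2 / 2))) = A₀ * ((-(N / (2 * L)) + ‖w‖ ^ 2 / 4 +
            inner ℝ w Y0 / (2 * L) + ‖Y0‖ ^ 2 / (4 * L ^ 2)) * e1 - c * (‖w‖ ^ 2 / 4 * e2)) +
          ((ρ + ‖w‖ ^ 2 / 4) * (A₀ * (e1 - c * e2)) +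
            A₀ * (e1 * (N / (2 * L) - ‖Y0‖ ^ 2 / (4 * L ^ 2)))) := by ring
      rw [h3]
      nlinarith

end Pool.Agent.KPP
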