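import Pool.Agent.Lib.MP_75f8eb_an.Far

/-!
# The transformation `H = ∫ dr / f(r)`
-/

namespace Pool.Agent.KPP

open Set Filter Topology MeasureTheory

variable {N : ℕ} {f : ℝ → ℝ} {v : ℝ → Sp N → ℝ}

/-- `H(r) = ∫_δ^r ds / f(s)` -/
noncomputable def Hf (f : ℝ → ℝ) (δ r : ℝ) : ℝ := ∫ s in δ..r, (f s)⁻¹

theorem Hf_self (δ : ℝ) : Hf f δ δ = 0 := by simp [Hf]

theorem inv_continuousOn (hf : IsKPP f) : ContinuousOn (fun s => (f s)⁻¹) (Ioo 0 1) :=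
  (hf.smooth.continuousOn.mono Ioo_subset_Icc_self).inv₀ fun s hs => (hf.pos s hs.1 hs.2).ne'

theorem Hf_hasDerivAt (hf : IsKPP f) {δ r : ℝ} (hδ : δ ∈ Ioo (0 : ℝ) 1) (hr : r ∈ Ioo (0 : ℝ) 1) :
    HasDerivAt (Hf f δ) (f r)⁻¹ r := by
  have hsub : uIcc δ r ⊆ Ioo (0 : ℝ) 1 := by
    intro x hx
    rw [mem_uIcc] at hx
    rcases hx with hx | hx
    · exact ⟨lt_of_lt_of_le hδ.1 hx.1, lt_of_le_of_lt hx.2 hr.2⟩
    · exact ⟨lt_of_lt_of_le hr.1 hx.1, lt_of_le_of_lt hx.2 hδ.2⟩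
  have hc := inv_continuousOn hf
  exact intervalIntegral.integral_hasDerivAt_right
    ((hc.mono hsub).intervalIntegrable)
    (hc.stronglyMeasurableAtFilter isOpen_Ioo r hr)
    (hc.continuousAt (isOpen_Ioo.mem_nhds hr))

theorem Hf_continuousOn (hf : IsKPP f) {δ : ℝ} (hδ : δ ∈ Ioo (0 : ℝ) 1) :
    ContinuousOn (Hf f δ) (Ioo 0 1) :=
  fun _ hr => (Hf_hasDerivAt hf hδ hr).continuousAt.continuousWithinAt

theorem Hf_strictMono (hf : IsKPP f) {δ : ℝ} (hδ : δ ∈ Ioo (0 : ℝ) 1) :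
    StrictMonoOn (Hf f δ) (Ioo 0 1) := by
  refine strictMonoOn_of_deriv_pos (convex_Ioo 0 1) (Hf_continuousOn hf hδ) fun r hr => ?_
  rw [interior_Ioo] at hr
  rw [(Hf_hasDerivAt hf hδ hr).deriv]
  exact inv_pos.2 (hf.pos r hr.1 hr.2)

theorem Hf_nonpos (hf : IsKPP f) {δ r : ℝ} (hδ : δ ∈ Ioo (0 : ℝ) 1) (hr : 0 < r) (hrδ : r ≤ δ) :
    Hf f δ r ≤ 0 := by
  have h := (Hf_strictMono hf hδ).monotoneOn ⟨hr, by linarith [hδ.2]⟩ hδ hrδ
  rwa [Hf_self] at h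

/-- comparison with the logarithm -/
theorem Hf_le_log (hf : IsKPP f) {δ r : ℝ} (hδ : δ ∈ Ioo (0 : ℝ) 1) (hr : 0 < r) (hrδ : r ≤ δ) :
    kap f * Hf f δ r ≤ Real.log r - Real.log δ := by
  have hanti : AntitoneOn (fun r => Real.log r - kap f * Hf f δ r) (Ioo 0 1) := by
    have hd : ∀ r ∈ Ioo (0 : ℝ) 1, HasDerivAt (fun r => Real.log r - kap f * Hf f δ r)
        (r⁻¹ - kap f * (f r)⁻¹) r := fun r hr =>
      (Real.hasDerivAt_log hr.1.ne').fun_sub ((Hf_hasDerivAt hf hδ hr).const_mul (kap f))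
    refine antitoneOn_of_deriv_nonpos (convex_Ioo 0 1)
      (fun r hr => (hd r hr).continuousAt.continuousWithinAt)
      (fun r hr => ?_) fun r hr => ?_
    · rw [interior_Ioo] at hr
      exact (hd r hr).differentiableAt.differentiableWithinAt
    · rw [interior_Ioo] at hr
      rw [(hd r hr).deriv]
      have hfr := hf.pos r hr.1 hr.2
      have h1 := hf.le r hr.1 hr.2
      have h2 : r⁻¹ ≤ kap f * (f r)⁻¹ := by
        rw [← div_eq_mul_inv, inv_eq_one_div, div_le_div_iff₀ hr.1 hfr]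
        change f r ≤ kap f * r at h1
        linarith
      linarith
  have h := hanti ⟨hr, by linarith [hδ.2]⟩ hδ hrδ
  simp only [Hf_self, mul_zero, sub_zero] at h
  linarith

/-- derivative of `exp (a H)` -/
theorem exp_Hf_hasDerivAt (hf : IsKPP f) (a : ℝ) {δ r : ℝ} (hδ : δ ∈ Ioo (0 : ℝ) 1)
    (hr : r ∈ Ioo (0 : ℝ) 1) :
    HasDerivAt (fun r => Real.exp (a * Hf f δ r)) (a * Real.exp (a * Hf f δ r) / f r) r := by
  have h := ((Hf_hasDerivAt hf hδ hr).const_mul a).exp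
  refine h.congr_deriv ?_
  rw [div_eq_mul_inv]; ring

theorem logf_hasDerivAt (hf : IsKPP f) (a : ℝ) {δ r : ℝ} (hδ : δ ∈ Ioo (0 : ℝ) 1)
    (hr : r ∈ Ioo (0 : ℝ) 1) :
    HasDerivAt (fun r => a * Hf f δ r - Real.log (f r))
      ((a - derivWithin f (Icc 0 1) r) / f r) r := by
  have h1 := (hf.hasDerivAt hr.1 hr.2).log (hf.pos r hr.1 hr.2).ne'
  have h := ((Hf_hasDerivAt hf hδ hr).const_mul a).fun_sub h1
  refine h.congr_deriv ?_
  rw [sub_div, ← div_eq_mul_inv]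

theorem psi_eq (hf : IsKPP f) (a : ℝ) {δ r : ℝ} (hr : r ∈ Ioo (0 : ℝ) 1) :
    a * Real.exp (a * Hf f δ r) / f r = a * Real.exp (a * Hf f δ r - Real.log (f r)) := by
  rw [Real.exp_sub, Real.exp_log (hf.pos r hr.1 hr.2)]; ring

theorem psi_mono (hf : IsKPP f) {a δ δ₀ : ℝ} (ha : 0 ≤ a) (hδ : δ ∈ Ioo (0 : ℝ) 1) (hδ₀ : δ₀ < 1)
    (hfa : ∀ r, 0 ≤ r → r ≤ δ₀ → derivWithin f (Icc 0 1) r ≤ a) :
    MonotoneOn (fun r => a * Real.exp (a * Hf f δ r) / f r) (Ioc 0 δ₀) := by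
  have hsub : Ioc (0 : ℝ) δ₀ ⊆ Ioo 0 1 := fun r hr => ⟨hr.1, lt_of_le_of_lt hr.2 hδ₀⟩
  have hmono : MonotoneOn (fun r => a * Hf f δ r - Real.log (f r)) (Ioc 0 δ₀) := by
    refine monotoneOn_of_deriv_nonneg (convex_Ioc 0 δ₀)
      (fun r hr => (logf_hasDerivAt hf a hδ (hsub hr)).continuousAt.continuousWithinAt)
      (fun r hr => ?_) fun r hr => ?_
    · rw [interior_Ioc] at hr
      exact (logf_hasDerivAt hf a hδ (hsub ⟨hr.1, hr.2.le⟩)).differentiableAt.differentiableWithinAt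
    · rw [interior_Ioc] at hr
      rw [(logf_hasDerivAt hf a hδ (hsub ⟨hr.1, hr.2.le⟩)).deriv]
      exact div_nonneg (sub_nonneg.2 (hfa r hr.1.le hr.2.le))
        (hf.pos r hr.1 (by linarith [hr.2])).le
  intro r hr r' hr' hle
  show a * Real.exp (a * Hf f δ r) / f r ≤ a * Real.exp (a * Hf f δ r') / f r'
  rw [psi_eq hf a (hsub hr), psi_eq hf a (hsub hr')]
  exact mul_le_mul_of_nonneg_left (Real.exp_le_exp.2 (hmono hr hr' hle)) ha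

theorem psi_anti (hf : IsKPP f) {b δ δ₀ : ℝ} (hb : 0 ≤ b) (hδ : δ ∈ Ioo (0 : ℝ) 1) (hδ₀ : δ₀ < 1)
    (hfb : ∀ r, 0 ≤ r → r ≤ δ₀ → b ≤ derivWithin f (Icc 0 1) r) :
    AntitoneOn (fun r => b * Real.exp (b * Hf f δ r) / f r) (Ioc 0 δ₀) := by
  have hsub : Ioc (0 : ℝ) δ₀ ⊆ Ioo 0 1 := fun r hr => ⟨hr.1, lt_of_le_of_lt hr.2 hδ₀⟩
  have hanti : AntitoneOn (fun r => b * Hf f δ r - Real.log (f r)) (Ioc 0 δ₀) := by
    refine antitoneOn_of_deriv_nonpos (convex_Ioc 0 δ₀)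
      (fun r hr => (logf_hasDerivAt hf b hδ (hsub hr)).continuousAt.continuousWithinAt)
      (fun r hr => ?_) fun r hr => ?_
    · rw [interior_Ioc] at hr
      exact (logf_hasDerivAt hf b hδ (hsub ⟨hr.1, hr.2.le⟩)).differentiableAt.differentiableWithinAt
    · rw [interior_Ioc] at hr
      rw [(logf_hasDerivAt hf b hδ (hsub ⟨hr.1, hr.2.le⟩)).deriv]
      exact div_nonpos_of_nonpos_of_nonneg (sub_nonpos.2 (hfb r hr.1.le hr.2.le))
        (hf.pos r hr.1 (by linarith [hr.2])).le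
  intro r hr r' hr' hle
  show b * Real.exp (b * Hf f δ r') / f r' ≤ b * Real.exp (b * Hf f δ r) / f r
  rw [psi_eq hf b (hsub hr), psi_eq hf b (hsub hr')]
  exact mul_le_mul_of_nonneg_left (Real.exp_le_exp.2 (hanti hr hr' hle)) hb

/-- tangent line inequality from a monotone derivative -/
theorem tangent_of_mono {φ ψ : ℝ → ℝ} {c : ℝ} (hd : ∀ r ∈ Ioc (0 : ℝ) c, HasDerivAt φ (ψ r) r)
    (hm : MonotoneOn ψ (Ioc 0 c)) {r₀ r : ℝ} (h0 : r₀ ∈ Ioc (0 : ℝ) c) (h1 : r ∈ Ioc (0 : ℝ) c) :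
    φ r₀ + ψ r₀ * (r - r₀) ≤ φ r := by
  rcases lt_trichotomy r r₀ with h | h | h
  · obtain ⟨x, hx, hxs⟩ := exists_hasDerivAt_eq_slope φ ψ h
      (fun y hy => (hd y ⟨by linarith [hy.1, h1.1], hy.2.trans h0.2⟩).continuousAt.continuousWithinAt)
      (fun y hy => hd y ⟨by linarith [hy.1, h1.1], hy.2.le.trans h0.2⟩)
    have h2 := hm ⟨by linarith [hx.1, h1.1], hx.2.le.trans h0.2⟩ h0 hx.2.le
    have h3 : 0 < r₀ - r := sub_pos.2 h
    rw [hxs, div_le_iff₀ h3] at h2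
    linarith
  · rw [h]; simp
  · obtain ⟨x, hx, hxs⟩ := exists_hasDerivAt_eq_slope φ ψ h
      (fun y hy => (hd y ⟨by linarith [hy.1, h0.1], hy.2.trans h1.2⟩).continuousAt.continuousWithinAt)
      (fun y hy => hd y ⟨by linarith [hy.1, h0.1], hy.2.le.trans h1.2⟩)
    have h2 := hm h0 ⟨by linarith [hx.1, h0.1], hx.2.le.trans h1.2⟩ hx.1.le
    have h3 : 0 < r - r₀ := sub_pos.2 h
    rw [hxs, le_div_iff₀ h3] at h2
    linarith

theorem tangent_of_anti {φ ψ : ℝ → ℝ} {c : ℝ} (hd : ∀ r ∈ Ioc (0 : ℝ) c, HasDerivAt φ (ψ r) r)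
    (hm : AntitoneOn ψ (Ioc 0 c)) {r₀ r : ℝ} (h0 : r₀ ∈ Ioc (0 : ℝ) c) (h1 : r ∈ Ioc (0 : ℝ) c) :
    φ r ≤ φ r₀ + ψ r₀ * (r - r₀) := by
  have h := tangent_of_mono (φ := fun r => -φ r) (ψ := fun r => -ψ r) (c := c)
    (fun r hr => (hd r hr).fun_neg) (fun x hx y hy hxy => neg_le_neg (hm hx hy hxy)) h0 h1
  linarith

/-- the convex transformation -/
noncomputable def Pa (f : ℝ → ℝ) (a δ r : ℝ) : ℝ :=
  Real.exp (a * Hf f δ (min r δ)) + a / f δ * max (r - δ) 0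

theorem Pa_of_le {a δ r : ℝ} (h : r ≤ δ) : Pa f a δ r = Real.exp (a * Hf f δ r) := by
  rw [Pa, min_eq_left h, max_eq_right (by linarith)]; simp

theorem Pa_of_ge {a δ r : ℝ} (h : δ ≤ r) : Pa f a δ r = 1 + a / f δ * (r - δ) := by
  rw [Pa, min_eq_right h, max_eq_left (by linarith), Hf_self]; simp

theorem Pa_pos (hf : IsKPP f) {a δ : ℝ} (ha : 0 ≤ a) (hδ : δ ∈ Ioo (0 : ℝ) 1) (r : ℝ) :
    0 < Pa f a δ r := by
  have h1 := hf.pos δ hδ.1 hδ.2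
  have h2 : 0 ≤ a / f δ * max (r - δ) 0 := by positivity
  unfold Pa
  linarith [Real.exp_pos (a * Hf f δ (min r δ))]

theorem Pa_continuousOn (hf : IsKPP f) {a δ : ℝ} (hδ : δ ∈ Ioo (0 : ℝ) 1) :
    ContinuousOn (Pa f a δ) (Ioi 0) := by
  unfold Pa
  refine ContinuousOn.add ?_ (Continuous.continuousOn (by fun_prop))
  have h1 : ContinuousOn (fun r => Hf f δ (min r δ)) (Ioi 0) :=
    (Hf_continuousOn hf hδ).comp (Continuous.continuousOn (by fun_prop))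
      fun r hr => ⟨lt_min hr hδ.1, lt_of_le_of_lt (min_le_right _ _) hδ.2⟩
  exact (h1.const_smul a).rexp

theorem Pa_le_div (hf : IsKPP f) {a δ r : ℝ} (ha : kap f ≤ a) (hδ : δ ∈ Ioo (0 : ℝ) 1)
    (hr : 0 < r) (hrδ : r ≤ δ) : Real.exp (a * Hf f δ r) ≤ r / δ := by
  have h1 := Hf_le_log hf hδ hr hrδ
  have h2 := Hf_nonpos hf hδ hr hrδ
  have h3 : a * Hf f δ r ≤ Real.log r - Real.log δ := by nlinarith
  calc Real.exp (a * Hf f δ r) ≤ Real.exp (Real.log r - Real.log δ) := Real.exp_le_exp.2 h3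
    _ = r / δ := by rw [Real.exp_sub, Real.exp_log hr, Real.exp_log hδ.1]

/-- linear upper bound -/
theorem Pa_le (hf : IsKPP f) {a δ : ℝ} (ha : kap f ≤ a) (hδ : δ ∈ Ioo (0 : ℝ) 1) {r : ℝ}
    (hr : r ∈ Ioc (0 : ℝ) 1) : Pa f a δ r ≤ (1 + a / f δ) / δ * r := by
  have hfδ := hf.pos δ hδ.1 hδ.2
  have ha0 : 0 < a := lt_of_lt_of_le hf.kap_pos ha
  have h0 : 0 < a / f δ := by positivity
  rcases le_or_gt r δ with h | h
  · rw [Pa_of_le h]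
    refine (Pa_le_div hf ha hδ hr.1 h).trans ?_
    rw [div_mul_eq_mul_div]
    refine div_le_div_of_nonneg_right ?_ hδ.1.le
    nlinarith [hr.1]
  · rw [Pa_of_ge h.le, div_mul_eq_mul_div (1 + a / f δ) δ r, le_div_iff₀ hδ.1]
    have h1 : a / f δ * (r - δ) ≤ a / f δ * 1 :=
      mul_le_mul_of_nonneg_left (by linarith [hr.2, hδ.1]) h0.le
    have h2 : (1 + a / f δ * (r - δ)) * δ ≤ (1 + a / f δ) * δ :=
      mul_le_mul_of_nonneg_right (by linarith) hδ.1.le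
    have h3 : (1 + a / f δ) * δ ≤ (1 + a / f δ) * r :=
      mul_le_mul_of_nonneg_left h.le (by positivity)
    linarith

/-- the sub-solution property of `Pa` -/
theorem Pa_sub (hf : IsKPP f) {a δ δ₀ : ℝ} (ha : 0 < a) (hδ : 0 < δ) (hδδ₀ : δ ≤ δ₀) (hδ₀ : δ₀ < 1)
    (hfa : ∀ r, 0 ≤ r → r ≤ δ₀ → derivWithin f (Icc 0 1) r ≤ a)
    (hlin : ∀ r, δ ≤ r → r ≤ 1 → f r ≤ f δ + a * (r - δ)) :
    ∀ r₀ ∈ Ioc (0 : ℝ) 1, ∃ m, (∀ r ∈ Ioc (0 : ℝ) 1, Pa f a δ r₀ + m * (r - r₀) ≤ Pa f a δ r) ∧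
      m * f r₀ ≤ a * Pa f a δ r₀ := by
  have hδI : δ ∈ Ioo (0 : ℝ) 1 := ⟨hδ, lt_of_le_of_lt hδδ₀ hδ₀⟩
  have hfδ := hf.pos δ hδI.1 hδI.2
  have hmono := psi_mono hf ha.le hδI hδ₀ hfa
  have hmonoδ : MonotoneOn (fun r => a * Real.exp (a * Hf f δ r) / f r) (Ioc 0 δ) :=
    hmono.mono (Ioc_subset_Ioc_right hδδ₀)
  have hd : ∀ r ∈ Ioc (0 : ℝ) δ, HasDerivAt (fun r => Real.exp (a * Hf f δ r))
      ((fun r => a * Real.exp (a * Hf f δ r) / f r) r) r := fun r hr =>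
    exp_Hf_hasDerivAt hf a hδI ⟨hr.1, lt_of_le_of_lt hr.2 hδI.2⟩
  have htan : ∀ r₀ ∈ Ioc (0 : ℝ) δ, ∀ r ∈ Ioc (0 : ℝ) δ, Real.exp (a * Hf f δ r₀) +
      a * Real.exp (a * Hf f δ r₀) / f r₀ * (r - r₀) ≤ Real.exp (a * Hf f δ r) := fun r₀ h0 r h1 =>
    tangent_of_mono hd hmonoδ h0 h1
  have hψδ : a * Real.exp (a * Hf f δ δ) / f δ = a / f δ := by rw [Hf_self]; simp
  have hδmem : δ ∈ Ioc (0 : ℝ) δ := ⟨hδ, le_rfl⟩
  intro r₀ hr₀
  rcases le_or_gt r₀ δ with h | h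
  · refine ⟨a * Real.exp (a * Hf f δ r₀) / f r₀, fun r hr => ?_, ?_⟩
    · rw [Pa_of_le h]
      rcases le_or_gt r δ with h' | h'
      · rw [Pa_of_le h']
        exact htan r₀ ⟨hr₀.1, h⟩ r ⟨hr.1, h'⟩
      · rw [Pa_of_ge h'.le]
        have h1 := htan r₀ ⟨hr₀.1, h⟩ δ hδmem
        have h2 : a * Real.exp (a * Hf f δ r₀) / f r₀ ≤ a / f δ := by
          rw [← hψδ]; exact hmonoδ ⟨hr₀.1, h⟩ hδmem h
        have h3 := mul_le_mul_of_nonneg_right h2 (sub_pos.2 h').le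
        rw [Hf_self, mul_zero, Real.exp_zero] at h1
        nlinarith
    · rw [Pa_of_le h]
      have := hf.pos r₀ hr₀.1 (lt_of_le_of_lt h hδI.2)
      rw [div_mul_cancel₀ _ this.ne']
  · refine ⟨a / f δ, fun r hr => ?_, ?_⟩
    · rw [Pa_of_ge h.le]
      rcases le_or_gt r δ with h' | h'
      · rw [Pa_of_le h']
        have h1 := htan δ hδmem r ⟨hr.1, h'⟩
        rw [hψδ, Hf_self, mul_zero, Real.exp_zero] at h1
        linarith
      · rw [Pa_of_ge h'.le]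
        linarith
    · rw [Pa_of_ge h.le]
      have h1 := hlin r₀ h.le hr₀.2
      have h2 : a / f δ * f r₀ ≤ a / f δ * (f δ + a * (r₀ - δ)) :=
        mul_le_mul_of_nonneg_left h1 (by positivity)
      have h3 : a / f δ * (f δ + a * (r₀ - δ)) = a * (1 + a / f δ * (r₀ - δ)) := by
        field_simp
      linarith

end Pool.Agent.KPP
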